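import Pool.Agent.H756.RV.Defs

set_option autoImplicit false

/-!
# Anticoncentration for functions with constant transversal differences

Paper proof.  Write `P_d` for the largest possible proportion of the `ε` with `g ε = c` for lists with `d`
sets.  We show `M * P_d ^ (2 ^ d) ≤ 2 ^ (2 ^ d - 2)`.

`d = 1`: for `i ∈ C` the difference `dif i g` is the constant `σ i • a`.  So, the coordinates outside of `C`
being fixed, `g ε = const + (∑ i ∈ C, [ε i] * σ i) • a`, and as `a` has infinite order, `g ε = c` fixes the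
integer `∑ i ∈ C, [ε i] * σ i`; after replacing `ε i` by its negation for `σ i = -1` this fixes the number of
the `i ∈ C` with `ε i = true`, which happens for a proportion at most
`choose m (m / 2) / 2 ^ m ≤ m ^ (-1/2)`, `m = C.card ≥ M` (`Nat.four_pow_le_two_mul_self_mul_centralBinom` or
similar; the constant in the theorem leaves room, `2 * m ^ (-1/2)` is sufficient for `d = 1`, but then adapt
the constants of the induction, e.g. prove the bound with `2 ^ (2 ^ d)` by a slightly stronger induction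
hypothesis).

Step `d - 1 → d`, list `C :: Cs`: for `x, x', y : Fin n → Bool` let `x ∪ y` be `x` on `C` and `y` outside of
`C`.  By Cauchy-Schwarz `P(g = c)² ≤ P_{x,x',y}(g (x ∪ y) = g (x' ∪ y))`.  For fixed `x, x'` the function
`h y = g (x ∪ y) - g (x' ∪ y)` satisfies `Tr σ Cs h (S • a)` with
`S = ∑ i ∈ C, σ i * ([x i] - [x' i])` (telescope: change the coordinates in `C` from `x'` to `x` one after
the other; every step in which `i` is changed contributes `±` the difference `dif i g` at a hybrid point, as a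
function of `y`; `Tr` is additive, and it is compatible with fixing the coordinates in `C`, because `C` is
disjoint from the sets in `Cs`).  If `S ≠ 0`, then `S • a` has infinite order and the induction hypothesis
applies; `S = 0` for a proportion at most `m ^ (-1/2)` of the pairs `(x, x')` (fix `x'`, as for `d = 1`).
Hence `P_d² ≤ M ^ (-1/2) + P_{d-1}`.  (`[b] = 1` for `b = true` and `0` for `b = false`.)
-/

namespace Pool.Agent.H756.RV

open Finset

namespace AntiL

/-! ### Binomial coefficients -/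

theorem central (k : ℕ) : (2 * k + 1) * k.centralBinom ^ 2 ≤ 4 ^ (2 * k) := by
  induction k with
  | zero => simp
  | succ k ih =>
    have h1 := Nat.succ_mul_centralBinom_succ k
    have h2 : (k + 1) ^ 2 * ((2 * (k + 1) + 1) * (k + 1).centralBinom ^ 2) ≤
        (k + 1) ^ 2 * 4 ^ (2 * (k + 1)) := by
      calc (k + 1) ^ 2 * ((2 * (k + 1) + 1) * (k + 1).centralBinom ^ 2)
          = (2 * (k + 1) + 1) * ((k + 1) * (k + 1).centralBinom) ^ 2 := by ring
        _ = (2 * (k + 1) + 1) * (2 * (2 * k + 1) * k.centralBinom) ^ 2 := by rw [h1]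
        _ = 4 * (2 * k + 3) * (2 * k + 1) * ((2 * k + 1) * k.centralBinom ^ 2) := by ring
        _ ≤ 4 * (2 * k + 3) * (2 * k + 1) * 4 ^ (2 * k) := Nat.mul_le_mul_left _ ih
        _ ≤ 4 * (4 * (k + 1) ^ 2) * 4 ^ (2 * k) := by
            apply Nat.mul_le_mul_right
            nlinarith
        _ = (k + 1) ^ 2 * 4 ^ (2 * (k + 1)) := by ring
    exact Nat.le_of_mul_le_mul_left h2 (by positivity)

theorem choose_sq (m j : ℕ) : m * m.choose j ^ 2 ≤ 4 ^ m := by
  have h0 : m.choose j ≤ m.choose (m / 2) := Nat.choose_le_middle j m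
  have h1 : m * m.choose j ^ 2 ≤ m * m.choose (m / 2) ^ 2 :=
    Nat.mul_le_mul_left _ (Nat.pow_le_pow_left h0 2)
  refine h1.trans ?_
  rcases Nat.even_or_odd' m with ⟨k, rfl | rfl⟩
  · have h2 := central k
    rw [Nat.centralBinom_eq_two_mul_choose] at h2
    rw [Nat.mul_div_cancel_left k (by norm_num)]
    exact (Nat.mul_le_mul_right _ (Nat.le_succ _)).trans h2
  · have h2 := central (k + 1)
    have h3 : (k + 1).centralBinom = 2 * (2 * k + 1).choose k := by
      rw [Nat.centralBinom_eq_two_mul_choose]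
      have e : 2 * (k + 1) = (2 * k + 1) + 1 := by ring
      rw [e, Nat.choose_succ_succ, ← Nat.choose_symm_half k]
      ring
    have h4 : (2 * k + 1) / 2 = k := by omega
    rw [h3] at h2
    rw [h4]
    have h5 : 4 * ((2 * k + 1) * (2 * k + 1).choose k ^ 2) ≤ 4 * 4 ^ (2 * k + 1) := by
      calc 4 * ((2 * k + 1) * (2 * k + 1).choose k ^ 2)
          ≤ (2 * (k + 1) + 1) * (2 * (2 * k + 1).choose k) ^ 2 := by nlinarith [Nat.zero_le ((2 * k + 1).choose k ^ 2)]
        _ ≤ 4 ^ (2 * (k + 1)) := h2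
        _ = 4 * 4 ^ (2 * k + 1) := by ring
    exact Nat.le_of_mul_le_mul_left h5 (by norm_num)

variable {n : ℕ}

/-- the number of points with a given number of `true` in `C` -/
theorem lo_nat (C : Finset (Fin n)) (j : ℕ) :
    (univ.filter fun x : Fin n → Bool => (C.filter (fun i => x i = true)).card = j).card ≤
      C.card.choose j * 2 ^ (n - C.card) := by
  have h1 : ((powersetCard j C) ×ˢ (Cᶜ).powerset).card = C.card.choose j * 2 ^ (n - C.card) := by
    rw [card_product, card_powersetCard, card_powerset, card_compl, Fintype.card_fin]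
  rw [← h1]
  refine card_le_card_of_injOn
    (fun x => (C.filter (fun i => x i = true), Cᶜ.filter (fun i => x i = true))) ?_ ?_
  · intro x hx
    simp only [coe_filter, mem_univ, true_and, Set.mem_ofPred_eq] at hx
    simp only [coe_product, Set.mem_prod, mem_coe, mem_powersetCard, mem_powerset]
    exact ⟨⟨filter_subset _ _, hx⟩, filter_subset _ _⟩
  · intro x _ y _ hxy
    simp only [Prod.mk.injEq] at hxy
    funext i
    have key : x i = true ↔ y i = true := by
      by_cases hi : i ∈ C
      · have := Finset.ext_iff.1 hxy.1 i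
        simp only [mem_filter, hi, true_and] at this
        exact this
      · have := Finset.ext_iff.1 hxy.2 i
        simp only [mem_filter, mem_compl, hi, not_false_eq_true, true_and] at this
        exact this
    exact Bool.eq_iff_iff.2 key

/-- `0` or `1` -/
def bz (b : Bool) : ℤ := if b = true then 1 else 0

theorem lo_int (σ : Fin n → ℤ) (hσ : ∀ i, σ i = 1 ∨ σ i = -1) (C : Finset (Fin n)) (k : ℤ) :
    C.card * (univ.filter fun x : Fin n → Bool => ∑ i ∈ C, σ i * bz (x i) = k).card ^ 2 ≤
      (2 ^ n) ^ 2 := by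
  -- flip the coordinates with sign `-1`
  let fl : (Fin n → Bool) → (Fin n → Bool) := fun x i => if σ i = 1 then x i else !(x i)
  have hfl : Function.Injective fl := by
    intro x y hxy
    funext i
    have := congrFun hxy i
    simp only [fl] at this
    split_ifs at this with h
    · exact this
    · exact Bool.not_inj this
  obtain ⟨r, hr⟩ : ∃ r : ℤ, ∀ x : Fin n → Bool, ∑ i ∈ C, σ i * bz (x i) =
      ((C.filter (fun i => fl x i = true)).card : ℤ) - r := by
    refine ⟨∑ i ∈ C, (if σ i = 1 then 0 else 1), fun x => ?_⟩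
    rw [card_filter, Nat.cast_sum, ← sum_sub_distrib]
    refine sum_congr rfl fun i _ => ?_
    rcases hσ i with h | h
    · simp only [fl, bz, h, if_true]
      split_ifs <;> simp
    · have h' : σ i ≠ 1 := by rw [h]; decide
      simp only [fl, bz, if_neg h']
      rw [h]
      cases x i <;> simp
  set F := univ.filter fun x : Fin n → Bool => ∑ i ∈ C, σ i * bz (x i) = k with hF
  obtain ⟨j, hj⟩ : ∃ j : ℕ, F.card ≤
      (univ.filter fun x : Fin n → Bool => (C.filter (fun i => x i = true)).card = j).card := by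
    rcases F.eq_empty_or_nonempty with h | ⟨x0, h0⟩
    · exact ⟨0, by rw [h]; simp⟩
    · refine ⟨(C.filter (fun i => fl x0 i = true)).card, ?_⟩
      refine card_le_card_of_injOn fl ?_ (hfl.injOn)
      intro x hx
      rw [hF] at h0 hx
      simp only [mem_filter, mem_univ, true_and, coe_filter, Set.mem_ofPred_eq] at h0 hx ⊢
      have h1 := hr x
      have h2 := hr x0
      rw [hx] at h1
      rw [h0] at h2
      have : ((C.filter (fun i => fl x i = true)).card : ℤ) =
        ((C.filter (fun i => fl x0 i = true)).card : ℤ) := by linarith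
      exact_mod_cast this
  have h1 := hj.trans (lo_nat C j)
  have hC : C.card ≤ n := by
    have := card_le_univ C
    rwa [Fintype.card_fin] at this
  calc C.card * F.card ^ 2 ≤ C.card * (C.card.choose j * 2 ^ (n - C.card)) ^ 2 :=
        Nat.mul_le_mul_left _ (Nat.pow_le_pow_left h1 2)
    _ = (C.card * C.card.choose j ^ 2) * (2 ^ (n - C.card)) ^ 2 := by ring
    _ ≤ 4 ^ C.card * (2 ^ (n - C.card)) ^ 2 := Nat.mul_le_mul_right _ (choose_sq _ _)
    _ = (2 ^ (C.card + (n - C.card))) ^ 2 := by
        rw [pow_add, mul_pow]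
        congr 1
        rw [← pow_mul, mul_comm C.card 2, pow_mul]
        norm_num
    _ = (2 ^ n) ^ 2 := by rw [Nat.add_sub_cancel' hC]

theorem lo_real (σ : Fin n → ℤ) (hσ : ∀ i, σ i = 1 ∨ σ i = -1) (C : Finset (Fin n)) (k : ℤ)
    (M : ℕ) (hM : M ≤ C.card) (y : ℝ) (hy : 0 ≤ y) (hMy : 1 ≤ M * y ^ 2) :
    ((univ.filter fun x : Fin n → Bool => ∑ i ∈ C, σ i * bz (x i) = k).card : ℝ) ≤ y * 2 ^ n := by
  set N : ℝ := ((univ.filter fun x : Fin n → Bool => ∑ i ∈ C, σ i * bz (x i) = k).card : ℝ) with hN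
  have h1 : (C.card : ℝ) * N ^ 2 ≤ (2 ^ n) ^ 2 := by
    rw [hN]
    exact_mod_cast lo_int σ hσ C k
  have h2 : (M : ℝ) ≤ C.card := by exact_mod_cast hM
  have h3 : N ^ 2 ≤ (y * 2 ^ n) ^ 2 := by
    calc N ^ 2 = 1 * N ^ 2 := by ring
      _ ≤ (M * y ^ 2) * N ^ 2 := mul_le_mul_of_nonneg_right hMy (sq_nonneg _)
      _ = y ^ 2 * (M * N ^ 2) := by ring
      _ ≤ y ^ 2 * (C.card * N ^ 2) := by
          apply mul_le_mul_of_nonneg_left _ (sq_nonneg _)
          exact mul_le_mul_of_nonneg_right h2 (sq_nonneg _)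
      _ ≤ y ^ 2 * (2 ^ n) ^ 2 := mul_le_mul_of_nonneg_left h1 (sq_nonneg _)
      _ = (y * 2 ^ n) ^ 2 := by ring
  exact (pow_le_pow_iff_left₀ (Nat.cast_nonneg _) (by positivity) two_ne_zero).1 h3

/-! ### Hybrid points -/

/-- `x` on `C`, `y` outside of `C` -/
def mix (C : Finset (Fin n)) (x y : Fin n → Bool) : Fin n → Bool :=
  fun i => if i ∈ C then x i else y i

theorem mix_mix (C : Finset (Fin n)) (x y : Fin n → Bool) :
    mix C (mix C x y) (mix C y x) = x := by
  funext i
  by_cases hi : i ∈ C <;> simp [mix, hi]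

/-- exchange of the coordinates in `C` -/
def mixE (C : Finset (Fin n)) :
    ((Fin n → Bool) × (Fin n → Bool)) ≃ ((Fin n → Bool) × (Fin n → Bool)) where
  toFun p := (mix C p.1 p.2, mix C p.2 p.1)
  invFun p := (mix C p.1 p.2, mix C p.2 p.1)
  left_inv p := by simp only [mix_mix]
  right_inv p := by simp only [mix_mix]

theorem sum_mix (C : Finset (Fin n)) (f : (Fin n → Bool) → ℝ) :
    ∑ y, ∑ x, f (mix C x y) = 2 ^ n * ∑ ε, f ε := by
  rw [sum_comm]
  have h1 : ∑ x, ∑ y, f (mix C x y) = ∑ p : (Fin n → Bool) × (Fin n → Bool), f (mixE C p).1 := by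
    rw [Fintype.sum_prod_type]
    rfl
  rw [h1, (mixE C).sum_comp (fun p => f p.1), Fintype.sum_prod_type]
  simp only [sum_const, card_univ, Fintype.card_pi, Fintype.card_bool, prod_const, Fintype.card_fin,
    nsmul_eq_mul, Nat.cast_pow, Nat.cast_ofNat]
  rw [← mul_sum]

/-! ### Rules for `Tr` -/

variable {A : Type} [AddCommGroup A]

theorem tr_add (σ : Fin n → ℤ) : ∀ (Cs : List (Finset (Fin n))) (f g : (Fin n → Bool) → A)
    (a b : A), Tr σ Cs f a → Tr σ Cs g b → Tr σ Cs (fun ε => f ε + g ε) (a + b)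
  | [], f, g, a, b, hf, hg => fun ε => by
      show f ε + g ε = a + b
      rw [hf ε, hg ε]
  | C :: Cs, f, g, a, b, hf, hg => fun i hi => by
      have h := tr_add σ Cs _ _ _ _ (hf i hi) (hg i hi)
      rw [← smul_add] at h
      have e : dif i (fun ε => f ε + g ε) = fun ε => dif i f ε + dif i g ε := by
        funext ε
        simp only [dif]
        abel
      rw [e]
      exact h

theorem tr_smul (σ : Fin n → ℤ) (k : ℤ) : ∀ (Cs : List (Finset (Fin n)))
    (f : (Fin n → Bool) → A) (a : A), Tr σ Cs f a → Tr σ Cs (fun ε => k • f ε) (k • a)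
  | [], f, a, hf => fun ε => by
      show k • f ε = k • a
      rw [hf ε]
  | C :: Cs, f, a, hf => fun i hi => by
      have h := tr_smul σ k Cs _ _ (hf i hi)
      rw [smul_comm] at h
      have e : dif i (fun ε => k • f ε) = fun ε => k • dif i f ε := by
        funext ε
        simp only [dif]
        rw [smul_sub]
      rw [e]
      exact h

theorem mix_update (C : Finset (Fin n)) (z y : Fin n → Bool) {i : Fin n} (hi : i ∉ C) (b : Bool) :
    mix C z (Function.update y i b) = Function.update (mix C z y) i b := by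
  funext j
  by_cases hj : j = i
  · subst hj
    simp [mix, hi]
  · simp [mix, hj]

theorem tr_mix (σ : Fin n → ℤ) (C : Finset (Fin n)) (z : Fin n → Bool) :
    ∀ (Cs : List (Finset (Fin n))) (_ : ∀ D ∈ Cs, Disjoint C D) (f : (Fin n → Bool) → A) (a : A),
      Tr σ Cs f a → Tr σ Cs (fun y => f (mix C z y)) a
  | [], _, f, a, hf => fun ε => hf _
  | D :: Cs, hd, f, a, hf => fun i hi => by
      have hiC : i ∉ C := fun h => (disjoint_left.1 (hd D (by simp))) h hi
      have h := tr_mix σ C z Cs (fun D' hD' => hd D' (by simp [hD'])) _ _ (hf i hi)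
      have e : dif i (fun y => f (mix C z y)) = fun y => dif i f (mix C z y) := by
        funext y
        simp only [dif, mix_update C z y hiC]
      rw [e]
      exact h

/-- the differences of hybrid values -/
theorem tr_diff (σ : Fin n → ℤ) (C : Finset (Fin n)) (Cs : List (Finset (Fin n)))
    (hd : ∀ D ∈ Cs, Disjoint C D) (g : (Fin n → Bool) → A) (a : A) (h : Tr σ (C :: Cs) g a)
    (x x' : Fin n → Bool) :
    Tr σ Cs (fun y => g (mix C x y) - g (mix C x' y))
      ((∑ i ∈ C, σ i * bz (x i) - ∑ i ∈ C, σ i * bz (x' i)) • a) := by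
  have key : ∀ D : Finset (Fin n), D ⊆ C →
      Tr σ Cs (fun y => g (mix C (mix D x x') y) - g (mix C x' y))
        ((∑ i ∈ D, σ i * bz (x i) - ∑ i ∈ D, σ i * bz (x' i)) • a) := by
    intro D
    induction D using Finset.induction_on with
    | empty =>
      intro _
      have e1 : (fun y => g (mix C (mix (∅ : Finset (Fin n)) x x') y) - g (mix C x' y)) =
          fun y => (0 : ℤ) • g (mix C x' y) := by
        funext y
        have : mix (∅ : Finset (Fin n)) x x' = x' := by
          funext i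
          simp [mix]
        rw [this, sub_self, zero_smul]
      rw [e1]
      simp only [sum_empty, sub_self, zero_smul]
      clear e1 hd h
      have h0 : ∀ (Cs : List (Finset (Fin n))), Tr σ Cs (fun _ : Fin n → Bool => (0 : A)) 0 := by
        intro Cs
        induction Cs with
        | nil => exact fun ε => rfl
        | cons C Cs ih =>
          intro i hi
          have e : dif i (fun _ : Fin n → Bool => (0 : A)) = fun _ => 0 := by
            funext ε
            simp [dif]
          rw [e, smul_zero]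
          exact ih
      exact h0 Cs
    | insert i D hiD ih =>
      intro hDC
      have hiC : i ∈ C := hDC (mem_insert_self _ _)
      have h1 := ih ((subset_insert _ _).trans hDC)
      have h2 := tr_smul σ (bz (x i) - bz (x' i)) Cs _ _
        (tr_mix σ C (mix D x x') Cs hd _ _ (h i hiC))
      have h3 := tr_add σ Cs _ _ _ _ h2 h1
      have e1 : (fun y => g (mix C (mix (insert i D) x x') y) - g (mix C x' y)) =
          fun y => (bz (x i) - bz (x' i)) • dif i g (mix C (mix D x x') y) +
            (g (mix C (mix D x x') y) - g (mix C x' y)) := by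
        funext y
        have u1 : mix C (mix (insert i D) x x') y =
            Function.update (mix C (mix D x x') y) i (x i) := by
          funext j
          by_cases hj : j = i
          · subst hj
            simp [mix, hiC]
          · simp [mix, hj]
        have u2 : mix C (mix D x x') y = Function.update (mix C (mix D x x') y) i (x' i) := by
          funext j
          by_cases hj : j = i
          · subst hj
            simp [mix, hiC, hiD]
          · simp [hj]
        rw [u1]
        have u3 : g (mix C (mix D x x') y) - g (mix C x' y) =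
            g (Function.update (mix C (mix D x x') y) i (x' i)) - g (mix C x' y) := by
          rw [← u2]
        rw [u3]
        simp only [dif]
        cases x i <;> cases x' i <;> simp [bz]
      have e2 : (bz (x i) - bz (x' i)) • σ i • a +
          (∑ i ∈ D, σ i * bz (x i) - ∑ i ∈ D, σ i * bz (x' i)) • a =
          (∑ i ∈ insert i D, σ i * bz (x i) - ∑ i ∈ insert i D, σ i * bz (x' i)) • a := by
        rw [sum_insert hiD, sum_insert hiD, smul_smul, ← add_smul]
        congr 1
        ring
      rw [e1, ← e2]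
      exact h3
  have h1 := key C (Subset.refl _)
  have e : ∀ y, mix C (mix C x x') y = mix C x y := by
    intro y
    funext i
    by_cases hi : i ∈ C <;> simp [mix, hi]
  simp only [e] at h1
  exact h1

open Classical in
theorem card_eq (p : (Fin n → Bool) → Prop) :
    ((univ.filter p).card : ℝ) = ∑ ε, if p ε then (1 : ℝ) else 0 := by
  rw [Finset.natCast_card_filter]

theorem card_univ' : ((univ : Finset (Fin n → Bool)).card : ℝ) = 2 ^ n := by
  simp [card_univ]

open Classical in
theorem base (σ : Fin n → ℤ) (hσ : ∀ i, σ i = 1 ∨ σ i = -1) (M : ℕ) (C : Finset (Fin n))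
    (hM : M ≤ C.card) (g : (Fin n → Bool) → A) (a : A) (ha : ∀ k : ℤ, k • a = 0 → k = 0)
    (h : Tr σ [C] g a) (c : A) (x : ℝ) (hx : 0 ≤ x) (hMx : 1 ≤ M * x ^ 2) :
    ((univ.filter fun ε : Fin n → Bool => g ε = c).card : ℝ) ≤ 2 * x * 2 ^ n := by
  have h1 := sum_mix C (fun ε => if g ε = c then (1 : ℝ) else 0)
  rw [← card_eq (fun ε => g ε = c)] at h1
  have h2 : ∀ y : Fin n → Bool, ∑ z, (if g (mix C z y) = c then (1 : ℝ) else 0) ≤ x * 2 ^ n := by
    intro y
    rw [← card_eq (fun z => g (mix C z y) = c)]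
    rcases (univ.filter fun z : Fin n → Bool => g (mix C z y) = c).eq_empty_or_nonempty with
      h0 | ⟨z0, hz0⟩
    · rw [h0, card_empty, Nat.cast_zero]
      positivity
    · refine le_trans ?_ (lo_real σ hσ C (∑ i ∈ C, σ i * bz (z0 i)) M hM x hx hMx)
      have : (univ.filter fun z : Fin n → Bool => g (mix C z y) = c) ⊆
          univ.filter fun z : Fin n → Bool => ∑ i ∈ C, σ i * bz (z i) =
            ∑ i ∈ C, σ i * bz (z0 i) := by
        intro z hz
        simp only [mem_filter, mem_univ, true_and] at hz hz0 ⊢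
        have h3 : g (mix C z y) - g (mix C z0 y) =
            (∑ i ∈ C, σ i * bz (z i) - ∑ i ∈ C, σ i * bz (z0 i)) • a :=
          tr_diff σ C [] (by simp) g a h z z0 y
        rw [hz, hz0, sub_self] at h3
        exact sub_eq_zero.1 (ha _ h3.symm)
      exact_mod_cast card_le_card this
  have h3 : (2 : ℝ) ^ n * ((univ.filter fun ε : Fin n → Bool => g ε = c).card : ℝ) ≤
      2 ^ n * (x * 2 ^ n) := by
    rw [← h1]
    calc ∑ y, ∑ z, (if g (mix C z y) = c then (1 : ℝ) else 0) ≤ ∑ _y : Fin n → Bool, x * 2 ^ n :=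
          sum_le_sum fun y _ => h2 y
      _ = 2 ^ n * (x * 2 ^ n) := by
          rw [sum_const, nsmul_eq_mul, card_univ']
  have h4 := le_of_mul_le_mul_left h3 (by positivity)
  have h5 : 0 ≤ x * 2 ^ n := by positivity
  linarith

open Classical in
theorem step (σ : Fin n → ℤ) (hσ : ∀ i, σ i = 1 ∨ σ i = -1) (M : ℕ) (C : Finset (Fin n))
    (hM : M ≤ C.card) (Cs : List (Finset (Fin n))) (hd : ∀ D ∈ Cs, Disjoint C D)
    (g : (Fin n → Bool) → A) (a : A) (ha : ∀ k : ℤ, k • a = 0 → k = 0)
    (h : Tr σ (C :: Cs) g a) (c : A) (x : ℝ) (hx : 0 ≤ x) (hMx : 1 ≤ M * (x ^ 2) ^ 2)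
    (ih : ∀ (g : (Fin n → Bool) → A) (a : A), (∀ k : ℤ, k • a = 0 → k = 0) → Tr σ Cs g a →
      ∀ c : A, ((univ.filter fun ε : Fin n → Bool => g ε = c).card : ℝ) ≤ 2 * x ^ 2 * 2 ^ n) :
    ((univ.filter fun ε : Fin n → Bool => g ε = c).card : ℝ) ≤ 2 * x * 2 ^ n := by
  have h1 := sum_mix C (fun ε => if g ε = c then (1 : ℝ) else 0)
  rw [← card_eq (fun ε => g ε = c)] at h1
  set N : ℝ := ((univ.filter fun ε : Fin n → Bool => g ε = c).card : ℝ) with hN
  set K : ℝ := 2 ^ n with hK
  have hK0 : 0 < K := by positivity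
  -- Cauchy-Schwarz
  have h2 : (K * N) ^ 2 ≤ K * ∑ y, (∑ z, if g (mix C z y) = c then (1 : ℝ) else 0) ^ 2 := by
    rw [← h1]
    have := sq_sum_le_card_mul_sum_sq (s := (univ : Finset (Fin n → Bool)))
      (f := fun y => ∑ z, if g (mix C z y) = c then (1 : ℝ) else 0)
    rwa [card_univ'] at this
  -- the pairs
  have h3 : ∀ y : Fin n → Bool, (∑ z, if g (mix C z y) = c then (1 : ℝ) else 0) ^ 2 ≤
      ∑ z', ∑ z, if g (mix C z y) - g (mix C z' y) = 0 then (1 : ℝ) else 0 := by
    intro y
    rw [sq, sum_mul_sum, sum_comm]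
    refine sum_le_sum fun z' _ => sum_le_sum fun z _ => ?_
    by_cases e1 : g (mix C z y) = c
    · by_cases e2 : g (mix C z' y) = c
      · rw [if_pos e1, if_pos e2, if_pos (by rw [e1, e2, sub_self])]
        norm_num
      · rw [if_neg e2, mul_zero]
        split_ifs <;> norm_num
    · rw [if_neg e1, zero_mul]
      split_ifs <;> norm_num
  have h4 : ∀ z z' : Fin n → Bool,
      (∑ y, if g (mix C z y) - g (mix C z' y) = 0 then (1 : ℝ) else 0) ≤
        2 * x ^ 2 * K + K * (if ∑ i ∈ C, σ i * bz (z i) = ∑ i ∈ C, σ i * bz (z' i) then 1 else 0) := by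
    intro z z'
    by_cases hS : ∑ i ∈ C, σ i * bz (z i) = ∑ i ∈ C, σ i * bz (z' i)
    · rw [if_pos hS, mul_one]
      have : (∑ y, if g (mix C z y) - g (mix C z' y) = 0 then (1 : ℝ) else 0) ≤
          ∑ _y : Fin n → Bool, (1 : ℝ) := sum_le_sum fun y _ => by split_ifs <;> norm_num
      rw [sum_const, nsmul_eq_mul, mul_one, card_univ'] at this
      have h0 : 0 ≤ 2 * x ^ 2 * K := by positivity
      linarith
    · rw [if_neg hS, mul_zero, add_zero, ← card_eq (fun y => g (mix C z y) - g (mix C z' y) = 0)]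
      refine ih _ _ ?_ (tr_diff σ C Cs hd g a h z z') 0
      intro k hk
      rw [smul_smul] at hk
      have := ha _ hk
      rcases mul_eq_zero.1 this with h5 | h5
      · exact h5
      · exact absurd (sub_eq_zero.1 h5) hS
  have h5 : ∀ z' : Fin n → Bool,
      (∑ z : Fin n → Bool, if ∑ i ∈ C, σ i * bz (z i) = ∑ i ∈ C, σ i * bz (z' i) then (1 : ℝ) else 0) ≤
        x ^ 2 * K := by
    intro z'
    have := lo_real σ hσ C (∑ i ∈ C, σ i * bz (z' i)) M hM (x ^ 2) (sq_nonneg _) hMx
    rw [Finset.natCast_card_filter] at this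
    exact this
  have h6 : ∑ y, (∑ z, if g (mix C z y) = c then (1 : ℝ) else 0) ^ 2 ≤ 3 * x ^ 2 * K ^ 3 := by
    calc ∑ y, (∑ z, if g (mix C z y) = c then (1 : ℝ) else 0) ^ 2
        ≤ ∑ y, ∑ z', ∑ z, (if g (mix C z y) - g (mix C z' y) = 0 then (1 : ℝ) else 0) :=
          sum_le_sum fun y _ => h3 y
      _ = ∑ z', ∑ z, ∑ y, (if g (mix C z y) - g (mix C z' y) = 0 then (1 : ℝ) else 0) := by
          rw [sum_comm]
          refine sum_congr rfl fun z' _ => ?_
          rw [sum_comm]
      _ ≤ ∑ z' : Fin n → Bool, ∑ z : Fin n → Bool, (2 * x ^ 2 * K + K * (if ∑ i ∈ C, σ i * bz (z i) =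
            ∑ i ∈ C, σ i * bz (z' i) then (1 : ℝ) else 0)) :=
          sum_le_sum fun z' _ => sum_le_sum fun z _ => h4 z z'
      _ = ∑ z' : Fin n → Bool, (K * (2 * x ^ 2 * K) + K * ∑ z : Fin n → Bool, (if ∑ i ∈ C, σ i * bz (z i) =
            ∑ i ∈ C, σ i * bz (z' i) then (1 : ℝ) else 0)) := by
          refine sum_congr rfl fun z' _ => ?_
          rw [sum_add_distrib, sum_const, nsmul_eq_mul, card_univ', ← mul_sum]
      _ ≤ ∑ _z' : Fin n → Bool, (K * (2 * x ^ 2 * K) + K * (x ^ 2 * K)) :=
          sum_le_sum fun z' _ => by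
            have := mul_le_mul_of_nonneg_left (h5 z') hK0.le
            linarith
      _ = 3 * x ^ 2 * K ^ 3 := by
          rw [sum_const, nsmul_eq_mul, card_univ']
          ring
  have h7 : (K * N) ^ 2 ≤ (K * (2 * x * K)) ^ 2 := by
    calc (K * N) ^ 2 ≤ K * ∑ y, (∑ z, if g (mix C z y) = c then (1 : ℝ) else 0) ^ 2 := h2
      _ ≤ K * (3 * x ^ 2 * K ^ 3) := mul_le_mul_of_nonneg_left h6 hK0.le
      _ ≤ K * (4 * x ^ 2 * K ^ 3) := by
          apply mul_le_mul_of_nonneg_left _ hK0.le
          apply mul_le_mul_of_nonneg_right _ (by positivity)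
          nlinarith [sq_nonneg x]
      _ = (K * (2 * x * K)) ^ 2 := by ring
  have h8 := (pow_le_pow_iff_left₀ (by positivity) (by positivity) two_ne_zero).1 h7
  exact le_of_mul_le_mul_left h8 hK0

open Classical in
theorem main (σ : Fin n → ℤ) (hσ : ∀ i, σ i = 1 ∨ σ i = -1) (M : ℕ) :
    ∀ (Cs : List (Finset (Fin n))), Cs ≠ [] → Cs.Pairwise Disjoint → (∀ C ∈ Cs, M ≤ C.card) →
      ∀ (g : (Fin n → Bool) → A) (a : A), (∀ k : ℤ, k • a = 0 → k = 0) → Tr σ Cs g a →
        ∀ (c : A) (x : ℝ), 0 ≤ x → 1 ≤ M * x ^ (2 ^ Cs.length) →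
          ((univ.filter fun ε : Fin n → Bool => g ε = c).card : ℝ) ≤ 2 * x * 2 ^ n := by
  intro Cs
  induction Cs with
  | nil => exact fun h => absurd rfl h
  | cons C Cs ih =>
    intro _ hdis hM g a ha h c x hx hMx
    rcases Cs with _ | ⟨C', Cs⟩
    · refine base σ hσ M C (hM C (by simp)) g a ha h c x hx ?_
      simpa using hMx
    · have hd := List.pairwise_cons.1 hdis
      have hlen : (2 : ℕ) ^ (C :: C' :: Cs).length = 2 * 2 ^ (C' :: Cs).length := by
        rw [List.length_cons, pow_succ, mul_comm]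
      rw [hlen, pow_mul] at hMx
      have hMpos : (1 : ℝ) ≤ M := by
        have : M ≠ 0 := by
          rintro rfl
          simp only [Nat.cast_zero, zero_mul] at hMx
          exact absurd hMx (by norm_num)
        exact_mod_cast Nat.one_le_iff_ne_zero.2 this
      refine step σ hσ M C (hM C (by simp)) (C' :: Cs) hd.1 g a ha h c x hx ?_ ?_
      · by_cases hx1 : x ^ 2 ≤ 1
        · refine hMx.trans (mul_le_mul_of_nonneg_left ?_ (by linarith))
          refine pow_le_pow_of_le_one (sq_nonneg _) hx1 ?_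
          calc 2 = 2 ^ 1 := by norm_num
            _ ≤ 2 ^ (C' :: Cs).length := Nat.pow_le_pow_right (by norm_num) (by simp)
        · push Not at hx1
          have : (1 : ℝ) ≤ (x ^ 2) ^ 2 := one_le_pow₀ hx1.le
          nlinarith
      · intro g' a' ha' h' c'
        exact ih (by simp) hd.2 (fun D hD => hM D (List.mem_cons_of_mem _ hD)) g' a' ha' h' c'
          (x ^ 2) (sq_nonneg _) hMx

end AntiL

open Classical in
theorem anti {n : ℕ} {A : Type} [AddCommGroup A] (σ : Fin n → ℤ) (hσ : ∀ i, σ i = 1 ∨ σ i = -1)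
    (M : ℕ) (Cs : List (Finset (Fin n))) (hne : Cs ≠ []) (hdis : Cs.Pairwise Disjoint)
    (hM : ∀ C ∈ Cs, M ≤ C.card) (g : (Fin n → Bool) → A) (a : A)
    (ha : ∀ k : ℤ, k • a = 0 → k = 0) (h : Tr σ Cs g a) (c : A) :
    M * (univ.filter fun ε : Fin n → Bool => g ε = c).card ^ (2 ^ Cs.length) ≤
      2 ^ (2 ^ Cs.length) * (2 ^ n) ^ (2 ^ Cs.length) := by
  rcases Nat.eq_zero_or_pos M with rfl | hM0
  · rw [zero_mul]
    exact Nat.zero_le _
  set L : ℕ := 2 ^ Cs.length with hL
  have hL0 : L ≠ 0 := by positivity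
  have hMR : (0 : ℝ) < M := by exact_mod_cast hM0
  -- the root
  set x : ℝ := ((M : ℝ)⁻¹) ^ ((L : ℝ)⁻¹) with hx
  have hx0 : 0 ≤ x := Real.rpow_nonneg (inv_nonneg.2 hMR.le) _
  have hxL : x ^ L = (M : ℝ)⁻¹ := by
    rw [hx, Real.rpow_inv_natCast_pow (inv_nonneg.2 hMR.le) hL0]
  have h1 : (M : ℝ) * x ^ L = 1 := by rw [hxL, mul_inv_cancel₀ hMR.ne']
  have h2 := AntiL.main σ hσ M Cs hne hdis hM g a ha h c x hx0 h1.ge
  have h3 : (M : ℝ) * ((univ.filter fun ε : Fin n → Bool => g ε = c).card : ℝ) ^ L ≤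
      2 ^ L * (2 ^ n) ^ L := by
    calc (M : ℝ) * ((univ.filter fun ε : Fin n → Bool => g ε = c).card : ℝ) ^ L
        ≤ M * (2 * x * 2 ^ n) ^ L :=
          mul_le_mul_of_nonneg_left (pow_le_pow_left₀ (Nat.cast_nonneg _) h2 _) hMR.le
      _ = (M * x ^ L) * (2 ^ L * (2 ^ n) ^ L) := by rw [mul_pow, mul_pow]; ring
      _ = 2 ^ L * (2 ^ n) ^ L := by rw [h1, one_mul]
  exact_mod_cast h3

end Pool.Agent.H756.RV
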