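import Pool.Agent.H756.RV.Arr
import Pool.Agent.H756.RV.Anti

set_option autoImplicit false

/-!
The bound for the probability of a value of a function with constant iterated differences.
-/

namespace Pool.Agent.H756.RV

open MeasureTheory Finset
open scoped ENNReal
open Pool.Agent.H756.RP

variable {n : ℕ}

theorem rootq (q : ℕ) (hq : 0 < q) {M X L K : ℕ} (hM : 0 < M) (h : M * X ^ q ≤ K * L ^ q) :
    (X : ℝ) ≤ ((K : ℝ) / (M : ℝ)) ^ (1 / (q : ℝ)) * L := by
  have hM' : (0 : ℝ) < M := by exact_mod_cast hM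
  have hq' : (q : ℝ) ≠ 0 := by
    have : (0 : ℝ) < q := by exact_mod_cast hq
    exact this.ne'
  have h1 : (M : ℝ) * (X : ℝ) ^ q ≤ K * (L : ℝ) ^ q := by exact_mod_cast h
  have h2 : (X : ℝ) ^ q ≤ ((K : ℝ) / (M : ℝ)) * (L : ℝ) ^ q := by
    rw [div_mul_eq_mul_div, le_div_iff₀ hM']
    linarith
  have h3 : ((X : ℝ) ^ q) ^ (1 / (q : ℝ)) ≤ (((K : ℝ) / (M : ℝ)) * (L : ℝ) ^ q) ^ (1 / (q : ℝ)) :=
    Real.rpow_le_rpow (by positivity) h2 (by positivity)
  have e : ∀ x : ℝ, 0 ≤ x → (x ^ q) ^ (1 / (q : ℝ)) = x := by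
    intro x hx
    rw [← Real.rpow_natCast, ← Real.rpow_mul hx, mul_one_div_cancel hq', Real.rpow_one]
  rw [e _ (by positivity), Real.mul_rpow (by positivity) (by positivity), e _ (by positivity)] at h3
  exact h3

/-- the list of the sets is a list of pairwise disjoint sets -/
theorem disj_ofFn {m d : ℕ} {x y : Fin d → ℕ} {B : ℕ} (hA : Arr x y B) (δ : ℝ)
    (ω : Fin n → Pt × Bool) :
    (List.ofFn fun j => good n m (x j) (y j) δ ω).Pairwise Disjoint := by
  classical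
  rw [List.pairwise_ofFn]
  intro j j' hjj
  rw [disjoint_left]
  intro i hi hi'
  unfold good at hi hi'
  have h1 := (mem_filter.1 hi).1
  have h2 := (mem_filter.1 hi').1
  exact blk_ne_of (fun h => absurd (hA.injx _ _ h) (ne_of_lt hjj)) h1 h2

open Classical in
/-- the number of the choices for which the function has a given value -/
theorem choice_bound' {m d : ℕ} (hm : 1 ≤ m) (hd : 1 ≤ d) {x y : Fin d → ℕ} {B : ℕ}
    (hA : Arr x y B) (hn : 2 * m * B + 1 ≤ n) {δ : ℝ} (hδ : 0 < δ) (ω : Fin n → Pt × Bool)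
    (hgen : ∀ ε, Gen (pts (act (verts n m x) δ ε ω))) (hw : nowr (verts n m x) δ ω)
    {A : Type} [AddCommGroup A] (V : (Fin n → Pt) → A) (a : A) (ha : ∀ k : ℤ, k • a = 0 → k = 0)
    (hV : Diff x y V a) {M : ℕ} (hM : 0 < M)
    (hM1 : ∀ j, M ≤ (good n m (x j) (y j) δ ω).card) (c : A) :
    ((univ.filter fun ε : Fin n → Bool =>
      V (pts (act (verts n m x) δ ε ω)) = c).card : ℝ) ≤
      (((2 ^ (2 ^ d) : ℕ) : ℝ) / (M : ℝ)) ^ (1 / ((2 ^ d : ℕ) : ℝ)) *
        Fintype.card (Fin n → Bool) := by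
  obtain ⟨k, h1, h2⟩ := sharp_of' hm hA hn (δ := δ) ω
  simp only [pts_act' _ ω hw] at hgen ⊢
  obtain ⟨σ, hσ, hT⟩ := hV (pts ω) (actv (verts n m x) ω) δ _ k hδ hgen h1 h2
  have h4 := anti σ hσ M (List.ofFn fun j => good n m (x j) (y j) δ ω) (by
      intro h
      have := congrArg List.length h
      rw [List.length_ofFn, List.length_nil] at this
      omega)
    (disj_ofFn hA δ ω) (by
      intro C hC
      rw [List.mem_ofFn] at hC
      obtain ⟨j, rfl⟩ := hC
      exact hM1 j)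
    _ a ha hT c
  rw [List.length_ofFn] at h4
  have h5 := rootq (2 ^ d) (by positivity) hM h4
  have e : (Fintype.card (Fin n → Bool) : ℝ) = ((2 ^ n : ℕ) : ℝ) := by
    simp
  rw [e]
  exact h5

theorem bound' {κ : Measure (Pt × Bool)} {c₀ H : ℝ} (hκ : Law κ c₀ H) {m d : ℕ} (hm : 1 ≤ m)
    (hd : 1 ≤ d) {x y : Fin d → ℕ} {B : ℕ} (hA : Arr x y B) (hn : 2 * m * B + 1 ≤ n)
    {δ : ℝ} (hδ : 0 < δ) (hδ1 : δ ≤ 1 / 10) {A : Type} [AddCommGroup A] (V : (Fin n → Pt) → A)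
    (W : Dat n × (Fin n → Fin n → Bool) → A) (hW : ∀ p, V p = W (dat2 p)) (a : A)
    (ha : ∀ k : ℤ, k • a = 0 → k = 0) (hV : Diff x y V a) (c : A) :
    (Measure.pi fun _ : Fin n => κ) {ω | V (pts ω) = c} ≤
      ENNReal.ofReal (n * H * δ +
        d * (4 / (m * m * (c₀ ^ 4 * δ / 10 ^ 11)) + 8 * (3 * 10 ^ 9 / c₀ ^ 3) / m +
        64 * n * (3 * 10 ^ 9 / c₀ ^ 3) * H * δ) +
        (4 * ((2 ^ (2 ^ d) : ℕ) : ℝ) / (m * m * (c₀ ^ 4 * δ / 10 ^ 11))) ^
          (1 / ((2 ^ d : ℕ) : ℝ))) := by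
  classical
  have := pi_prob (n := n) hκ
  have hc := hκ.c_pos
  have hH := hκ.H_pos
  have hm' : (0 : ℝ) < m := by exact_mod_cast hm
  have hnj : ∀ j, 2 * m * (y j + 1) + 1 ≤ n := fun j => by
    have := Nat.mul_le_mul_left (2 * m) (Nat.succ_le_of_lt (hA.lt j))
    simp only [Nat.succ_eq_add_one] at this
    omega
  have hn3 : 3 ≤ n := by
    have h1 := hnj ⟨0, hd⟩
    have h2 : 1 ≤ m * (y ⟨0, hd⟩ + 1) := Nat.mul_pos hm (Nat.succ_pos _)
    have h3 : 2 * m * (y ⟨0, hd⟩ + 1) = 2 * (m * (y ⟨0, hd⟩ + 1)) := by ring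
    omega
  set P := Measure.pi fun _ : Fin n => κ with hP
  set a₀ : ℝ := m * m * (c₀ ^ 4 * δ / 10 ^ 11) with ha₀
  have ha0 : 0 < a₀ := by positivity
  set D : ℝ := 4 / a₀ + 8 * (3 * 10 ^ 9 / c₀ ^ 3) / m + 64 * n * (3 * 10 ^ 9 / c₀ ^ 3) * H * δ
    with hD
  have hD0 : 0 ≤ D := by positivity
  set I := verts n m x with hI
  have hg : ∀ j, P {ω | ((good n m (x j) (y j) δ ω).card : ℝ) < a₀ / 4} ≤ ENNReal.ofReal D := by
    intro j
    have h1 := few_good hκ hm (hA.far j) (hnj j) hδ hδ1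
    rw [← ENNReal.ofReal_toReal (measure_ne_top P _)]
    exact ENNReal.ofReal_le_ofReal h1
  set Bad : Set (Fin n → Pt × Bool) := {ω | ¬ ∀ ε, Gen (pts (act I δ ε ω))} ∪
    {ω | ¬ nowr I δ ω} ∪ ⋃ j, {ω | ((good n m (x j) (y j) δ ω).card : ℝ) < a₀ / 4}
    with hBad
  have hBadle : P Bad ≤ ENNReal.ofReal (n * H * δ + d * D) := by
    have h0 : P {ω | ¬ ∀ ε, Gen (pts (act I δ ε ω))} = 0 :=
      gen_act hκ hn3 I hδ.le (by linarith)
    have h1 := wrap' hκ I hδ
    have h4 : ENNReal.ofReal (n * H * δ + d * D) =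
        0 + ENNReal.ofReal (n * H * δ) + ∑ _j : Fin d, ENNReal.ofReal D := by
      rw [zero_add, sum_const, card_univ, Fintype.card_fin, nsmul_eq_mul,
        ENNReal.ofReal_add (by positivity) (by positivity), ENNReal.ofReal_mul (Nat.cast_nonneg d),
        ENNReal.ofReal_natCast]
    rw [h4]
    refine (measure_union_le _ _).trans (add_le_add ?_ ?_)
    · exact (measure_union_le _ _).trans (add_le_add h0.le h1)
    · exact (measure_iUnion_fintype_le _ _).trans (sum_le_sum fun j _ => hg j)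
  set M : ℕ := ⌈a₀ / 4⌉₊ with hM
  have hM0 : 0 < M := Nat.ceil_pos.2 (by positivity)
  have hMa : a₀ / 4 ≤ M := Nat.le_ceil _
  have hmeasE : MeasurableSet {ω : Fin n → Pt × Bool | V (pts ω) = c} := by
    have : {ω : Fin n → Pt × Bool | V (pts ω) = c} =
        (fun ω => dat2 (pts ω)) ⁻¹' {e | W e = c} := by
      ext ω
      simp only [Set.mem_ofPred_eq, Set.mem_preimage, hW]
    rw [this]
    exact ((measurable_dat2 n).comp measurable_pts) (Set.toFinite _).measurableSet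
  have h := avg P (fun ε : Fin n → Bool => act I δ ε)
    (fun ε => act_pres hκ hδ.le (by linarith) _ ε) _ hmeasE Bad
    ((((2 ^ (2 ^ d) : ℕ) : ℝ) / (M : ℝ)) ^ (1 / ((2 ^ d : ℕ) : ℝ))) (by positivity) (by
      intro ω hω
      rw [hBad] at hω
      simp only [Set.mem_union, Set.mem_iUnion, Set.mem_ofPred_eq, not_or, not_not, not_exists,
        not_lt] at hω
      obtain ⟨⟨g1, g2⟩, g3⟩ := hω
      exact choice_bound' hm hd hA hn hδ ω g1 g2 V a ha hV hM0 (fun j => Nat.ceil_le.2 (g3 j)) c)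
  refine h.trans ?_
  rw [ENNReal.ofReal_add (by positivity) (by positivity)]
  refine add_le_add hBadle (ENNReal.ofReal_le_ofReal ?_)
  refine Real.rpow_le_rpow (by positivity) ?_ (by positivity)
  rw [div_le_div_iff₀ (by exact_mod_cast hM0) ha0]
  have h5 : (0 : ℝ) ≤ ((2 ^ (2 ^ d) : ℕ) : ℝ) := by positivity
  nlinarith

/-- The bound for all `n`. -/
theorem core {κ : Measure (Pt × Bool)} {c₀ H : ℝ} (hκ : Law κ c₀ H) {d : ℕ} (hd : 2 ≤ d)
    {x y : Fin d → ℕ} {B : ℕ} (hA : Arr x y B) :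
    ∃ K : ℝ, 0 < K ∧ ∀ n : ℕ, 1 ≤ n → ∀ (A : Type) [AddCommGroup A] (V : (Fin n → Pt) → A)
      (W : Dat n × (Fin n → Fin n → Bool) → A), (∀ p, V p = W (dat2 p)) → ∀ a : A,
      (∀ k : ℤ, k • a = 0 → k = 0) → Diff x y V a → ∀ c : A,
      (Measure.pi fun _ : Fin n => κ) {ω | V (pts ω) = c} ≤
        ENNReal.ofReal (K * (n : ℝ) ^ (-(4 / (5 * 2 ^ d)) : ℝ)) := by
  have hc := hκ.c_pos
  have hH := hκ.H_pos
  have hB : 1 ≤ B := by
    have := hA.lt ⟨0, by omega⟩
    omega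
  have hB' : (1 : ℝ) ≤ B := by exact_mod_cast hB
  -- m = (n - 1) / (2 B), n ≤ 4 B m for n ≥ 2 B + 1
  set A₁ : ℝ := c₀ ^ 4 / ((4 * B) ^ 2 * 10 ^ 12) with hA₁
  have hA0 : 0 < A₁ := by positivity
  set R : ℝ := 3 * 10 ^ 9 / c₀ ^ 3 with hR
  have hR0 : 0 < R := by positivity
  set Q : ℝ := 4 * ((2 ^ (2 ^ d) : ℕ) : ℝ) with hQ
  have hQ0 : 0 < Q := by positivity
  set q : ℝ := ((2 ^ d : ℕ) : ℝ) with hq
  have hq4 : 4 ≤ q := by
    rw [hq]
    have : 4 ≤ 2 ^ d := by
      calc 4 = 2 ^ 2 := by norm_num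
        _ ≤ 2 ^ d := Nat.pow_le_pow_right (by norm_num) hd
    exact_mod_cast this
  have hq0 : 0 < q := by linarith
  have hexp : (4 / (5 * 2 ^ d) : ℝ) = 4 / (5 * q) := by
    rw [hq]
    push_cast
    ring
  refine ⟨(H / 10 + d * (4 / A₁ + 32 * B * R + 64 * R * H / 10) + (Q / A₁) ^ (1 / q)) + 2 * B + 1,
    by positivity, ?_⟩
  intro n hn1 A _ V W hW a ha hV c
  have := pi_prob (n := n) hκ
  have hn0 : (0 : ℝ) < n := by exact_mod_cast hn1
  rw [hexp]
  set u : ℝ := (n : ℝ) ^ (-(1 / 5) : ℝ) with hu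
  have hu0 : 0 < u := Real.rpow_pos_of_pos hn0 _
  have hu5 : u ^ 5 * n = 1 := by
    rw [hu, ← Real.rpow_natCast, ← Real.rpow_mul hn0.le]
    norm_num
    rw [Real.rpow_neg_one, inv_mul_cancel₀ hn0.ne']
  have hn1' : (1 : ℝ) ≤ n := by exact_mod_cast hn1
  have hu1 : u ≤ 1 := by
    rw [hu]
    exact Real.rpow_le_one_of_one_le_of_nonpos hn1' (by norm_num)
  set v : ℝ := (n : ℝ) ^ (-(4 / (5 * q)) : ℝ) with hv
  have hv0 : 0 < v := Real.rpow_pos_of_pos hn0 _
  have huv : u ≤ v := by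
    rw [hu, hv]
    refine Real.rpow_le_rpow_of_exponent_le hn1' ?_
    rw [neg_le_neg_iff, div_le_div_iff₀ (by positivity) (by norm_num)]
    linarith
  have hv4 : v = (u ^ 4) ^ (1 / q) := by
    rw [hv, hu, ← Real.rpow_natCast, ← Real.rpow_mul hn0.le, ← Real.rpow_mul hn0.le]
    congr 1
    push_cast
    field_simp
    try ring
  rcases lt_or_ge n (2 * B + 1) with hlt | hge
  · refine (prob_le_one).trans ?_
    rw [← ENNReal.ofReal_one]
    refine ENNReal.ofReal_le_ofReal ?_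
    have h1 : (1 : ℝ) ≤ (2 * B + 1) * v := by
      have h2 : (n : ℝ) ≤ 2 * B + 1 := by exact_mod_cast hlt.le
      have h3 : 1 ≤ n * u := by
        have : u ^ 5 * n ≤ u * n := by
          have h4 : u ^ 5 ≤ u := by
            calc u ^ 5 = u ^ 4 * u := by ring
              _ ≤ 1 * u := by
                have := pow_le_one₀ (n := 4) hu0.le hu1
                gcongr
              _ = u := one_mul u
          gcongr
        rw [hu5] at this
        linarith
      calc (1 : ℝ) ≤ n * u := h3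
        _ ≤ (2 * B + 1) * v := by gcongr
    have h2 : 0 ≤ (H / 10 + d * (4 / A₁ + 32 * B * R + 64 * R * H / 10) +
        (Q / A₁) ^ (1 / q)) := by positivity
    nlinarith [mul_nonneg h2 hv0.le]
  · set m := (n - 1) / (2 * B) with hmdef
    have hm : 1 ≤ m := by
      rw [hmdef, Nat.one_le_div_iff (by omega)]
      omega
    have hm8 : 2 * m * B + 1 ≤ n := by
      have := Nat.div_mul_le_self (n - 1) (2 * B)
      rw [← hmdef] at this
      have h2 : m * (2 * B) = 2 * m * B := by ring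
      omega
    have hm16 : n ≤ 4 * B * m := by
      have h1 := Nat.lt_div_mul_add (a := n - 1) (b := 2 * B) (by omega)
      rw [← hmdef] at h1
      have h2 : 2 * B ≤ m * (2 * B) := Nat.le_mul_of_pos_left _ hm
      have h3 : 4 * B * m = m * (2 * B) + m * (2 * B) := by ring
      omega
    have hm' : (0 : ℝ) < m := by exact_mod_cast hm
    have hB0 : (0 : ℝ) < B := by linarith
    have hmn : (n : ℝ) / (4 * B) ≤ m := by
      rw [div_le_iff₀ (by positivity)]
      have : (n : ℝ) ≤ 4 * B * m := by exact_mod_cast hm16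
      linarith
    have hδ0 : 0 < u ^ 6 / 10 := by positivity
    have hδ1 : u ^ 6 / 10 ≤ 1 / 10 := by
      have := pow_le_one₀ (n := 6) hu0.le hu1
      linarith
    refine (bound' hκ hm (by omega) hA hm8 hδ0 hδ1 V W hW a ha hV c).trans
      (ENNReal.ofReal_le_ofReal ?_)
    rw [← hR, ← hQ, ← hq]
    have hu4 : u ^ 4 ≤ u := by
      calc u ^ 4 = u ^ 3 * u := by ring
        _ ≤ 1 * u := by
          have := pow_le_one₀ (n := 3) hu0.le hu1
          gcongr
        _ = u := one_mul u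
    have hu5' : u ^ 5 ≤ u := by
      calc u ^ 5 = u ^ 4 * u := by ring
        _ ≤ 1 * u := by
          have := pow_le_one₀ (n := 4) hu0.le hu1
          gcongr
        _ = u := one_mul u
    have ha : A₁ / u ^ 4 ≤ m * m * (c₀ ^ 4 * (u ^ 6 / 10) / 10 ^ 11) := by
      have h1 : A₁ / u ^ 4 = (n : ℝ) / (4 * B) * (n / (4 * B)) *
          (c₀ ^ 4 * (u ^ 6 / 10) / 10 ^ 11) := by
        rw [div_eq_iff (by positivity), hA₁]
        have h2 : (n : ℝ) / (4 * B) * (n / (4 * B)) * (c₀ ^ 4 * (u ^ 6 / 10) / 10 ^ 11) * u ^ 4 =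
            c₀ ^ 4 / ((4 * B) ^ 2 * 10 ^ 12) * (u ^ 5 * n) ^ 2 := by
          field_simp
          try ring
        rw [h2, hu5]
        ring
      rw [h1]
      gcongr
    set a₀ := (m : ℝ) * m * (c₀ ^ 4 * (u ^ 6 / 10) / 10 ^ 11) with ha₀
    have ha0 : 0 < a₀ := by positivity
    have e1 : (n : ℝ) * H * (u ^ 6 / 10) = H / 10 * u := by
      calc (n : ℝ) * H * (u ^ 6 / 10) = H / 10 * u * (u ^ 5 * n) := by ring
        _ = H / 10 * u := by rw [hu5, mul_one]
    have e2 : 4 / a₀ ≤ 4 / A₁ * u := by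
      calc 4 / a₀ ≤ 4 / (A₁ / u ^ 4) := by gcongr
        _ = 4 / A₁ * u ^ 4 := by field_simp
        _ ≤ 4 / A₁ * u := by gcongr
    have e3 : 8 * R / m ≤ 32 * B * R * u := by
      calc 8 * R / m ≤ 8 * R / (n / (4 * B)) := by gcongr
        _ = 32 * B * R * (u ^ 5 * n) / n := by rw [hu5]; field_simp; try ring
        _ = 32 * B * R * u ^ 5 := by field_simp
        _ ≤ 32 * B * R * u := by gcongr
    have e4 : 64 * n * R * H * (u ^ 6 / 10) = 64 * R * H / 10 * u := by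
      calc 64 * n * R * H * (u ^ 6 / 10) = 64 * R * H / 10 * u * (u ^ 5 * n) := by ring
        _ = 64 * R * H / 10 * u := by rw [hu5, mul_one]
    have e5 : (Q / a₀) ^ (1 / q) ≤ (Q / A₁) ^ (1 / q) * v := by
      calc (Q / a₀) ^ (1 / q) ≤ (Q / (A₁ / u ^ 4)) ^ (1 / q) := by
            refine Real.rpow_le_rpow (by positivity) ?_ (by positivity)
            gcongr
        _ = (Q / A₁ * u ^ 4) ^ (1 / q) := by
            congr 1
            field_simp
        _ = (Q / A₁) ^ (1 / q) * (u ^ 4) ^ (1 / q) :=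
            Real.mul_rpow (by positivity) (by positivity)
        _ = (Q / A₁) ^ (1 / q) * v := by rw [← hv4]
    rw [e1, e4]
    have e6 : d * (4 / a₀ + 8 * R / m + 64 * R * H / 10 * u) ≤
        d * (4 / A₁ + 32 * B * R + 64 * R * H / 10) * v := by
      calc d * (4 / a₀ + 8 * R / m + 64 * R * H / 10 * u)
          ≤ d * (4 / A₁ * u + 32 * B * R * u + 64 * R * H / 10 * u) := by gcongr
        _ = d * (4 / A₁ + 32 * B * R + 64 * R * H / 10) * u := by ring
        _ ≤ _ := by gcongr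
    have e7 : H / 10 * u ≤ H / 10 * v := by gcongr
    have e8 : 0 ≤ (2 * (B : ℝ) + 1) * v := by positivity
    calc H / 10 * u + d * (4 / a₀ + 8 * R / m + 64 * R * H / 10 * u) + (Q / a₀) ^ (1 / q)
        ≤ H / 10 * v + d * (4 / A₁ + 32 * B * R + 64 * R * H / 10) * v +
          (Q / A₁) ^ (1 / q) * v := add_le_add (add_le_add e7 e6) e5
      _ = (H / 10 + d * (4 / A₁ + 32 * B * R + 64 * R * H / 10) + (Q / A₁) ^ (1 / q)) * v := by
          ring
      _ ≤ _ := mul_le_mul_of_nonneg_right (by linarith) hv0.le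

end Pool.Agent.H756.RV
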