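import Pool.Agent.H756.RV.FlipJ
import Pool.Agent.H756.RV.Core
import Pool.Agent.H756.RP.Fin

set_option autoImplicit false

/-!
The moments of all orders of the normalised bracket of random polygons.
-/

namespace Pool.Agent.H756.RV

open MeasureTheory Finset LaurentPolynomial
open scoped ENNReal
open Pool.Agent.H756.RP
open Pool.Agent.H832R2.JR (GaussWord fPoly)
open Pool.Agent.H832R3.VJ (moment)

theorem bound_J {κ : Measure (Pt × Bool)} {c₀ H : ℝ} (hκ : Law κ c₀ H) {d : ℕ} (hd : 2 ≤ d) :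
    ∃ K : ℝ, 0 < K ∧ ∀ n : ℕ, 1 ≤ n → ∀ c : ℤ,
      (Measure.pi fun _ : Fin n => κ) {ω | moment d (pol (dat (pts ω))) = c} ≤
        ENNReal.ofReal (K * (n : ℝ) ^ (-(4 / (5 * 2 ^ d)) : ℝ)) := by
  obtain ⟨K, hK, h⟩ := core hκ hd (arrJ hd)
  refine ⟨K, hK, fun n hn c => ?_⟩
  exact h n hn ℤ (fun p => moment d (pol (dat p))) (fun e => moment d (pol e.1)) (fun _ => rfl)
    (aJ d) (fun k hk => by
      rw [smul_eq_mul] at hk
      exact (mul_eq_zero.1 hk).resolve_right (aJ_ne hd)) (diffJ hd) c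

theorem finalJ (ρ : Pt → ℝ≥0∞) (hρ : Measurable ρ) (h1 : ∫⁻ q, ρ q = 1) (h : ℝ × ℝ → ℝ≥0∞)
    (hh : Measurable h) (hfin : ∫⁻ q, h q ≠ ∞) (hle : ∀ q, ρ q ≤ h (q.1, q.2.1)) (U : Set Pt)
    (hU : IsOpen U) (hne : U.Nonempty) (b : ℝ≥0∞) (hb : b ≠ 0) (hbU : ∀ q ∈ U, b ≤ ρ q)
    (d : ℕ) (hd : 2 ≤ d) :
    ∃ C : ℝ, 0 < C ∧ ∀ n : ℕ, 3 ≤ n →
      ∀ c : ℤ, (Measure.pi fun _ : Fin n => (volume : Measure Pt).withDensity ρ)
        {p | ∃ (N : ℕ) (G : GaussWord N) (w : Fin N → Bool), Describes p G w ∧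
          moment d (fPoly G w) = c} ≤
        ENNReal.ofReal (C * (n : ℝ) ^ (-(4 / (5 * 2 ^ d)) : ℝ)) := by
  obtain ⟨a, s, κ, c₀, H, hs, hκ, hmap⟩ := reduce ρ hρ h1 h hh hfin hle U hU hne b hb hbU
  have hsim : Measurable (sim a s) := Reduce.measurable_sim a s
  obtain ⟨C, hC, hbd⟩ := bound_J hκ hd
  refine ⟨C, hC, fun n hn => ?_⟩
  have hgen0 : (Measure.pi fun _ : Fin n => (volume : Measure Pt).withDensity ρ)
      {p | (fun i => sim a s (p i)) ∈ {p : Fin n → Pt | Gen p}ᶜ} = 0 := by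
    rw [transfer ρ hρ h1 hκ hmap hsim n _ measurableSet_gen.compl]
    exact gen_ae hκ hn
  intro c
  have hmeas : MeasurableSet {p : Fin n → Pt | moment d (pol (dat p)) = c} :=
    (measurable_dat n) (t := {e : Dat n | moment d (pol e) = c}) (Set.toFinite _).measurableSet
  have hsub : {p : Fin n → Pt | ∃ (N : ℕ) (G : GaussWord N) (w : Fin N → Bool),
      Describes p G w ∧ moment d (fPoly G w) = c} ⊆
      {p | (fun i => sim a s (p i)) ∈ {p : Fin n → Pt | Gen p}ᶜ} ∪
      {p | (fun i => sim a s (p i)) ∈ {p : Fin n → Pt | moment d (pol (dat p)) = c}} := by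
    rintro p ⟨N, G, w, hdes, hc⟩
    rw [Set.mem_union]
    by_cases hg : Gen (fun i => sim a s (p i))
    · right
      have h2 := desc_pol sword srelabel hn _ hg G w ((sim_describes p a s hs G w).1 hdes)
      show moment d (pol (dat (fun i => sim a s (p i)))) = c
      rw [← h2, hc]
    · left
      exact hg
  refine (measure_mono hsub).trans ((measure_union_le _ _).trans ?_)
  rw [hgen0, zero_add, transfer ρ hρ h1 hκ hmap hsim n _ hmeas]
  exact hbd n (by omega) c

/-- the moments of odd order of a symmetric Laurent polynomial vanish -/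
theorem moment_invert (j : ℕ) (F : ℤ[T;T⁻¹]) :
    moment j (LaurentPolynomial.invert F) = (-1) ^ j * moment j F := by
  induction F using LaurentPolynomial.induction_on' with
  | add p q hp hq =>
    have hadd : ∀ x y : ℤ[T;T⁻¹], moment j (x + y) = moment j x + moment j y := by
      intro x y
      unfold moment
      exact Finsupp.sum_add_index' (fun _ => by simp) (fun _ _ _ => by ring)
    rw [map_add, hadd, hadd, hp, hq]
    ring
  | C_mul_T k a =>
    have hm : ∀ (k : ℤ) (a : ℤ), moment j (C a * T k) = a * k ^ j := by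
      intro k a
      unfold moment
      rw [← LaurentPolynomial.single_eq_C_mul_T]
      exact Finsupp.sum_single_index (by simp)
    rw [map_mul, LaurentPolynomial.invert_C, LaurentPolynomial.invert_T, hm, hm, neg_pow]
    ring

theorem moment3_zero (F : ℤ[T;T⁻¹]) (h : LaurentPolynomial.invert F = F) : moment 3 F = 0 := by
  have h1 := moment_invert 3 F
  rw [h] at h1
  have : ((-1 : ℤ)) ^ 3 = -1 := by norm_num
  rw [this] at h1
  omega

end Pool.Agent.H756.RV
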