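import Pool.Agent.H756.RV.Vass
import Pool.Agent.H756.RV.Core
import Pool.Agent.H756.RP.Fin

set_option autoImplicit false

/-!
Invariants of finite type of random polygons.
-/

namespace Pool.Agent.H756.RV

open MeasureTheory Finset
open scoped ENNReal
open Pool.Agent.H756.RP
open Pool.Agent.H832R2.JR (GaussWord)

theorem bound_V {κ : Measure (Pt × Bool)} {c₀ H : ℝ} (hκ : Law κ c₀ H) {d : ℕ} (hd : 2 ≤ d)
    (D : GaussWord d) :
    ∃ K : ℝ, 0 < K ∧ ∀ n : ℕ, 3 ≤ n → ∀ (A : Type) [AddCommGroup A]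
      (v : ∀ n, (Fin n → Pt) → A), IsInvariant v → ∀ a : A, Symbol v D a →
      (∀ k : ℤ, k • a = 0 → k = 0) → ∀ c : A,
      (Measure.pi fun _ : Fin n => κ) {ω | val v (dat2 (pts ω)) = c} ≤
        ENNReal.ofReal (K * (n : ℝ) ^ (-(4 / (5 * 2 ^ d)) : ℝ)) := by
  obtain ⟨K, hK, h⟩ := core hκ hd (arrD D)
  refine ⟨K, hK, fun n hn A _ v hv a hs ha c => ?_⟩
  exact h n (by omega) A (fun p => val v (dat2 p)) (val v) (fun _ => rfl) a ha
    (diffD hn hv (by omega) hs) c

noncomputable instance fintypeGaussWord (d : ℕ) : Fintype (GaussWord d) := by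
  unfold GaussWord
  infer_instance

/-- the bound for all chord diagrams with `d` chords -/
theorem bound_VD {κ : Measure (Pt × Bool)} {c₀ H : ℝ} (hκ : Law κ c₀ H) {d : ℕ} (hd : 2 ≤ d) :
    ∃ K : ℝ, 0 < K ∧ ∀ (D : GaussWord d) (n : ℕ), 3 ≤ n → ∀ (A : Type) [AddCommGroup A]
      (v : ∀ n, (Fin n → Pt) → A), IsInvariant v → ∀ a : A, Symbol v D a →
      (∀ k : ℤ, k • a = 0 → k = 0) → ∀ c : A,
      (Measure.pi fun _ : Fin n => κ) {ω | val v (dat2 (pts ω)) = c} ≤
        ENNReal.ofReal (K * (n : ℝ) ^ (-(4 / (5 * 2 ^ d)) : ℝ)) := by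
  choose K hK h using fun D : GaussWord d => bound_V hκ hd D
  have hle : ∀ D, K D ≤ ∑ D', K D' + 1 := by
    intro D
    have := Finset.single_le_sum (f := K) (fun D' _ => (hK D').le) (mem_univ D)
    linarith
  refine ⟨∑ D', K D' + 1, ?_, fun D n hn A _ v hv a hs ha c => ?_⟩
  · have : 0 ≤ ∑ D', K D' := Finset.sum_nonneg fun D' _ => (hK D').le
    linarith
  · refine (h D n hn A v hv a hs ha c).trans (ENNReal.ofReal_le_ofReal ?_)
    exact mul_le_mul_of_nonneg_right (hle D) (by positivity)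

/-- pairs -/
theorem pair_bound {α β E F : Type} [MeasurableSpace α] [MeasurableSpace β] [Fintype E]
    {A : Type} (μ : Measure α) (ν : Measure β) [IsProbabilityMeasure μ] [SFinite ν]
    (f : α → E) (g : β → F) (x : E → A) (y : F → A) [MeasurableSpace E]
    (hf : Measurable f) (hE : ∀ e : E, MeasurableSet ({e} : Set E)) (b : ℝ≥0∞)
    (hb : ∀ c : A, ν {q | y (g q) = c} ≤ b) :
    (μ.prod ν) {z | x (f z.1) = y (g z.2)} ≤ b := by
  classical
  have hsub : {z : α × β | x (f z.1) = y (g z.2)} ⊆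
      ⋃ e : E, (f ⁻¹' {e}) ×ˢ {q | y (g q) = x e} := by
    intro z hz
    rw [Set.mem_iUnion]
    exact ⟨f z.1, rfl, hz.symm⟩
  calc (μ.prod ν) {z | x (f z.1) = y (g z.2)}
      ≤ (μ.prod ν) (⋃ e : E, (f ⁻¹' {e}) ×ˢ {q | y (g q) = x e}) := measure_mono hsub
    _ ≤ ∑ e : E, (μ.prod ν) ((f ⁻¹' {e}) ×ˢ {q | y (g q) = x e}) := by
        rw [← Set.biUnion_univ]
        have := measure_biUnion_finset_le (μ := μ.prod ν) univ
          (fun e : E => (f ⁻¹' {e}) ×ˢ {q | y (g q) = x e})
        simpa using this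
    _ ≤ ∑ e : E, μ (f ⁻¹' {e}) * b := by
        refine sum_le_sum fun e _ => ?_
        rw [Measure.prod_prod]
        exact mul_le_mul_right (hb _) _
    _ = (∑ e : E, μ (f ⁻¹' {e})) * b := by rw [sum_mul]
    _ = b := by
        have h1 : ∑ e : E, μ (f ⁻¹' {e}) = μ (⋃ e ∈ (univ : Finset E), f ⁻¹' {e}) := by
          rw [measure_biUnion_finset]
          · intro e _ e' _ hne
            exact Set.disjoint_left.2 fun p hp hp' => hne (hp.symm.trans hp')
          · intro e _
            exact hf (hE e)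
        rw [h1]
        have h2 : (⋃ e ∈ (univ : Finset E), f ⁻¹' {e}) = Set.univ := by
          ext p
          simp
        rw [h2, measure_univ, one_mul]

theorem finalV (ρ : Pt → ℝ≥0∞) (hρ : Measurable ρ) (h1 : ∫⁻ q, ρ q = 1) (h : ℝ × ℝ → ℝ≥0∞)
    (hh : Measurable h) (hfin : ∫⁻ q, h q ≠ ∞) (hle : ∀ q, ρ q ≤ h (q.1, q.2.1)) (U : Set Pt)
    (hU : IsOpen U) (hne : U.Nonempty) (b : ℝ≥0∞) (hb : b ≠ 0) (hbU : ∀ q ∈ U, b ≤ ρ q)
    (d : ℕ) (hd : 2 ≤ d) :
    ∃ C : ℝ, 0 < C ∧ ∀ (A : Type) [AddCommGroup A] (v : ∀ n, (Fin n → Pt) → A), IsInvariant v →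
      ∀ (D : GaussWord d) (a : A), Symbol v D a → (∀ k : ℤ, k • a = 0 → k = 0) →
      (∀ n : ℕ, 3 ≤ n → ∀ c : A,
        (Measure.pi fun _ : Fin n => (volume : Measure Pt).withDensity ρ) {p | v n p = c} ≤
          ENNReal.ofReal (C * (n : ℝ) ^ (-(4 / (5 * 2 ^ d)) : ℝ))) ∧
      ∀ m n : ℕ, 3 ≤ m → 3 ≤ n →
        ((Measure.pi fun _ : Fin m => (volume : Measure Pt).withDensity ρ).prod
          (Measure.pi fun _ : Fin n => (volume : Measure Pt).withDensity ρ))
          {z | v m z.1 = v n z.2} ≤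
          ENNReal.ofReal (C * (max m n : ℝ) ^ (-(4 / (5 * 2 ^ d)) : ℝ)) := by
  obtain ⟨a, s, κ, c₀, H, hs, hκ, hmap⟩ := reduce ρ hρ h1 h hh hfin hle U hU hne b hb hbU
  have hsim : Measurable (sim a s) := Reduce.measurable_sim a s
  have hprob : IsProbabilityMeasure ((volume : Measure Pt).withDensity ρ) :=
    ⟨by rw [withDensity_apply _ MeasurableSet.univ, Measure.restrict_univ, h1]⟩
  obtain ⟨C, hC, hbd⟩ := bound_VD hκ hd
  refine ⟨C, hC, fun A _ v hv D a' hsy ha => ?_⟩
  -- the generic polygons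
  have hgen0 : ∀ n : ℕ, 3 ≤ n → (Measure.pi fun _ : Fin n => (volume : Measure Pt).withDensity ρ)
      {p | (fun i => sim a s (p i)) ∈ {p : Fin n → Pt | Gen p}ᶜ} = 0 := by
    intro n hn
    rw [transfer ρ hρ h1 hκ hmap hsim n _ measurableSet_gen.compl]
    exact gen_ae hκ hn
  have hval : ∀ n : ℕ, 3 ≤ n → ∀ p : Fin n → Pt, Gen (fun i => sim a s (p i)) →
      val v (dat2 (fun i => sim a s (p i))) = v n p := by
    intro n hn p hp
    rw [val_eq hv hn hp]
    obtain ⟨N, G, e, hW⟩ := word_of_gen hp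
    have d1 := diagram_dat hn hp hW
    exact hv _ _ _ _ _ _ _ _ d1 ((sim_diagram p a s hs _ _ _).2 d1)
  have hmd : ∀ n : ℕ, Measurable fun p : Fin n → Pt => dat2 (fun i => sim a s (p i)) := by
    intro n
    exact (measurable_dat2 n).comp
      (measurable_pi_lambda _ fun i => hsim.comp (measurable_pi_apply i))
  have hone : ∀ n : ℕ, 3 ≤ n → ∀ c : A,
      (Measure.pi fun _ : Fin n => (volume : Measure Pt).withDensity ρ)
        {p | val v (dat2 (fun i => sim a s (p i))) = c} ≤
        ENNReal.ofReal (C * (n : ℝ) ^ (-(4 / (5 * 2 ^ d)) : ℝ)) := by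
    intro n hn c
    have hmeas : MeasurableSet {p : Fin n → Pt | val v (dat2 p) = c} :=
      (measurable_dat2 n) (t := {e | val v e = c}) (Set.toFinite _).measurableSet
    have := transfer ρ hρ h1 hκ hmap hsim n _ hmeas
    refine le_trans (le_of_eq this) ?_
    exact hbd D n hn A v hv a' hsy ha c
  -- pairs
  have hpair : ∀ m n : ℕ, 3 ≤ m → 3 ≤ n →
      ((Measure.pi fun _ : Fin m => (volume : Measure Pt).withDensity ρ).prod
        (Measure.pi fun _ : Fin n => (volume : Measure Pt).withDensity ρ))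
        {z | v m z.1 = v n z.2} ≤
        ((Measure.pi fun _ : Fin m => (volume : Measure Pt).withDensity ρ).prod
        (Measure.pi fun _ : Fin n => (volume : Measure Pt).withDensity ρ))
        {z | val v (dat2 (fun i => sim a s (z.1 i))) =
          val v (dat2 (fun i => sim a s (z.2 i)))} := by
    intro m n hm hn
    have hsub : {z : (Fin m → Pt) × (Fin n → Pt) | v m z.1 = v n z.2} ⊆
        {z | val v (dat2 (fun i => sim a s (z.1 i))) =
          val v (dat2 (fun i => sim a s (z.2 i)))} ∪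
        (({p | (fun i => sim a s (p i)) ∈ {p : Fin m → Pt | Gen p}ᶜ} ×ˢ Set.univ) ∪
        (Set.univ ×ˢ {p | (fun i => sim a s (p i)) ∈ {p : Fin n → Pt | Gen p}ᶜ})) := by
      intro z hz
      by_cases hg1 : Gen (fun i => sim a s (z.1 i))
      · by_cases hg2 : Gen (fun i => sim a s (z.2 i))
        · left
          show val v (dat2 (fun i => sim a s (z.1 i))) = val v (dat2 (fun i => sim a s (z.2 i)))
          rw [hval m hm z.1 hg1, hval n hn z.2 hg2]
          exact hz
        · right
          right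
          exact ⟨Set.mem_univ _, hg2⟩
      · right
        left
        exact ⟨hg1, Set.mem_univ _⟩
    refine (measure_mono hsub).trans ((measure_union_le _ _).trans ?_)
    have h0 : ((Measure.pi fun _ : Fin m => (volume : Measure Pt).withDensity ρ).prod
        (Measure.pi fun _ : Fin n => (volume : Measure Pt).withDensity ρ))
        (({p | (fun i => sim a s (p i)) ∈ {p : Fin m → Pt | Gen p}ᶜ} ×ˢ Set.univ) ∪
        (Set.univ ×ˢ {p | (fun i => sim a s (p i)) ∈ {p : Fin n → Pt | Gen p}ᶜ})) = 0 := by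
      refine measure_union_null ?_ ?_
      · rw [Measure.prod_prod, hgen0 m hm, zero_mul]
      · rw [Measure.prod_prod, hgen0 n hn, mul_zero]
    rw [h0, add_zero]
  have hright : ∀ m n : ℕ, 3 ≤ m → 3 ≤ n →
      ((Measure.pi fun _ : Fin m => (volume : Measure Pt).withDensity ρ).prod
        (Measure.pi fun _ : Fin n => (volume : Measure Pt).withDensity ρ))
        {z | val v (dat2 (fun i => sim a s (z.1 i))) =
          val v (dat2 (fun i => sim a s (z.2 i)))} ≤
        ENNReal.ofReal (C * (n : ℝ) ^ (-(4 / (5 * 2 ^ d)) : ℝ)) := by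
    intro m n hm hn
    exact pair_bound _ _ (fun p : Fin m → Pt => dat2 (fun i => sim a s (p i)))
      (fun p : Fin n → Pt => dat2 (fun i => sim a s (p i))) (val v) (val v) (hmd m)
      (fun e => (Set.toFinite _).measurableSet) _ (hone n hn)
  refine ⟨fun n hn c => ?_, fun m n hm hn => ?_⟩
  · have hsub : {p : Fin n → Pt | v n p = c} ⊆
        {p | (fun i => sim a s (p i)) ∈ {p : Fin n → Pt | Gen p}ᶜ} ∪
        {p | val v (dat2 (fun i => sim a s (p i))) = c} := by
      intro p hp
      by_cases hg : Gen (fun i => sim a s (p i))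
      · right
        show val v (dat2 (fun i => sim a s (p i))) = c
        rw [hval n hn p hg]
        exact hp
      · left
        exact hg
    refine (measure_mono hsub).trans ((measure_union_le _ _).trans ?_)
    rw [hgen0 n hn, zero_add]
    exact hone n hn c
  · rcases le_total m n with hmn | hmn
    · have e : (max m n : ℝ) = n := by
        rw [max_eq_right]
        exact_mod_cast hmn
      rw [e]
      exact (hpair m n hm hn).trans (hright m n hm hn)
    · have e : (max m n : ℝ) = m := by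
        rw [max_eq_left]
        exact_mod_cast hmn
      rw [e]
      refine (hpair m n hm hn).trans ?_
      rw [← Measure.prod_swap, Measure.map_apply measurable_swap]
      · refine le_trans (le_of_eq ?_) (hright n m hn hm)
        congr 1
        ext z
        exact eq_comm
      · have : MeasurableSet ({e : (Dat m × (Fin m → Fin m → Bool)) ×
            (Dat n × (Fin n → Fin n → Bool)) | val v e.1 = val v e.2}) :=
          (Set.toFinite _).measurableSet
        exact ((hmd m).comp measurable_fst |>.prodMk ((hmd n).comp measurable_snd)) this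

end Pool.Agent.H756.RV
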