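import Mathlib

set_option autoImplicit false

/-!
# Differences of functions of Boolean variables
-/

namespace Pool.Agent.H756.RV

variable {n : ℕ} {A : Type} [AddCommGroup A]

/-- the difference of `g` in the direction of the coordinate `i` -/
def dif (i : Fin n) (g : (Fin n → Bool) → A) : (Fin n → Bool) → A :=
  fun ε => g (Function.update ε i true) - g (Function.update ε i false)

/-- the iterated difference of `g` in the directions of the coordinates in the list -/
def difs : List (Fin n) → ((Fin n → Bool) → A) → (Fin n → Bool) → A
  | [], g => g
  | i :: l, g => difs l (dif i g)

/-- for every choice of one coordinate `i` in every set of the list, the iterated difference of `g` in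
the directions of these coordinates is constant, namely the product of the signs `σ i` times `a` -/
def Tr (σ : Fin n → ℤ) : List (Finset (Fin n)) → ((Fin n → Bool) → A) → A → Prop
  | [], g, a => ∀ ε, g ε = a
  | C :: Cs, g, a => ∀ i ∈ C, Tr σ Cs (dif i g) (σ i • a)

end Pool.Agent.H756.RV
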