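import Pool.Agent.H756.RV.Blk
import Pool.Agent.H756.RV.Defs

set_option autoImplicit false

/-!
Arrangements of pairs of blocks, and functions of polygons with constant iterated differences.
-/

namespace Pool.Agent.H756.RV

open MeasureTheory Finset
open scoped ENNReal
open Pool.Agent.H756.RP

variable {n : ℕ}

/-- `d` pairs of blocks: the vertices are in the blocks `x j`, the edges in the blocks `y j` -/
structure Arr {d : ℕ} (x y : Fin d → ℕ) (B : ℕ) : Prop where
  injx : ∀ j j', x j = x j' → j = j'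
  injy : ∀ j j', y j = y j' → j = j'
  ne : ∀ j j', x j ≠ y j'
  far : ∀ j, x j + 2 ≤ y j
  lt : ∀ j, y j < B

/-- the vertices `i ∈ C j` and the edges `k i` have the order of the blocks `x j`, `y j` -/
def Placed {d : ℕ} (x y : Fin d → ℕ) (C : Fin d → Finset (Fin n)) (k : Fin n → Fin n) : Prop :=
  ∀ j j', ∀ i ∈ C j, ∀ i' ∈ C j', (x j < x j' → i < i') ∧ (x j < y j' → i < k i') ∧
    (y j < x j' → k i < i') ∧ (y j < y j' → k i < k i')

/-- the function `V` of polygons has constant iterated differences if one crossing of every pair of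
blocks is changed -/
def Diff {A : Type} [AddCommGroup A] {d : ℕ} (x y : Fin d → ℕ) (V : (Fin n → Pt) → A) (a : A) :
    Prop :=
  ∀ (p : Fin n → Pt) (J : Finset (Fin n)) (δ : ℝ) (C : Fin d → Finset (Fin n)) (k : Fin n → Fin n),
    0 < δ → (∀ ε, Gen (shift p J δ ε)) → (∀ j, Sharp p J δ (C j) k) → Placed x y C k →
    ∃ σ : Fin n → ℤ, (∀ i, σ i = 1 ∨ σ i = -1) ∧
      Tr σ (List.ofFn C) (fun ε => V (shift p J δ ε)) a

/-- the vertices of the blocks `x j` -/
def verts (n m : ℕ) {d : ℕ} (x : Fin d → ℕ) : Finset (Fin n) :=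
  univ.biUnion fun j => blk n m (x j)

theorem mem_verts {m d : ℕ} {x : Fin d → ℕ} {i : Fin n} :
    i ∈ verts n m x ↔ ∃ j, i ∈ blk n m (x j) := by
  unfold verts
  rw [mem_biUnion]
  simp

/-- the marked vertices of `I` in the slab `0 ≤ z < 1` -/
noncomputable def actv (I : Finset (Fin n)) (ω : Fin n → Pt × Bool) : Finset (Fin n) :=
  open Classical in
  I.filter fun i => (ω i).2 = true ∧ 0 ≤ (ω i).1.2.2 ∧ (ω i).1.2.2 < 1

theorem mem_actv {I : Finset (Fin n)} {ω : Fin n → Pt × Bool} {i : Fin n} :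
    i ∈ actv I ω ↔ i ∈ I ∧ (ω i).2 = true ∧ 0 ≤ (ω i).1.2.2 ∧ (ω i).1.2.2 < 1 := by
  classical
  unfold actv
  rw [mem_filter]

/-- the translation does not wrap around -/
def nowr (I : Finset (Fin n)) (δ : ℝ) (ω : Fin n → Pt × Bool) : Prop :=
  ∀ i ∈ actv I ω, (ω i).1.2.2 + δ < 1

theorem pts_act' (I : Finset (Fin n)) {δ : ℝ} (ω : Fin n → Pt × Bool) (hω : nowr I δ ω)
    (ε : Fin n → Bool) : pts (act I δ ε ω) = shift (pts ω) (actv I ω) δ ε := by
  classical
  funext i
  unfold pts act shift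
  by_cases h1 : i ∈ I ∧ ε i = true
  · rw [if_pos h1]
    by_cases h2 : (ω i).2 = true ∧ 0 ≤ (ω i).1.2.2 ∧ (ω i).1.2.2 < 1
    · have h3 : i ∈ actv I ω := mem_actv.2 ⟨h1.1, h2⟩
      rw [if_pos ⟨h3, h1.2⟩]
      unfold tr
      rw [if_pos h2, if_pos (hω i h3)]
    · rw [if_neg]
      · unfold tr
        rw [if_neg h2]
      · rintro ⟨h3, _⟩
        exact h2 (mem_actv.1 h3).2
  · rw [if_neg h1, if_neg]
    rintro ⟨h3, h4⟩
    exact h1 ⟨(mem_actv.1 h3).1, h4⟩

theorem sharp_of' {m d : ℕ} (hm : 1 ≤ m) {x y : Fin d → ℕ} {B : ℕ} (hA : Arr x y B)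
    (hn : 2 * m * B + 1 ≤ n) {δ : ℝ} (ω : Fin n → Pt × Bool) :
    ∃ k : Fin n → Fin n,
      (∀ j, Sharp (pts ω) (actv (verts n m x) ω) δ (good n m (x j) (y j) δ ω) k) ∧
      Placed x y (fun j => good n m (x j) (y j) δ ω) k := by
  classical
  have hnj : ∀ j, 2 * m * (y j + 1) + 1 ≤ n := fun j => by
    have := Nat.mul_le_mul_left (2 * m) (Nat.succ_le_of_lt (hA.lt j))
    simp only [Nat.succ_eq_add_one] at this
    omega
  have hmem : ∀ j i, i ∈ good n m (x j) (y j) δ ω → i ∈ blk n m (x j) ∧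
      ∃ k ∈ blk n m (y j), ω ∈ Av i k δ ∧
      ∀ e f, (e = i ∨ nx e = i) → Cr (pts ω) e f → (e, f) ≠ (i, k) →
        2 * δ < |gap (pts ω) e f| := by
    intro j i hi
    unfold good at hi
    exact mem_filter.1 hi
  have hex : ∀ i, ∃ k, (∀ j, i ∈ good n m (x j) (y j) δ ω → k ∈ blk n m (y j) ∧ ω ∈ Av i k δ ∧
      ∀ e f, (e = i ∨ nx e = i) → Cr (pts ω) e f → (e, f) ≠ (i, k) →
        2 * δ < |gap (pts ω) e f|) := by
    intro i
    by_cases h0 : ∃ j, i ∈ good n m (x j) (y j) δ ω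
    · obtain ⟨j, hj⟩ := h0
      obtain ⟨g1, k, g2, g3, g4⟩ := hmem j i hj
      refine ⟨k, fun j' hj' => ?_⟩
      have g5 := (hmem j' i hj').1
      have h1 : j = j' := by
        by_contra hne
        exact blk_ne_of (fun h => hne (hA.injx _ _ h)) g1 g5
      subst h1
      exact ⟨g2, g3, g4⟩
    · exact ⟨i, fun j hj => absurd ⟨j, hj⟩ h0⟩
  choose k hk using hex
  have hblk : ∀ j i, i ∈ good n m (x j) (y j) δ ω → i ∈ blk n m (x j) := fun j i hi =>
    (hmem j i hi).1
  have hact : ∀ i, i ∈ actv (verts n m x) ω → ∃ j, i ∈ blk n m (x j) := fun i hi =>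
    mem_verts.1 (mem_actv.1 hi).1
  refine ⟨k, fun j => ⟨?_, ?_, ?_, ?_, ?_, ?_, ?_, ?_⟩, ?_⟩
  · intro i hi
    have h1 := (hk i j hi).2.1
    exact mem_actv.2 ⟨mem_verts.2 ⟨j, hblk j i hi⟩, h1.1.1.1, h1.1.1.2.2.2.1, Av_lt h1⟩
  · intro i hi
    exact (Av_box (hk i j hi).2.1).1
  · intro i hi
    exact (hk i j hi).2.1.2.1
  · intro i hi
    exact (hk i j hi).2.1.2.2
  · intro i hi hc
    obtain ⟨g1, g2, g3⟩ := blk_far hm (hA.far j) (hnj j) (hblk j i hi) (hk i j hi).1
    have e1 := nx_val i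
    rw [if_neg (by omega)] at e1
    have g4 := blk_odd (hblk j i hi)
    obtain ⟨j', h5⟩ := hact _ hc
    have g5 := blk_odd h5
    omega
  · intro i hi hc
    obtain ⟨j', h5⟩ := hact _ hc
    exact blk_ne_of (hA.ne j' j) h5 (hk i j hi).1
  · intro i hi hc
    obtain ⟨g1, g2, g3⟩ := blk_far hm (hA.far j) (hnj j) (hblk j i hi) (hk i j hi).1
    have e1 := nx_val (k i)
    rw [if_neg (by omega)] at e1
    have g4 := blk_odd (hk i j hi).1
    obtain ⟨j', h5⟩ := hact _ hc
    have g5 := blk_odd h5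
    omega
  · intro i hi
    exact (hk i j hi).2.2
  · intro j j' i hi i' hi'
    have g1 := hblk j i hi
    have g2 := hblk j' i' hi'
    have g3 := (hk i j hi).1
    have g4 := (hk i' j' hi').1
    exact ⟨fun h => blk_lt h g1 g2, fun h => blk_lt h g1 g4, fun h => blk_lt h g3 g2,
      fun h => blk_lt h g3 g4⟩

/-- all translates of almost all polygons are in general position -/
theorem gen_act {κ : Measure (Pt × Bool)} {c₀ H : ℝ} (hκ : Law κ c₀ H) (hn : 3 ≤ n)
    (I : Finset (Fin n)) {δ : ℝ} (h0 : 0 ≤ δ) (h1 : δ ≤ 1) :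
    ∀ᵐ ω ∂(Measure.pi fun _ : Fin n => κ), ∀ ε, Gen (pts (act I δ ε ω)) := by
  rw [ae_all_iff]
  intro ε
  exact (act_pres hκ h0 h1 I ε).quasiMeasurePreserving.ae (gen_ae hκ hn)

/-- the further finite data: which crossing strand is the upper one -/
noncomputable def dat2 (p : Fin n → Pt) : Dat n × (Fin n → Fin n → Bool) :=
  open Classical in
  (dat p, fun i j => decide (0 < gap p i j))

theorem measurable_dat2 (n : ℕ) :
    Measurable (dat2 : (Fin n → Pt) → Dat n × (Fin n → Fin n → Bool)) := by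
  classical
  unfold dat2
  refine (measurable_dat n).prodMk ?_
  refine measurable_pi_lambda _ fun i => measurable_pi_lambda _ fun j => measurable_to_bool ?_
  have : (fun p : Fin n → Pt => @decide (0 < gap p i j) (Classical.propDecidable _)) ⁻¹' {true} =
      {p | 0 < gap p i j} := by
    ext p; simp
  rw [this]
  exact measurableSet_lt measurable_const (measurable_gap i j)

theorem measurable_pts : Measurable (pts : (Fin n → Pt × Bool) → Fin n → Pt) :=
  measurable_pi_lambda _ fun i => measurable_fst.comp (measurable_pi_apply i)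

theorem wrap' {κ : Measure (Pt × Bool)} {c₀ H : ℝ} (hκ : Law κ c₀ H) (I : Finset (Fin n)) {δ : ℝ}
    (hδ : 0 < δ) :
    (Measure.pi fun _ : Fin n => κ) {ω | ¬ nowr I δ ω} ≤ ENNReal.ofReal (n * H * δ) := by
  have hprob := hκ.prob
  have hH := hκ.H_pos
  have h1 : {ω : Fin n → Pt × Bool | ¬ nowr I δ ω} ⊆
      ⋃ i : Fin n, (Function.eval i) ⁻¹' {y : Pt × Bool | |y.1.2.2 - 1| ≤ δ} := by
    intro ω hω
    simp only [Set.mem_ofPred_eq] at hω
    unfold nowr at hω
    push Not at hω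
    obtain ⟨i, hi, h⟩ := hω
    have hi' := mem_actv.1 hi
    rw [Set.mem_iUnion]
    refine ⟨i, ?_⟩
    show |(ω i).1.2.2 - 1| ≤ δ
    rw [abs_le]
    constructor <;> linarith [hi'.2.2.2]
  refine (measure_mono h1).trans ((measure_iUnion_fintype_le _ _).trans ?_)
  have hms : MeasurableSet {y : Pt × Bool | |y.1.2.2 - 1| ≤ δ} := by
    refine measurableSet_le ?_ measurable_const
    exact measurable_abs.comp ((measurable_snd.comp (measurable_snd.comp measurable_fst)).sub
      measurable_const)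
  have h2 : ∀ i : Fin n, (Measure.pi fun _ : Fin n => κ)
      ((Function.eval i) ⁻¹' {y : Pt × Bool | |y.1.2.2 - 1| ≤ δ}) ≤ ENNReal.ofReal (H * δ) := by
    intro i
    rw [(measurePreserving_eval (fun _ : Fin n => κ) i).measure_preimage hms.nullMeasurableSet]
    exact hκ.slab (fun _ => 1) measurable_const δ hδ.le
  refine (sum_le_sum fun i _ => h2 i).trans ?_
  rw [sum_const, card_univ, Fintype.card_fin, nsmul_eq_mul, mul_assoc,
    ENNReal.ofReal_mul (Nat.cast_nonneg n), ENNReal.ofReal_natCast]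

end Pool.Agent.H756.RV
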