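import Pool.Agent.H756.RP.Asm4

set_option autoImplicit false

/-!
Blocks of vertices: a pair of blocks `a`, `b` with `a + 2 ≤ b`.
-/

namespace Pool.Agent.H756.RV

open MeasureTheory Finset
open scoped ENNReal
open Pool.Agent.H756.RP

variable {n : ℕ}

theorem blk_lt {m a b : ℕ} (hab : a < b) {i k : Fin n} (hi : i ∈ blk n m a) (hk : k ∈ blk n m b) :
    i < k := by
  rw [mem_blk] at hi hk
  rw [Fin.lt_def]
  have h1 : 2 * m * (a + 1) ≤ 2 * m * b := Nat.mul_le_mul_left _ hab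
  omega

theorem blk_ne_of {m a b : ℕ} (hab : a ≠ b) {i : Fin n} (hi : i ∈ blk n m a) : i ∉ blk n m b := by
  intro h
  rcases lt_or_gt_of_ne hab with h1 | h1
  · exact lt_irrefl _ (blk_lt h1 hi h)
  · exact lt_irrefl _ (blk_lt h1 h hi)

theorem blk_odd {m a : ℕ} {i : Fin n} (hi : i ∈ blk n m a) : (i : ℕ) % 2 = 1 := (mem_blk.1 hi).1

/-- the arithmetic of the blocks -/
theorem blk_far {m a b : ℕ} (hm : 1 ≤ m) (hab : a + 2 ≤ b) (hn : 2 * m * (b + 1) + 1 ≤ n)
    {i k : Fin n} (hi : i ∈ blk n m a)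
    (hk : k ∈ blk n m b) : 1 ≤ (i : ℕ) ∧ (i : ℕ) + 2 < k ∧ (k : ℕ) + 1 < n := by
  rw [mem_blk] at hi hk
  have h1 : 2 * m * (a + 2) ≤ 2 * m * b := Nat.mul_le_mul_left _ hab
  have h2 : 2 * m * (a + 2) = 2 * m * (a + 1) + 2 * m := by ring
  omega

theorem blk_ne {m a b : ℕ} (hm : 1 ≤ m) (hab : a + 2 ≤ b) (hn : 2 * m * (b + 1) + 1 ≤ n)
    {i k : Fin n} (hi : i ∈ blk n m a) (hk : k ∈ blk n m b) :
    i ≠ nx i ∧ i ≠ k ∧ i ≠ nx k ∧ nx i ≠ k ∧ nx i ≠ nx k ∧ k ≠ nx k := by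
  obtain ⟨h1, h2, h3⟩ := blk_far hm hab hn hi hk
  have e1 := nx_val i
  have e2 := nx_val k
  rw [if_neg (by omega)] at e1 e2
  refine ⟨?_, ?_, ?_, ?_, ?_, ?_⟩ <;> intro h <;> have h' := congrArg Fin.val h <;> omega

open Classical in
/-- the vertices `i` of the block `a` such that for some edge `k` of the block `b` the increase of
the height of `i` changes the crossing with `k` and no other crossing -/
noncomputable def good (n m a b : ℕ) (δ : ℝ) (ω : Fin n → Pt × Bool) : Finset (Fin n) :=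
  (blk n m a).filter fun i => ∃ k ∈ blk n m b, ω ∈ Av i k δ ∧
    ∀ e f, (e = i ∨ nx e = i) → Cr (pts ω) e f → (e, f) ≠ (i, k) → 2 * δ < |gap (pts ω) e f|

/-- the pairs of a vertex and an edge -/
def prs (n m a b : ℕ) : Finset (Fin n × Fin n) := blk n m a ×ˢ blk n m b

/-- the pairs with a further crossing -/
def qds (n m a b : ℕ) : Finset ((Fin n × Fin n) × Fin n × Fin n) :=
  (prs n m a b ×ˢ univ).filter fun y =>
    (y.2.1 = y.1.1 ∨ nx y.2.1 = y.1.1) ∧ (y.2.1, y.2.2) ≠ (y.1.1, y.1.2)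

theorem card_prs {m a b : ℕ} (hab : a + 2 ≤ b) (hn : 2 * m * (b + 1) + 1 ≤ n) :
    (prs n m a b).card = m * m := by
  unfold prs
  have h1 : 2 * m * (a + 1) ≤ 2 * m * (b + 1) := Nat.mul_le_mul_left _ (by omega)
  rw [card_product, card_blk (by omega), card_blk (by omega)]

theorem card_qds {m a b : ℕ} (hab : a + 2 ≤ b) (hn : 2 * m * (b + 1) + 1 ≤ n) :
    (qds n m a b).card ≤ m * m * (2 * n) := by
  classical
  have h1 : qds n m a b ⊆ (prs n m a b).biUnion (fun z =>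
      (({z.1, (finRotate n).symm z.1} : Finset (Fin n)) ×ˢ univ).image (fun w => (z, w))) := by
    intro y hy
    unfold qds at hy
    rw [mem_filter, mem_product] at hy
    rw [mem_biUnion]
    refine ⟨y.1, hy.1.1, ?_⟩
    rw [mem_image]
    refine ⟨y.2, ?_, rfl⟩
    rw [mem_product, mem_insert, mem_singleton]
    refine ⟨?_, mem_univ _⟩
    rcases hy.2.1 with h | h
    · exact Or.inl h
    · right
      rw [← h]
      exact ((finRotate n).symm_apply_apply _).symm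
  refine (card_le_card h1).trans ?_
  refine (card_biUnion_le_card_mul _ _ (2 * n) ?_).trans ?_
  · intro z _
    refine card_image_le.trans ?_
    rw [card_product, card_univ, Fintype.card_fin]
    exact Nat.mul_le_mul_right _ card_le_two
  · rw [card_prs hab hn]

/-- the number of the good vertices -/
theorem card_good {m a b : ℕ} {δ : ℝ} (hδ : 0 < δ) (ω : Fin n → Pt × Bool) :
    cnt (prs n m a b) (fun z => Av z.1 z.2 δ) ω - cnt (qds n m a b) (Bv δ) ω ≤
      (good n m a b δ ω).card := by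
  classical
  have hcr : ∀ i k, ω ∈ Av i k δ → Cr (pts ω) i k := fun i k h => (Av_box h).1
  rw [cnt_eq, cnt_eq]
  set X := (prs n m a b).filter fun z => ω ∈ Av z.1 z.2 δ with hX
  set Y := (qds n m a b).filter fun y => ω ∈ Bv δ y with hY
  set W := X.filter fun z => ∀ e f, (e = z.1 ∨ nx e = z.1) → Cr (pts ω) e f →
    (e, f) ≠ (z.1, z.2) → 2 * δ < |gap (pts ω) e f| with hW
  have h1 : (X.filter fun z => ¬ ∀ e f, (e = z.1 ∨ nx e = z.1) → Cr (pts ω) e f →
      (e, f) ≠ (z.1, z.2) → 2 * δ < |gap (pts ω) e f|).card ≤ Y.card := by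
    refine (card_le_card ?_).trans (card_image_le (s := Y) (f := Prod.fst))
    intro z hz
    rw [mem_filter] at hz
    obtain ⟨hz1, hz2⟩ := hz
    push Not at hz2
    obtain ⟨e, f, he, hc, hne, hg⟩ := hz2
    rw [hX, mem_filter] at hz1
    rw [mem_image]
    refine ⟨(z, (e, f)), ?_, rfl⟩
    rw [hY, mem_filter]
    refine ⟨?_, hz1.2, hc, hg⟩
    unfold qds
    rw [mem_filter, mem_product]
    exact ⟨⟨hz1.1, mem_univ _⟩, he, hne⟩
  have h2 : W.card ≤ (good n m a b δ ω).card := by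
    refine card_le_card_of_injOn Prod.fst ?_ ?_
    · intro z hz
      rw [mem_coe, hW, mem_filter, hX, mem_filter] at hz
      have hz1 := hz.1.1
      unfold prs at hz1
      rw [mem_product] at hz1
      rw [mem_coe]
      unfold good
      rw [mem_filter]
      exact ⟨hz1.1, z.2, hz1.2, hz.1.2, hz.2⟩
    · intro z hz z' hz' h
      rw [mem_coe, hW, mem_filter, hX, mem_filter] at hz hz'
      by_contra hne
      have h3 : z.2 ≠ z'.2 := fun h4 => hne (Prod.ext h h4)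
      have h4 : ω ∈ Av z.1 z'.2 δ := by
        rw [h]
        exact hz'.1.2
      have h5 := hcr _ _ h4
      have h6 := hz.2 z.1 z'.2 (Or.inl rfl) h5 (by
        intro h7
        exact h3 (Prod.ext_iff.1 h7).2.symm)
      have h7 := gap_of_Av hδ h4 h5.2.1.1
      linarith
  have h3 := card_filter_add_card_filter_not (s := X) (fun z => ∀ e f,
    (e = z.1 ∨ nx e = z.1) → Cr (pts ω) e f → (e, f) ≠ (z.1, z.2) → 2 * δ < |gap (pts ω) e f|)
  have h4 : X.card ≤ (good n m a b δ ω).card + Y.card := by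
    rw [← h3]
    exact Nat.add_le_add h2 h1
  have h5 : (X.card : ℝ) ≤ (good n m a b δ ω).card + Y.card := by exact_mod_cast h4
  linarith

/-- the vertices of two different pairs -/
theorem prs_ne {m a b : ℕ} (hm : 1 ≤ m) (hab : a + 2 ≤ b) (hn : 2 * m * (b + 1) + 1 ≤ n)
    {i k i' k' : Fin n}
    (hi : i ∈ blk n m a) (hk : k ∈ blk n m b) (hi' : i' ∈ blk n m a)
    (hk' : k' ∈ blk n m b) :
    (i' ≠ i → (i' ≠ nx i ∧ i' ≠ k ∧ i' ≠ nx k) ∧ nx i' ≠ i ∧ nx i' ≠ nx i ∧ nx i' ≠ k ∧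
      nx i' ≠ nx k) ∧
    (k' ≠ k → (k' ≠ i ∧ k' ≠ nx i ∧ k' ≠ nx k) ∧ nx k' ≠ i ∧ nx k' ≠ nx i ∧ nx k' ≠ k ∧
      nx k' ≠ nx k) := by
  obtain ⟨a1, a2, a3⟩ := blk_far hm hab hn hi hk
  obtain ⟨b1, b2, b3⟩ := blk_far hm hab hn hi' hk'
  obtain ⟨c1, c2, c3⟩ := blk_far hm hab hn hi' hk
  obtain ⟨d1, d2, d3⟩ := blk_far hm hab hn hi hk'
  have e1 := nx_val i
  have e2 := nx_val k
  have e3 := nx_val i'
  have e4 := nx_val k'
  rw [if_neg (by omega)] at e1 e2 e3 e4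
  have o1 := blk_odd hi
  have o2 := blk_odd hk
  have o3 := blk_odd hi'
  have o4 := blk_odd hk'
  constructor
  · intro h
    have h' : (i' : ℕ) ≠ i := fun hh => h (Fin.ext hh)
    refine ⟨⟨?_, ?_, ?_⟩, ?_, ?_, ?_, ?_⟩ <;> intro hh <;> have h'' := congrArg Fin.val hh <;>
      omega
  · intro h
    have h' : (k' : ℕ) ≠ k := fun hh => h (Fin.ext hh)
    refine ⟨⟨?_, ?_, ?_⟩, ?_, ?_, ?_, ?_⟩ <;> intro hh <;> have h'' := congrArg Fin.val hh <;>
      omega

section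

variable {κ : Measure (Pt × Bool)} {c₀ H : ℝ}

theorem real_Av (hκ : Law κ c₀ H) {m a b : ℕ} (hm : 1 ≤ m) (hab : a + 2 ≤ b)
    (hn : 2 * m * (b + 1) + 1 ≤ n) {i k : Fin n}
    (hi : i ∈ blk n m a) (hk : k ∈ blk n m b) {δ : ℝ} (hδ : 0 < δ) (hδ1 : δ ≤ 1 / 10) :
    (Measure.pi fun _ : Fin n => κ).real (Av i k δ) = c₀ ^ 4 * δ / 10 ^ 11 := by
  have := pi_prob (n := n) hκ
  obtain ⟨g1, g2, g3, g4, g5, g6⟩ := blk_ne hm hab hn hi hk
  have h := Av_prob hκ g1 g2 g3 g4 g5 g6 hδ hδ1 Set.univ MeasurableSet.univ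
    (fun v _ ω y => ⟨fun _ => trivial, fun _ => trivial⟩)
  rw [Set.inter_univ, measure_univ, mul_one] at h
  unfold Measure.real
  rw [h, ENNReal.toReal_ofReal]
  have := hκ.c_pos
  positivity

theorem real_Av_inter (hκ : Law κ c₀ H) {m a b : ℕ} (hm : 1 ≤ m) (hab : a + 2 ≤ b)
    (hn : 2 * m * (b + 1) + 1 ≤ n)
    {z z' : Fin n × Fin n} (hz : z ∈ prs n m a b) (hz' : z' ∈ prs n m a b) {δ : ℝ} (hδ : 0 < δ)
    (hδ1 : δ ≤ 1 / 10) :
    (Measure.pi fun _ : Fin n => κ).real (Av z.1 z.2 δ ∩ Av z'.1 z'.2 δ) ≤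
      (c₀ ^ 4 * δ / 10 ^ 11) ^ 2 + (if z' = z then c₀ ^ 4 * δ / 10 ^ 11 else 0) +
      (if z'.1 = z.1 then c₀ * δ * (3 / 100) * (c₀ ^ 4 * δ / 10 ^ 11) else 0) +
      (if z'.2 = z.2 then c₀ * δ * (3 / 100) * (c₀ ^ 4 * δ / 10 ^ 11) else 0) := by
  have hprob := hκ.prob
  have := pi_prob (n := n) hκ
  have hc := hκ.c_pos
  unfold prs at hz hz'
  rw [mem_product] at hz hz'
  obtain ⟨g1, g2, g3, g4, g5, g6⟩ := blk_ne hm hab hn hz.1 hz.2
  obtain ⟨g1', g2', g3', g4', g5', g6'⟩ := blk_ne hm hab hn hz'.1 hz'.2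
  obtain ⟨n1, n2⟩ := prs_ne hm hab hn hz.1 hz.2 hz'.1 hz'.2
  set q := c₀ ^ 4 * δ / 10 ^ 11 with hq
  set s := c₀ * δ * (3 / 100) with hs
  have hq0 : 0 ≤ q := by positivity
  have hs0 : 0 ≤ s := by positivity
  have r1 : (Measure.pi fun _ : Fin n => κ).real (Av z.1 z.2 δ) = q :=
    real_Av hκ hm hab hn hz.1 hz.2 hδ hδ1
  have r2 : (Measure.pi fun _ : Fin n => κ).real (Av z'.1 z'.2 δ) = q :=
    real_Av hκ hm hab hn hz'.1 hz'.2 hδ hδ1
  by_cases h1 : z'.1 = z.1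
  · by_cases h2 : z'.2 = z.2
    · have h3 : z' = z := Prod.ext h1 h2
      rw [h3, Set.inter_self, if_pos rfl, if_pos rfl, if_pos rfl, r1]
      nlinarith [mul_nonneg hs0 hq0, sq_nonneg q]
    · rw [if_neg (fun h => h2 (Prod.ext_iff.1 h).2), if_pos h1, if_neg h2]
      obtain ⟨⟨m1, m2, m3⟩, _⟩ := n2 h2
      have h3 := sec_le (κ := κ) (measurableSet_Av z'.1 z'.2 δ) (measurableSet_Av z.1 z.2 δ) z'.2
        (ENNReal.ofReal s) (fun ω y => Av_update m1 m2 h2 m3 ω y)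
        (fun ω => Av_sec hκ g1' g2' g3' g4' g5' g6' hδ z'.2 (Or.inr (Or.inr (Or.inl rfl))) ω)
      have h4 : (Measure.pi fun _ : Fin n => κ).real (Av z.1 z.2 δ ∩ Av z'.1 z'.2 δ) ≤ s * q := by
        rw [Set.inter_comm]
        have h5 := ENNReal.toReal_mono (ENNReal.mul_ne_top ENNReal.ofReal_ne_top
          (measure_ne_top _ _)) h3
        rw [ENNReal.toReal_mul, ENNReal.toReal_ofReal hs0] at h5
        unfold Measure.real at r1 ⊢
        rw [r1] at h5
        exact h5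
      nlinarith [sq_nonneg q]
  · by_cases h2 : z'.2 = z.2
    · rw [if_neg (fun h => h1 (Prod.ext_iff.1 h).1), if_neg h1, if_pos h2]
      obtain ⟨⟨m1, m2, m3⟩, _⟩ := n1 h1
      have h3 := sec_le (κ := κ) (measurableSet_Av z'.1 z'.2 δ) (measurableSet_Av z.1 z.2 δ) z'.1
        (ENNReal.ofReal s) (fun ω y => Av_update h1 m1 m2 m3 ω y)
        (fun ω => Av_sec hκ g1' g2' g3' g4' g5' g6' hδ z'.1 (Or.inl rfl) ω)
      have h4 : (Measure.pi fun _ : Fin n => κ).real (Av z.1 z.2 δ ∩ Av z'.1 z'.2 δ) ≤ s * q := by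
        rw [Set.inter_comm]
        have h5 := ENNReal.toReal_mono (ENNReal.mul_ne_top ENNReal.ofReal_ne_top
          (measure_ne_top _ _)) h3
        rw [ENNReal.toReal_mul, ENNReal.toReal_ofReal hs0] at h5
        unfold Measure.real at r1 ⊢
        rw [r1] at h5
        exact h5
      nlinarith [sq_nonneg q]
    · rw [if_neg (fun h => h1 (Prod.ext_iff.1 h).1), if_neg h1, if_neg h2]
      obtain ⟨⟨m1, m2, m3⟩, m4, m5, m6, m7⟩ := n1 h1
      obtain ⟨⟨l1, l2, l3⟩, l4, l5, l6, l7⟩ := n2 h2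
      have h3 := Av_prob hκ g1 g2 g3 g4 g5 g6 hδ hδ1 (Av z'.1 z'.2 δ)
        (measurableSet_Av z'.1 z'.2 δ) (by
          intro v hv ω y
          rcases hv with rfl | rfl | rfl | rfl
          · exact Av_update (Ne.symm h1) (Ne.symm m4) (Ne.symm l1) (Ne.symm l4) ω y
          · exact Av_update (Ne.symm m1) (Ne.symm m5) (Ne.symm l2) (Ne.symm l5) ω y
          · exact Av_update (Ne.symm m2) (Ne.symm m6) (Ne.symm h2) (Ne.symm l6) ω y
          · exact Av_update (Ne.symm m3) (Ne.symm m7) (Ne.symm l3) (Ne.symm l7) ω y)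
      have h4 : (Measure.pi fun _ : Fin n => κ).real (Av z.1 z.2 δ ∩ Av z'.1 z'.2 δ) = q ^ 2 := by
        unfold Measure.real at r2 ⊢
        rw [h3, ENNReal.toReal_mul, r2, ENNReal.toReal_ofReal hq0, sq]
      rw [h4]
      linarith

/-- few pairs -/
theorem few_pairs (hκ : Law κ c₀ H) {m a b : ℕ} (hm : 1 ≤ m) (hab : a + 2 ≤ b)
    (hn : 2 * m * (b + 1) + 1 ≤ n)
    {δ : ℝ} (hδ : 0 < δ) (hδ1 : δ ≤ 1 / 10) :
    (Measure.pi fun _ : Fin n => κ).real {ω | cnt (prs n m a b) (fun z => Av z.1 z.2 δ) ω ≤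
        (m * m * (c₀ ^ 4 * δ / 10 ^ 11)) / 2} ≤
      4 * (m * m * (c₀ ^ 4 * δ / 10 ^ 11) +
        2 * m ^ 3 * (c₀ * δ * (3 / 100) * (c₀ ^ 4 * δ / 10 ^ 11))) /
        (m * m * (c₀ ^ 4 * δ / 10 ^ 11)) ^ 2 := by
  have := pi_prob (n := n) hκ
  have hc := hκ.c_pos
  have hm' : (0 : ℝ) < m := by exact_mod_cast hm
  set q := c₀ ^ 4 * δ / 10 ^ 11 with hq
  set s := c₀ * δ * (3 / 100) with hs
  have hq0 : 0 < q := by positivity
  have hs0 : 0 < s := by positivity
  have hcard : ((prs n m a b).card : ℝ) = m * m := by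
    rw [card_prs hab hn]
    push_cast
    ring
  have hle : 2 * m * (a + 1) ≤ 2 * m * (b + 1) := Nat.mul_le_mul_left _ (by omega)
  have h := cheb (Measure.pi fun _ : Fin n => κ) (prs n m a b) (fun z => Av z.1 z.2 δ)
    (fun z _ => measurableSet_Av z.1 z.2 δ) q (m * m * q + 2 * m ^ 3 * (s * q))
    (fun z hz => by
      unfold prs at hz
      rw [mem_product] at hz
      exact real_Av hκ hm hab hn hz.1 hz.2 hδ hδ1) (by rw [hcard]; positivity) (by
      rw [hcard]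
      have hrow : ∀ z ∈ prs n m a b, ∑ z' ∈ prs n m a b,
          (Measure.pi fun _ : Fin n => κ).real (Av z.1 z.2 δ ∩ Av z'.1 z'.2 δ) ≤
            m * m * q ^ 2 + q + 2 * m * (s * q) := by
        intro z hz
        refine (sum_le_sum fun z' hz' => real_Av_inter hκ hm hab hn hz hz' hδ hδ1).trans ?_
        rw [sum_add_distrib, sum_add_distrib, sum_add_distrib, sum_const, nsmul_eq_mul, hcard,
          sum_ite_eq' (prs n m a b) z, if_pos hz]
        unfold prs at hz ⊢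
        rw [mem_product] at hz
        rw [sum_product, sum_product]
        have hb1 : ((blk n m a).card : ℝ) = m := by
          rw [card_blk]
          omega
        have hb2 : ((blk n m b).card : ℝ) = m := by
          rw [card_blk]
          omega
        have e1 : ∑ x ∈ blk n m a, ∑ _y ∈ blk n m b, (if x = z.1 then s * q else 0) =
            m * (s * q) := by
          simp only [sum_const, nsmul_eq_mul, hb2]
          rw [← mul_sum, sum_ite_eq' _ z.1, if_pos hz.1]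
        have e2 : ∑ _x ∈ blk n m a, ∑ y ∈ blk n m b, (if y = z.2 then s * q else 0) =
            m * (s * q) := by
          rw [sum_const, nsmul_eq_mul, hb1, sum_ite_eq' _ z.2, if_pos hz.2]
        simp only at e1 e2 ⊢
        rw [e1, e2, ← hq]
        linarith
      refine (sum_le_card_nsmul _ _ _ hrow).trans (le_of_eq ?_)
      rw [nsmul_eq_mul, hcard]
      ring)
  rw [hcard] at h
  exact h

/-- many further crossings -/
theorem many_quads (hκ : Law κ c₀ H) {m a b : ℕ} (hm : 1 ≤ m) (hab : a + 2 ≤ b)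
    (hn : 2 * m * (b + 1) + 1 ≤ n)
    {δ : ℝ} (hδ : 0 < δ) {t : ℝ} (ht : 0 < t) :
    (Measure.pi fun _ : Fin n => κ).real {ω | t ≤ cnt (qds n m a b) (Bv δ) ω} ≤
      (m * m * (2 * n)) * (c₀ * δ * (3 / 100) * (4 * H * (2 * δ))) / t := by
  have := pi_prob (n := n) hκ
  have hc := hκ.c_pos
  have hH := hκ.H_pos
  have hmeas : ∀ y : (Fin n × Fin n) × Fin n × Fin n, MeasurableSet (Bv δ y) := by
    intro y
    refine (measurableSet_Av y.1.1 y.1.2 δ).inter ?_
    have hpts : Measurable (pts : (Fin n → Pt × Bool) → Fin n → Pt) :=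
      measurable_pi_lambda _ fun i => measurable_fst.comp (measurable_pi_apply i)
    exact (hpts (measurableSet_cr y.2.1 y.2.2)).inter
      (measurableSet_le (measurable_abs.comp ((measurable_gap y.2.1 y.2.2).comp hpts))
        measurable_const)
  have h := markov (Measure.pi fun _ : Fin n => κ) (qds n m a b) (Bv δ) (fun y _ => hmeas y)
    (c₀ * δ * (3 / 100) * (4 * H * (2 * δ))) t ht (by
      intro y hy
      unfold qds prs at hy
      rw [mem_filter, mem_product, mem_product] at hy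
      obtain ⟨f1, f2, f3⟩ := blk_far hm hab hn hy.1.1.1 hy.1.1.2
      have h3 := Av_gap ssec savsec hκ f1 f2 f3 y.2.1 y.2.2 hy.2.1 hy.2.2 hδ
        (show (0 : ℝ) ≤ 2 * δ by positivity)
      unfold Measure.real
      refine (ENNReal.toReal_mono (ENNReal.mul_ne_top ENNReal.ofReal_ne_top
        ENNReal.ofReal_ne_top) h3).trans (le_of_eq ?_)
      rw [ENNReal.toReal_mul, ENNReal.toReal_ofReal (by positivity),
        ENNReal.toReal_ofReal (by positivity)])
  refine h.trans ?_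
  have hcard : ((qds n m a b).card : ℝ) ≤ m * m * (2 * n) := by exact_mod_cast card_qds hab hn
  gcongr

theorem few_good (hκ : Law κ c₀ H) {m a b : ℕ} (hm : 1 ≤ m) (hab : a + 2 ≤ b)
    (hn : 2 * m * (b + 1) + 1 ≤ n)
    {δ : ℝ} (hδ : 0 < δ) (hδ1 : δ ≤ 1 / 10) :
    (Measure.pi fun _ : Fin n => κ).real {ω | ((good n m a b δ ω).card : ℝ) <
        (m * m * (c₀ ^ 4 * δ / 10 ^ 11)) / 4} ≤
      4 / (m * m * (c₀ ^ 4 * δ / 10 ^ 11)) + 8 * (3 * 10 ^ 9 / c₀ ^ 3) / m +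
        64 * n * (3 * 10 ^ 9 / c₀ ^ 3) * H * δ := by
  have := pi_prob (n := n) hκ
  have hc := hκ.c_pos
  have hm' : (0 : ℝ) < m := by exact_mod_cast hm
  have h1 := few_pairs hκ hm hab hn hδ hδ1
  have h2 := many_quads hκ hm hab hn hδ (t := (m * m * (c₀ ^ 4 * δ / 10 ^ 11)) / 4) (by positivity)
  have hsub : {ω | ((good n m a b δ ω).card : ℝ) < (m * m * (c₀ ^ 4 * δ / 10 ^ 11)) / 4} ⊆
      {ω | cnt (prs n m a b) (fun z => Av z.1 z.2 δ) ω ≤ (m * m * (c₀ ^ 4 * δ / 10 ^ 11)) / 2} ∪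
      {ω | (m * m * (c₀ ^ 4 * δ / 10 ^ 11)) / 4 ≤ cnt (qds n m a b) (Bv δ) ω} := by
    intro ω hω
    rw [Set.mem_union]
    simp only [Set.mem_ofPred_eq] at hω ⊢
    by_contra hcon
    push Not at hcon
    have h3 := card_good (m := m) (a := a) (b := b) hδ ω
    linarith [hcon.1, hcon.2]
  refine (measureReal_mono hsub).trans ((measureReal_union_le _ _).trans
    ((add_le_add h1 h2).trans (le_of_eq ?_)))
  field_simp
  ring

end

end Pool.Agent.H756.RV
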