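import Pool.Agent.H756.RV.Defs
import Pool.Graph.R_seed8.H832R3.VJ.Defs
import Pool.Graph.R_pool_sql_team_seeded_843ab51a.H239.CS.Moments
import Pool.Graph.R_pool_sql_team_seeded_843ab51a.H239.CS.Nullity
import Pool.Graph.R_pool_sql_team_seeded_843ab51a.H239.CS.Factor

set_option autoImplicit false

/-!
# The moments of the normalised bracket: iterated differences for pairwise crossing chords

Paper proof.  (Library: `fPoly_eq` in `H239/CS/Factor.lean`:
`fPoly G w = ∑ s, (∏ c, fac (w c) (s c)) * (-T 2 - T (-2)) ^ nu G univ s`, and `nullity`: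
`loops G s - 1 = nu G univ s`; `H832R2/JR/Zsum.lean`: `Z`, `Z_shift_all`, `Z_delta`, `Z_sub`; see the proof of
`Z_pair` there and of `to_Z`, `sum_one` in `H239/CS/Moments.lean`, which are the model for step (2).)

(1) `fac true σ - fac false σ = (T 2 - T (-2)) * q σ` with `q true = 1`, `q false = T 2 + T (-2)`.  So the
iterated difference of `w ↦ fPoly G w` in the directions of the different crossings of `l` is
`(T 2 - T (-2)) ^ d * R`, `R = ∑ s, (∏ c ∈ l, q (s c)) (∏ c ∉ l, fac (w c) (s c)) * (-T 2 - T (-2)) ^ nu G univ s`,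
`d = l.length`.  `moment j` is additive and `moment d ((T 2 - T (-2)) ^ d * R) = d! * 4 ^ d * R(1)`, where `R(1)`
is the sum of the coefficients of `R` (`moment 0 R`): indeed the moments of order `j < k` of
`(T 2 - T (-2)) ^ k * R` vanish and `moment (j + 1) ((T 2 - T (-2)) * R) =
∑_{i ≤ j} choose (j+1) i * (2 ^ (j+1-i) - (-2) ^ (j+1-i)) * moment i R`.

(2) `R(1) = (-1) ^ (N - d) * ∑ s, (∏ c ∈ l, (if s c then 1 else 2)) * (-2) ^ (loops G s - 1)`.  As in `sum_one`,
`∑ s, (∏ c ∈ l, (if s c then 1 else 2)) * (-2) ^ loops G s = Z G a` with `a c = (0, 1, 2)` for `c ∈ l` and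
`a c = (0, 1, 1)` for `c ∉ l`; by `Z_shift_all` (with `1`) this is `Z G a'`, `a' c = (-1, 0, 1)` for `c ∈ l` and
`(-1, 0, 0)` for `c ∉ l`; expanding, this is
`(-1) ^ N * ∑ S ⊆ l, (-1) ^ |S| * (-2) ^ L G (t_S)`, `t_S c = 2` for `c ∈ S` and `t_S c = 0` for `c ∉ S`.

(3) If the crossings in `S` cross pairwise, then `L G (t_S) = |S|` for `S ≠ ∅` and `L G (t_∅) = 1` (`L_zero`).
Proof as for `nullity` in `H239/CS/Nullity.lean`: the functions `f : Half N → ZMod 2` which are invariant under
`arcFun G` and `smooth t_S` are the functions `col G x z` with `z c = 0` for `c ∉ S` and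
`∑_{i ∈ S, i ≠ c} z i + z c = 0` for `c ∈ S`, that is, `∑_{i ∈ S} z i = 0`; these are `2 ^ |S|` functions.  (Or by
induction with `three_term`.)

(4) So the sum in (2) is `(-1) ^ N * (-2 + ∑_{k ≥ 1} choose d k * 2 ^ k) = (-1) ^ N * (3 ^ d - 3)` and
`R(1) = (-1) ^ (d + 1) * (3 ^ d - 3) / 2`.  Check: `d = 2` gives `2! * 16 * (-3) = -96`, in agreement with
`second_moment` of the library (`-12 * Q`).
-/

namespace Pool.Agent.H756.RV

section moments

open Finset LaurentPolynomial
open Pool.Agent.H832R3.VJ (moment)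

theorem moment_single (j : ℕ) (a k : ℤ) :
    moment j (C a * T k) = a * k ^ j := by
  unfold moment
  rw [← LaurentPolynomial.single_eq_C_mul_T]
  show Finsupp.sum (Finsupp.single k a) _ = _
  rw [Finsupp.sum_single_index (by simp)]

theorem moment_add (j : ℕ) (F H : ℤ[T;T⁻¹]) : moment j (F + H) = moment j F + moment j H := by
  unfold moment
  rw [AddMonoidAlgebra.coeff_add, Finsupp.sum_add_index']
  · intro k; simp
  · intro k a b; ring

/-- the moment as an additive map -/
noncomputable def momentHom (j : ℕ) : ℤ[T;T⁻¹] →+ ℤ :=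
  AddMonoidHom.mk' (moment j) (moment_add j)

theorem momentHom_apply (j : ℕ) (F : ℤ[T;T⁻¹]) : momentHom j F = moment j F := rfl

theorem moment_T_mul (j : ℕ) (m : ℤ) (F : ℤ[T;T⁻¹]) :
    moment j (T m * F) = ∑ i ∈ range (j + 1), m ^ (j - i) * (j.choose i : ℤ) * moment i F := by
  induction F using LaurentPolynomial.induction_on' with
  | add p q hp hq =>
    rw [mul_add, moment_add, hp, hq, ← sum_add_distrib]
    refine sum_congr rfl fun i _ => ?_
    rw [moment_add]; ring
  | C_mul_T n a =>
    rw [show (T m : ℤ[T;T⁻¹]) * (C a * T n) = C a * T (n + m) by rw [T_add]; ring,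
      moment_single, add_pow, mul_sum]
    refine sum_congr rfl fun i _ => ?_
    rw [moment_single]; ring

theorem moment_X_mul (j : ℕ) (F : ℤ[T;T⁻¹]) :
    moment j ((T 2 - T (-2)) * F) =
      ∑ i ∈ range (j + 1), ((2 : ℤ) ^ (j - i) - (-2) ^ (j - i)) * (j.choose i : ℤ) * moment i F := by
  rw [sub_mul, ← momentHom_apply, map_sub, momentHom_apply, momentHom_apply, moment_T_mul,
    moment_T_mul, ← sum_sub_distrib]
  refine sum_congr rfl fun i _ => ?_
  ring

theorem moment_X_pow (k : ℕ) (F : ℤ[T;T⁻¹]) :
    (∀ j < k, moment j ((T 2 - T (-2)) ^ k * F) = 0) ∧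
      moment k ((T 2 - T (-2)) ^ k * F) = (k.factorial : ℤ) * 4 ^ k * moment 0 F := by
  induction k with
  | zero => simp
  | succ k ih =>
    obtain ⟨h1, h2⟩ := ih
    have e : (T 2 - T (-2)) ^ (k + 1) * F = (T 2 - T (-2)) * ((T 2 - T (-2)) ^ k * F) := by ring
    rw [e]
    constructor
    · intro j hj
      rw [moment_X_mul, sum_range_succ]
      rw [sum_eq_zero (fun i hi => ?_)]
      · simp
      · rw [mem_range] at hi
        rw [h1 i (by omega), mul_zero]
    · rw [moment_X_mul, sum_range_succ, sum_range_succ]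
      rw [sum_eq_zero (fun i hi => ?_)]
      · rw [h2]
        simp only [Nat.sub_self, pow_zero, sub_self, zero_mul, add_zero, zero_add]
        rw [show k + 1 - k = 1 by omega, Nat.choose_succ_self_right, Nat.factorial_succ]
        push_cast
        ring
      · rw [mem_range] at hi
        rw [h1 i (by omega), mul_zero]

/-- the value at `1` -/
noncomputable def ev1 : ℤ[T;T⁻¹] →+* ℤ := LaurentPolynomial.eval₂ (RingHom.id ℤ) 1

theorem ev1_T (k : ℤ) : ev1 (T k) = 1 := by
  unfold ev1
  rw [LaurentPolynomial.eval₂_T]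
  simp

theorem moment_zero_eq (F : ℤ[T;T⁻¹]) : moment 0 F = ev1 F := by
  induction F using LaurentPolynomial.induction_on' with
  | add p q hp hq => rw [moment_add, hp, hq, map_add]
  | C_mul_T n a =>
    rw [moment_single, map_mul, ev1_T]
    unfold ev1
    simp

end moments

section curves

open Finset Function
open Pool.Agent.H832R2.JR Pool.Agent.H239.CS

variable {N : ℕ}

/-- unoriented smoothing on `S`, pass through off `S` -/
def tS (S : Finset (Fin N)) (c : Fin N) : Fin 3 := if c ∈ S then 2 else 0

theorem smooth_tS_mem {S : Finset (Fin N)} {c : Fin N} (hc : c ∈ S) (b e : Bool) :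
    smooth (tS S) ((c, b), e) = ((c, !b), e) := by
  simp [smooth, tS, hc]

theorem smooth_tS_not {S : Finset (Fin N)} {c : Fin N} (hc : c ∉ S) (b e : Bool) :
    smooth (tS S) ((c, b), e) = ((c, b), !e) := by
  simp [smooth, tS, hc]

open Classical in
theorem cross_sum (G : GaussWord N) (S : Finset (Fin N))
    (hS : ∀ i ∈ S, ∀ j ∈ S, i ≠ j → Crosses G i j) (z : Fin N → ZMod 2)
    (hz : ∀ c, c ∉ S → z c = 0) (c : Fin N) (hc : c ∈ S) :
    ∑ i, (if Crosses G i c then z i else 0) + z c = ∑ i ∈ S, z i := by
  have h1 : ∀ i, (if Crosses G i c then z i else 0) = if i ∈ S.erase c then z i else 0 := by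
    intro i
    by_cases hic : i = c
    · subst hic
      rw [if_neg (not_crosses_self G i), if_neg (by simp)]
    · by_cases hi : i ∈ S
      · rw [if_pos (hS i hi c hc hic), if_pos (mem_erase.2 ⟨hic, hi⟩)]
      · rw [hz i hi]; simp
  rw [sum_congr rfl (fun i _ => h1 i), sum_ite_mem, univ_inter, sum_erase_add _ _ hc]

theorem col_invS (G : GaussWord N) (S : Finset (Fin N))
    (hS : ∀ i ∈ S, ∀ j ∈ S, i ≠ j → Crosses G i j) (hne : S.Nonempty) (x : ZMod 2)
    (z : Fin N → ZMod 2) :
    Inv G (tS S) (col G x z) ↔ (∀ c, c ∉ S → z c = 0) ∧ ∑ i ∈ S, z i = 0 := by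
  classical
  constructor
  · rintro ⟨_, h2⟩
    have h3 : ∀ c, c ∉ S → z c = 0 := by
      intro c hc
      have h := h2 ((c, false), false)
      rw [smooth_tS_not hc, col_pass] at h
      simpa using h
    refine ⟨h3, ?_⟩
    obtain ⟨c, hc⟩ := hne
    have h := h2 ((c, false), false)
    rw [smooth_tS_mem hc, col_other, cross_sum G S hS z h3 c hc] at h
    simpa using h
  · rintro ⟨h1, h2⟩
    refine ⟨col_arc G x z, ?_⟩
    rintro ⟨⟨c, b⟩, e⟩
    by_cases hc : c ∈ S
    · rw [smooth_tS_mem hc, col_other, cross_sum G S hS z h1 c hc, h2, add_zero]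
    · rw [smooth_tS_not hc, col_pass, h1 c hc, add_zero]

theorem exists_colS (G : GaussWord N) (S : Finset (Fin N)) (i₀ : Fin N) (f : Half N → ZMod 2)
    (hf : Inv G (tS S) f) : ∃ x z, f = col G x z := by
  classical
  set z : Fin N → ZMod 2 := fun c => f ((c, false), true) + f ((c, false), false) with hz
  have hj : ∀ c b e, f ((c, b), !e) = f ((c, b), e) + z c := by
    have h0 : ∀ c, f ((c, false), true) = f ((c, false), false) + z c := by
      intro c
      rw [hz]
      simp only
      have := two_zero (f ((c, false), false))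
      calc f ((c, false), true) = f ((c, false), true) + 0 := by ring
        _ = f ((c, false), true) + (f ((c, false), false) + f ((c, false), false)) := by rw [this]
        _ = _ := by ring
    have h1 : ∀ c, f ((c, true), true) = f ((c, true), false) + z c := by
      intro c
      have h2 := hf.2 ((c, false), false)
      have h3 := hf.2 ((c, false), true)
      have h4 := hf.2 ((c, true), false)
      by_cases hc : c ∈ S
      · rw [smooth_tS_mem hc] at h2 h3
        simp only [Bool.not_false] at h2 h3
        rw [h2, h3, h0]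
      · rw [smooth_tS_not hc] at h2 h4
        simp only [Bool.not_false] at h2 h4
        rw [h4]
        have h5 : z c = 0 := by
          rw [hz]
          simp only
          rw [h2, two_zero]
        rw [h5, add_zero]
    intro c b e
    have h3 : f ((c, b), true) = f ((c, b), false) + z c := by
      cases b
      · exact h0 c
      · exact h1 c
    cases e
    · exact h3
    · rw [Bool.not_true, h3, add_assoc, two_zero, add_zero]
  set g : Half N → ZMod 2 := fun h => f h + col G 0 z h with hg
  have hg1 : ∀ h, g (arcFun G h) = g h := by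
    intro h
    rw [hg]
    simp only
    rw [hf.1, col_arc]
  have hg2 : ∀ p e, g (p, !e) = g (p, e) := by
    rintro ⟨c, b⟩ e
    rw [hg]
    simp only
    rw [hj, col_pass]
    have := two_zero (z c)
    calc _ = f ((c, b), e) + col G 0 z ((c, b), e) + (z c + z c) := by ring
      _ = _ := by rw [this, add_zero]
  refine ⟨g ((i₀, false), false), z, ?_⟩
  funext h
  have h4 := const_of_inv G i₀ g hg1 hg2 ((i₀, false), false) h
  rw [h4, hg]
  unfold col
  simp only
  rw [zero_add, add_assoc, two_zero, add_zero]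

/-- the number of the vectors -/
theorem card_vec (S : Finset (Fin N)) (hne : S.Nonempty) :
    Nat.card (ZMod 2 × {z : Fin N → ZMod 2 // (∀ c, c ∉ S → z c = 0) ∧ ∑ i ∈ S, z i = 0}) =
      2 ^ S.card := by
  classical
  obtain ⟨c₀, hc₀⟩ := hne
  have e : (ZMod 2 × {z : Fin N → ZMod 2 // (∀ c, c ∉ S → z c = 0) ∧ ∑ i ∈ S, z i = 0}) ≃
      (S → ZMod 2) := by
    refine Equiv.ofBijective (fun p c => p.2.1 c.1 + if c.1 = c₀ then p.1 else 0) ⟨?_, ?_⟩
    · rintro ⟨x, z, hz1, hz2⟩ ⟨y, w, hw1, hw2⟩ h
      simp only at h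
      have h1 : ∀ c ∈ S, z c + (if c = c₀ then x else 0) = w c + (if c = c₀ then y else 0) :=
        fun c hc => congrFun h ⟨c, hc⟩
      have h2 : ∑ c ∈ S, (z c + (if c = c₀ then x else 0)) =
          ∑ c ∈ S, (w c + (if c = c₀ then y else 0)) := sum_congr rfl h1
      rw [sum_add_distrib, sum_add_distrib, hz2, hw2, sum_ite_eq', sum_ite_eq', if_pos hc₀,
        if_pos hc₀, zero_add, zero_add] at h2
      subst h2
      have h3 : z = w := by
        funext c
        by_cases hc : c ∈ S
        · exact add_right_cancel (h1 c hc)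
        · rw [hz1 c hc, hw1 c hc]
      subst h3
      rfl
    · intro u
      have hsum : ∑ i ∈ S, (if h : i ∈ S then u ⟨i, h⟩ else 0) = ∑ c : S, u c := by
        rw [← sum_coe_sort S]
        refine sum_congr rfl fun c _ => ?_
        rw [dif_pos c.2]
      refine ⟨(∑ c, u c, ⟨fun c => (if h : c ∈ S then u ⟨c, h⟩ else 0) +
        if c = c₀ then ∑ c, u c else 0, ?_, ?_⟩), ?_⟩
      · intro c hc
        simp only
        rw [dif_neg hc, if_neg (by rintro rfl; exact hc hc₀), add_zero]
      · rw [sum_add_distrib, hsum, sum_ite_eq', if_pos hc₀, two_zero]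
      · funext c
        simp only
        rw [dif_pos c.2, add_assoc]
        by_cases h : c.1 = c₀
        · rw [if_pos h, two_zero, add_zero]
        · rw [if_neg h, add_zero, add_zero]
  rw [Nat.card_congr e, Nat.card_fun]
  simp

theorem L_tS (G : GaussWord N) (S : Finset (Fin N))
    (hS : ∀ i ∈ S, ∀ j ∈ S, i ≠ j → Crosses G i j) (hne : S.Nonempty) :
    L G (tS S) = S.card := by
  classical
  have hfin : Finite (Quot (gen (arcFun G) (smooth (tS S)))) := Quot.finite _
  have e1 : {f : Half N → ZMod 2 // Inv G (tS S) f} ≃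
      (Quot (gen (arcFun G) (smooth (tS S))) → ZMod 2) :=
    { toFun := fun f => Quot.lift f.1 (by
        rintro a b (rfl | rfl)
        · exact (f.2.1 a).symm
        · exact (f.2.2 a).symm)
      invFun := fun q => ⟨fun h => q (Quot.mk _ h),
        fun h => congrArg q (Quot.sound (r := gen (arcFun G) (smooth (tS S))) (a := h)
          (b := arcFun G h) (Or.inl rfl)).symm,
        fun h => congrArg q (Quot.sound (r := gen (arcFun G) (smooth (tS S))) (a := h)
          (b := smooth (tS S) h) (Or.inr rfl)).symm⟩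
      left_inv := fun f => rfl
      right_inv := fun q => by
        funext x
        induction x using Quot.ind
        rfl }
  have i₀ : Fin N := hne.choose
  have e2 : (ZMod 2 × {z : Fin N → ZMod 2 // (∀ c, c ∉ S → z c = 0) ∧ ∑ i ∈ S, z i = 0}) ≃
      {f : Half N → ZMod 2 // Inv G (tS S) f} := by
    refine Equiv.ofBijective (fun p => ⟨col G p.1 p.2.1, (col_invS G S hS hne _ _).2 p.2.2⟩)
      ⟨?_, ?_⟩
    · rintro ⟨x, z, hz⟩ ⟨y, w, hw⟩ h
      have h1 : col G x z = col G y w := congrArg Subtype.val h
      have h2 : z = w := by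
        funext c
        have h3 := col_pass G x z c false false
        have h4 := col_pass G y w c false false
        rw [h1] at h3
        rw [h3] at h4
        exact add_left_cancel h4
      subst h2
      have h5 : x = y := by
        have h6 := congrFun h1 ((i₀, false), false)
        unfold col at h6
        exact add_right_cancel h6
      subst h5
      rfl
    · rintro ⟨f, hf⟩
      obtain ⟨x, z, rfl⟩ := exists_colS G S i₀ f hf
      exact ⟨(x, ⟨z, (col_invS G S hS hne x z).1 hf⟩), rfl⟩
  have h1 := card_vec S hne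
  have h2 : Nat.card (Quot (gen (arcFun G) (smooth (tS S))) → ZMod 2) = 2 ^ L G (tS S) := by
    rw [Nat.card_fun]
    unfold L
    congr 1
    simp
  rw [Nat.card_congr (e2.trans e1), h2] at h1
  exact Nat.pow_right_injective (le_refl 2) h1

end curves

section expansion

open Finset Function LaurentPolynomial
open Pool.Agent.H832R2.JR Pool.Agent.H239.CS
open Pool.Agent.H832R3.VJ (moment)

variable {N : ℕ}

theorem Z_l (G : GaussWord N) (S : Finset (Fin N)) :
    Z G (fun c k => if c ∈ S then (if k = 0 then 0 else if k = 1 then 1 else 2)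
      else (if k = 0 then 0 else 1)) =
      ∑ R ∈ S.powerset, (-1) ^ N * (-1) ^ R.card * (-2) ^ L G (tS R) := by
  classical
  rw [Z_shift_all G _ 1]
  unfold Z
  have hinj : Set.InjOn (tS (N := N)) (S.powerset : Set (Finset (Fin N))) := by
    intro A _ B _ h
    ext c
    have h1 := congrFun h c
    unfold tS at h1
    by_cases hA : c ∈ A <;> by_cases hB : c ∈ B <;> simp_all
  symm
  refine Finset.sum_of_injOn tS hinj (fun _ _ => by simp) ?_ ?_
  · intro t _ ht
    have : ∃ c, (if c ∈ S then (if t c = 0 then (0 : ℤ) else if t c = 1 then 1 else 2)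
      else (if t c = 0 then 0 else 1)) - 1 = 0 := by
      by_contra hcon
      push Not at hcon
      apply ht
      refine ⟨univ.filter fun c => t c = 2, ?_, ?_⟩
      · rw [mem_coe, mem_powerset]
        intro c hc
        rw [mem_filter] at hc
        by_contra hcS
        apply hcon c
        rw [if_neg hcS, hc.2]
        simp
      · funext c
        unfold tS
        by_cases h2 : t c = 2
        · simp [h2]
        · have h1 : t c ≠ 1 := by
            intro h1
            apply hcon c
            rw [h1]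
            split_ifs <;> simp_all
          have h0 : t c = 0 := by omega
          simp [h0]
    obtain ⟨c, hc⟩ := this
    rw [prod_eq_zero (mem_univ c) hc, zero_mul]
  · intro R hR
    rw [mem_powerset] at hR
    congr 1
    have h1 : ∀ c, ((if c ∈ S then (if tS R c = 0 then (0 : ℤ) else if tS R c = 1 then 1 else 2)
        else (if tS R c = 0 then 0 else 1)) - 1) = (-1) * (if c ∈ R then -1 else 1) := by
      intro c
      unfold tS
      by_cases hc : c ∈ R
      · have := hR hc
        simp [hc, this]
      · by_cases hc' : c ∈ S <;> simp [hc, hc']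
    rw [prod_congr rfl (fun c _ => h1 c), prod_mul_distrib, prod_const, card_univ,
      Fintype.card_fin, prod_ite_mem, univ_inter, prod_const]

theorem sum_val (G : GaussWord N) (S : Finset (Fin N))
    (hS : ∀ i ∈ S, ∀ j ∈ S, i ≠ j → Crosses G i j) (hne : S.Nonempty) :
    ∑ s : Fin N → Bool, (∏ c, (if c ∈ S then (if s c then (1 : ℤ) else 2) else 1)) *
      (-2) ^ loops G s = (-1) ^ N * (3 ^ S.card - 3) := by
  classical
  have h1 := to_Z G (fun c b => if c ∈ S then (if b then 1 else 2) else 1)
  rw [h1]
  have h2 : (fun (c : Fin N) (k : Fin 3) => if k = 0 then (0 : ℤ) else if k = 1 then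
      (fun (c : Fin N) (b : Bool) => if c ∈ S then (if b then (1 : ℤ) else 2) else 1) c true else
      (fun (c : Fin N) (b : Bool) => if c ∈ S then (if b then (1 : ℤ) else 2) else 1) c false) =
      (fun (c : Fin N) (k : Fin 3) => if c ∈ S then (if k = 0 then 0 else if k = 1 then 1 else 2)
      else (if k = 0 then 0 else 1)) := by
    funext c k
    by_cases hc : c ∈ S
    · simp [hc]
    · simp [hc]
  rw [h2, Z_l]
  have h3 : ∀ R ∈ S.powerset, (-1 : ℤ) ^ N * (-1) ^ R.card * (-2) ^ L G (tS R) =
      (-1) ^ N * (2 ^ R.card * 1 ^ (S.card - R.card)) +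
        (if R = ∅ then (-1) ^ N * (-3) else 0) := by
    intro R hR
    rw [mem_powerset] at hR
    by_cases hR0 : R = ∅
    · subst hR0
      have i₀ : Fin N := hne.choose
      have h4 : tS (∅ : Finset (Fin N)) = fun _ => 0 := by
        funext c; simp [tS]
      rw [h4, L_zero G i₀]
      simp
      ring
    · rw [if_neg hR0, L_tS G R (fun i hi j hj => hS i (hR hi) j (hR hj))
        (nonempty_iff_ne_empty.2 hR0), one_pow, mul_one, add_zero, mul_assoc, ← mul_pow]
      norm_num
  rw [sum_congr rfl h3, sum_add_distrib, ← mul_sum, Finset.sum_pow_mul_eq_add_pow]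
  have h5 : ∑ R ∈ S.powerset, (if R = ∅ then (-1 : ℤ) ^ N * (-3) else 0) = (-1) ^ N * (-3) := by
    rw [Finset.sum_ite_eq' S.powerset ∅, if_pos (by simp)]
  rw [h5]
  ring

/-- a sum of products over the crossings -/
noncomputable def P (φ : Fin N → Bool → Bool → ℤ[T;T⁻¹]) (F : (Fin N → Bool) → ℤ[T;T⁻¹])
    (w : Fin N → Bool) : ℤ[T;T⁻¹] := ∑ s : Fin N → Bool, (∏ c, φ c (w c) (s c)) * F s

theorem dif_P (φ : Fin N → Bool → Bool → ℤ[T;T⁻¹]) (F : (Fin N → Bool) → ℤ[T;T⁻¹]) (i : Fin N) :
    dif i (P φ F) = P (update φ i (fun _ σ => φ i true σ - φ i false σ)) F := by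
  classical
  funext w
  unfold dif P
  rw [← sum_sub_distrib]
  refine sum_congr rfl fun s _ => ?_
  rw [← sub_mul]
  congr 1
  rw [← mul_prod_erase univ (fun c => φ c (update w i true c) (s c)) (mem_univ i),
    ← mul_prod_erase univ (fun c => φ c (update w i false c) (s c)) (mem_univ i),
    ← mul_prod_erase univ (fun c => update φ i (fun _ σ => φ i true σ - φ i false σ) c (w c) (s c))
      (mem_univ i)]
  simp only [update_self]
  rw [sub_mul]
  have h : ∀ c ∈ univ.erase i, ∀ b : Bool, φ c (update w i b c) (s c) = φ c (w c) (s c) := by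
    intro c hc b
    rw [update_of_ne (ne_of_mem_erase hc)]
  have h' : ∀ c ∈ univ.erase i, update φ i (fun _ σ => φ i true σ - φ i false σ) c (w c) (s c) =
      φ c (w c) (s c) := by
    intro c hc
    rw [update_of_ne (ne_of_mem_erase hc)]
  rw [prod_congr rfl (fun c hc => h c hc true), prod_congr rfl (fun c hc => h c hc false),
    prod_congr rfl h']

theorem difs_P (l : List (Fin N)) (hl : l.Nodup) (φ : Fin N → Bool → Bool → ℤ[T;T⁻¹])
    (F : (Fin N → Bool) → ℤ[T;T⁻¹]) :
    difs l (P φ F) = P (fun c b σ => if c ∈ l then φ c true σ - φ c false σ else φ c b σ) F := by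
  induction l generalizing φ with
  | nil => simp [difs]
  | cons i l ih =>
    rw [List.nodup_cons] at hl
    show difs l (dif i (P φ F)) = _
    rw [dif_P, ih hl.2]
    congr 1
    funext c b σ
    by_cases hci : c = i
    · subst hci
      rw [if_neg hl.1, update_self, if_pos (by simp)]
    · rw [update_of_ne hci]
      simp [hci]

theorem difs_hom {A B : Type} [AddCommGroup A] [AddCommGroup B] (μ : A →+ B) (l : List (Fin N))
    (g : (Fin N → Bool) → A) : difs l (fun w => μ (g w)) = fun w => μ (difs l g w) := by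
  induction l generalizing g with
  | nil => rfl
  | cons i l ih =>
    show difs l (dif i fun w => μ (g w)) = fun w => μ (difs l (dif i g) w)
    rw [← ih]
    congr 1
    funext w
    unfold dif
    rw [map_sub]

/-- the quotient of the difference of the factors by `T 2 - T (-2)` -/
noncomputable def q (σ : Bool) : ℤ[T;T⁻¹] := if σ then 1 else T 2 + T (-2)

theorem fac_sub (σ : Bool) : fac true σ - fac false σ = (T 2 - T (-2)) * q σ := by
  unfold fac q sgn
  cases σ
  · simp only [Bool.false_eq_true, if_false, if_true]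
    have e : ((T 2 - T (-2)) * (T 2 + T (-2)) : ℤ[T;T⁻¹]) = T (2 + 2) - T (-2 + -2) := by
      rw [T_add, T_add]; ring
    rw [e]
    norm_num
    ring
  · simp only [Bool.false_eq_true, if_false, if_true]
    norm_num
    ring

theorem pairwise_all (G : GaussWord N) (l : List (Fin N)) (hl : l.Pairwise (Crosses G)) :
    ∀ i ∈ l, ∀ j ∈ l, i ≠ j → Crosses G i j := by
  induction l with
  | nil => intro i hi; simp at hi
  | cons a l ih =>
    rw [List.pairwise_cons] at hl
    intro i hi j hj hij
    rcases List.mem_cons.1 hi with rfl | hi'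
    · rcases List.mem_cons.1 hj with rfl | hj'
      · exact absurd rfl hij
      · exact hl.1 j hj'
    · rcases List.mem_cons.1 hj with rfl | hj'
      · exact Pool.Agent.H832R2.JR.crosses_symm G _ _ (hl.1 i hi')
      · exact ih hl.2 i hi' j hj' hij

theorem pairwise_nodup (G : GaussWord N) (l : List (Fin N)) (hl : l.Pairwise (Crosses G)) :
    l.Nodup := by
  refine List.Pairwise.imp ?_ hl
  rintro a b h rfl
  exact not_crosses_self G a h

end expansion

open Finset LaurentPolynomial
open Pool.Agent.H832R2.JR (GaussWord fPoly Crosses)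
open Pool.Agent.H832R3.VJ (moment)

open Pool.Agent.H832R2.JR Pool.Agent.H239.CS in
theorem difs_fPoly {N : ℕ} (G : GaussWord N) (l : List (Fin N)) (hl : l.Nodup) (w : Fin N → Bool) :
    difs l (fPoly G) w = (T 2 - T (-2)) ^ l.length * ∑ s : Fin N → Bool,
      (∏ c, (if c ∈ l.toFinset then q (s c) else fac (w c) (s c))) *
        (-T 2 - T (-2)) ^ nu G univ s := by
  classical
  have h1 : fPoly G = P (fun _ b σ => fac b σ) (fun s => (-T 2 - T (-2)) ^ nu G univ s) := by
    funext w
    rw [fPoly_eq]
    rfl
  rw [h1, difs_P l hl]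
  unfold P
  rw [mul_sum]
  refine sum_congr rfl fun s _ => ?_
  rw [← mul_assoc]
  congr 1
  have h2 : ∀ c, (if c ∈ l then fac true (s c) - fac false (s c) else fac (w c) (s c)) =
      (if c ∈ l.toFinset then (T 2 - T (-2) : ℤ[T;T⁻¹]) else 1) *
        (if c ∈ l.toFinset then q (s c) else fac (w c) (s c)) := by
    intro c
    rw [fac_sub]
    by_cases hc : c ∈ l
    · simp [hc]
    · simp [hc]
  rw [prod_congr rfl (fun c _ => h2 c), prod_mul_distrib, prod_ite_mem, univ_inter, prod_const,
    List.toFinset_card_of_nodup hl]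

open Pool.Agent.H832R2.JR Pool.Agent.H239.CS in
theorem ev1_sum {N : ℕ} (G : GaussWord N) (S : Finset (Fin N))
    (hS : ∀ i ∈ S, ∀ j ∈ S, i ≠ j → Crosses G i j) (hne : S.Nonempty) (w : Fin N → Bool) :
    2 * ev1 (∑ s : Fin N → Bool,
      (∏ c, (if c ∈ S then q (s c) else fac (w c) (s c))) *
        (-T 2 - T (-2)) ^ nu G univ s) = (-1) ^ (S.card + 1) * (3 ^ S.card - 3) := by
  classical
  have i₀ : Fin N := hne.choose
  have hL : ∀ s, 1 ≤ loops G s := fun s => by rw [loops_eq]; exact one_le_L G _ i₀
  rw [map_sum]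
  have h1 : ∀ s : Fin N → Bool, ev1 ((∏ c, (if c ∈ S then q (s c) else fac (w c) (s c))) *
        (-T 2 - T (-2)) ^ nu G univ s) = (-1) ^ N * (-1) ^ S.card *
        ((∏ c, (if c ∈ S then (if s c then (1 : ℤ) else 2) else 1)) * (-2) ^ (loops G s - 1)) := by
    intro s
    rw [map_mul, map_prod, map_pow, map_sub, map_neg, ev1_T, ev1_T, ← nullity]
    have h2 : ∀ c, ev1 (if c ∈ S then q (s c) else fac (w c) (s c)) =
        (-1) * ((if c ∈ S then -1 else 1) *
          (if c ∈ S then (if s c then (1 : ℤ) else 2) else 1)) := by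
      intro c
      by_cases hc : c ∈ S
      · simp only [hc, if_true]
        unfold q
        by_cases hs : s c
        · simp [hs]
        · simp only [hs, if_false, map_add, ev1_T, Bool.false_eq_true]
          norm_num
      · simp only [hc, if_false]
        unfold fac
        rw [map_neg, ev1_T]
        norm_num
    rw [prod_congr rfl (fun c _ => h2 c), prod_mul_distrib, prod_mul_distrib, prod_const,
      card_univ, Fintype.card_fin, prod_ite_mem, univ_inter, prod_const]
    norm_num
    ring
  rw [sum_congr rfl (fun s _ => h1 s), ← mul_sum]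
  have h3 := sum_val G S hS hne
  have h4 : ∑ s : Fin N → Bool, (∏ c, (if c ∈ S then (if s c then (1 : ℤ) else 2) else 1)) *
      (-2) ^ loops G s = -2 * ∑ s : Fin N → Bool,
      (∏ c, (if c ∈ S then (if s c then (1 : ℤ) else 2) else 1)) * (-2) ^ (loops G s - 1) := by
    rw [mul_sum]
    refine sum_congr rfl fun s _ => ?_
    obtain ⟨m, hm⟩ : ∃ m, loops G s = m + 1 := ⟨loops G s - 1, by have := hL s; omega⟩
    rw [hm, Nat.add_sub_cancel, pow_succ]
    ring
  rw [h3] at h4
  have h5 : ((-1 : ℤ) ^ N) * (-1) ^ N = 1 := by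
    rw [← pow_add, ← two_mul, pow_mul]; norm_num
  set X := ∑ s : Fin N → Bool,
      (∏ c, (if c ∈ S then (if s c then (1 : ℤ) else 2) else 1)) * (-2) ^ (loops G s - 1)
  calc 2 * ((-1) ^ N * (-1) ^ S.card * X) = (-1) ^ N * (-1) ^ (S.card + 1) * (-2 * X) := by
        rw [pow_succ]; ring
    _ = ((-1) ^ N * (-1) ^ N) * ((-1) ^ (S.card + 1) * (3 ^ S.card - 3)) := by rw [← h4]; ring
    _ = _ := by rw [h5, one_mul]

theorem symb (N : ℕ) (G : GaussWord N) (l : List (Fin N)) (hl : l.Pairwise (Crosses G))
    (hne : l ≠ []) (w : Fin N → Bool) :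
    2 * difs l (fun w => moment l.length (fPoly G w)) w =
      (l.length.factorial : ℤ) * 4 ^ l.length * ((-1) ^ (l.length + 1) * (3 ^ l.length - 3)) := by
  classical
  have hnd := pairwise_nodup G l hl
  have h1 := congrFun (difs_hom (momentHom l.length) l (fPoly G)) w
  have h2 : difs l (fun w => moment l.length (fPoly G w)) w =
      moment l.length (difs l (fPoly G) w) := h1
  rw [h2, difs_fPoly G l hnd w, (moment_X_pow l.length _).2, moment_zero_eq]
  have hS : ∀ i ∈ l.toFinset, ∀ j ∈ l.toFinset, i ≠ j → Crosses G i j := by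
    intro i hi j hj
    exact pairwise_all G l hl i (List.mem_toFinset.1 hi) j (List.mem_toFinset.1 hj)
  have hne' : l.toFinset.Nonempty := by
    rwa [List.toFinset_nonempty_iff]
  have h3 := ev1_sum G l.toFinset hS hne' w
  rw [List.toFinset_card_of_nodup hnd] at h3
  rw [← h3]
  ring

end Pool.Agent.H756.RV
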