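import Pool.Agent.H756.RV.Lab
import Pool.Agent.H756.RV.Symb

set_option autoImplicit false

/-!
The moments of the normalised bracket of a polygon: the iterated differences.
-/

namespace Pool.Agent.H756.RV

open Finset Function LaurentPolynomial
open Pool.Agent.H756.RP
open Pool.Agent.H832R2.JR (GaussWord fPoly Crosses)
open Pool.Agent.H832R3.VJ (moment)

variable {n : ℕ}

/-- the blocks of the vertices -/
def xJ (d : ℕ) (j : Fin d) : ℕ := j

/-- the blocks of the edges -/
def yJ (d : ℕ) (j : Fin d) : ℕ := d + j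

theorem arrJ {d : ℕ} (hd : 2 ≤ d) : Arr (xJ d) (yJ d) (2 * d) := by
  refine ⟨?_, ?_, ?_, ?_, ?_⟩
  · intro j j' h
    exact Fin.ext h
  · intro j j' h
    unfold yJ at h
    exact Fin.ext (by omega)
  · intro j j'
    unfold xJ yJ
    have := j.2
    omega
  · intro j
    unfold xJ yJ
    omega
  · intro j
    unfold yJ
    have := j.2
    omega

/-- the value of the iterated difference -/
def aJ (d : ℕ) : ℤ := (d.factorial : ℤ) * (2 * 4 ^ (d - 1)) * ((-1) ^ (d + 1) * (3 ^ d - 3))

theorem aJ_ne {d : ℕ} (hd : 2 ≤ d) : aJ d ≠ 0 := by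
  unfold aJ
  have h1 : ((d.factorial : ℕ) : ℤ) ≠ 0 := by exact_mod_cast d.factorial_ne_zero
  have h2 : (3 : ℤ) ^ d - 3 ≠ 0 := by
    have : (3 : ℤ) ^ 2 ≤ 3 ^ d := pow_le_pow_right₀ (by norm_num) hd
    have h9 : (3 : ℤ) ^ 2 = 9 := by norm_num
    omega
  have h3 : ((-1 : ℤ)) ^ (d + 1) ≠ 0 := pow_ne_zero _ (by norm_num)
  have h4 : (2 * 4 ^ (d - 1) : ℤ) ≠ 0 := by positivity
  exact mul_ne_zero (mul_ne_zero h1 h4) (mul_ne_zero h3 h2)

theorem diffJ {d : ℕ} (hd : 2 ≤ d) :
    Diff (n := n) (xJ d) (yJ d) (fun p => moment d (pol (dat p))) (aJ d) := by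
  intro p J δ C k hδ hgen hsh hpl
  have hp : Gen p := by
    have := hgen (fun _ => false)
    rwa [shift_false] at this
  have h := Sharp.iUnion hsh
  by_cases hne : (univ.biUnion C).Nonempty
  · obtain ⟨N, G, e, hW, hpol⟩ := pol_eq _ _ (word_of_gen hp)
    obtain ⟨z, hz⟩ := exists_lab h hW hne
    refine ⟨fun i => sg (dS p k i), fun i => ?_, ?_⟩
    · cases h0 : dS p k i
      · right
        simp only [h0]
        rfl
      · left
        simp only [h0]
        rfl
    have hV : (fun ε => moment d (pol (dat (shift p J δ ε)))) =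
        fun ε => (1 : ℤ) • (fun w => moment d (fPoly G w)) (wS p J δ e ε) := by
      funext ε
      rw [one_smul, dat_shift, hpol]
      rfl
    rw [hV, show aJ d = (1 : ℤ) • aJ d from (one_smul _ _).symm]
    refine tr_of (dS p k) (fun i => (z i).1) (wS p J δ e) (aJ d) (List.ofFn C)
      (fun w => moment d (fPoly G w)) 1 ?_ ?_
    · intro C' hC' i hi ε b
      rw [List.mem_ofFn] at hC'
      obtain ⟨j, rfl⟩ := hC'
      exact wS_update hδ h hW hz ε i (mem_biUnion.2 ⟨j, mem_univ _, hi⟩) b
    · intro l hl w'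
      obtain ⟨g, rfl, hg⟩ := forall₂_ofFn hl
      have hgC : ∀ j, g j ∈ univ.biUnion C := fun j => mem_biUnion.2 ⟨j, mem_univ _, hg j⟩
      have hlen : ((List.ofFn g).map fun i => (z i).1).length = d := by simp
      have hs := symb N G ((List.ofFn g).map fun i => (z i).1) (by
        rw [List.map_ofFn, List.pairwise_ofFn]
        intro j j' hjj
        obtain ⟨q1, q2, q3, q4⟩ := hpl j j' (g j) (hg j) (g j') (hg j')
        obtain ⟨_, q5, _, _⟩ := hpl j' j (g j') (hg j') (g j) (hg j)
        have r1 : g j < g j' := q1 hjj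
        have r2 : g j' < k (g j) := q5 (by unfold xJ yJ; have := j'.2; omega)
        have r3 : k (g j) < k (g j') := q4 (by unfold yJ; rw [Fin.lt_def] at hjj; omega)
        refine crosses_of G _ _ (z (g j)).2 (z (g j')).2 ?_ ?_ ?_
        · apply lab_lt hW
          show (e ((z (g j)).1, (z (g j)).2)).1 < (e ((z (g j')).1, (z (g j')).2)).1
          rw [hz.fst _ (hgC j), hz.fst _ (hgC j')]
          exact r1
        · apply lab_lt hW
          show (e ((z (g j')).1, (z (g j')).2)).1 < (e ((z (g j)).1, !(z (g j)).2)).1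
          rw [hz.fst _ (hgC j'), hz.snd _ (hgC j)]
          exact r2
        · apply lab_lt hW
          show (e ((z (g j)).1, !(z (g j)).2)).1 < (e ((z (g j')).1, !(z (g j')).2)).1
          rw [hz.snd _ (hgC j), hz.snd _ (hgC j')]
          exact r3) (by
        intro h0
        have := congrArg List.length h0
        rw [hlen, List.length_nil] at this
        omega) w'
      rw [hlen] at hs
      have h4 : (4 : ℤ) ^ d = 2 * (2 * 4 ^ (d - 1)) := by
        obtain ⟨d', rfl⟩ : ∃ d', d = d' + 1 := ⟨d - 1, by omega⟩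
        rw [Nat.add_sub_cancel, pow_succ]
        ring
      have h5 : (2 : ℤ) * difs ((List.ofFn g).map fun i => (z i).1)
          (fun w => moment d (fPoly G w)) w' = 2 * aJ d := by
        rw [hs, h4]
        unfold aJ
        ring
      omega
  · refine ⟨fun _ => 1, fun _ => Or.inl rfl, ?_⟩
    have h0 : C ⟨0, by omega⟩ = ∅ := by
      by_contra h1
      apply hne
      obtain ⟨i, hi⟩ := Finset.nonempty_iff_ne_empty.2 h1
      exact ⟨i, mem_biUnion.2 ⟨_, mem_univ _, hi⟩⟩
    obtain ⟨d', rfl⟩ : ∃ d', d = d' + 1 := ⟨d - 1, by omega⟩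
    rw [List.ofFn_succ]
    intro i hi
    have h2 : C 0 = ∅ := h0
    rw [h2] at hi
    exact absurd hi (notMem_empty i)

end Pool.Agent.H756.RV
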