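import Pool.Agent.H756.RV.Arr

set_option autoImplicit false

/-!
The crossings which are changed, as crossings of the Gauss word.
-/

namespace Pool.Agent.H756.RV

open Finset Function
open Pool.Agent.H756.RP
open Pool.Agent.H832R2.JR (GaussWord)

variable {n N : ℕ}

theorem Sharp.iUnion {d : ℕ} {p : Fin n → Pt} {J : Finset (Fin n)} {δ : ℝ}
    {C : Fin d → Finset (Fin n)} {k : Fin n → Fin n} (h : ∀ j, Sharp p J δ (C j) k) :
    Sharp p J δ (univ.biUnion C) k := by
  have hm : ∀ i, i ∈ univ.biUnion C → ∃ j, i ∈ C j := fun i hi => by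
    rw [mem_biUnion] at hi
    obtain ⟨j, _, hj⟩ := hi
    exact ⟨j, hj⟩
  refine ⟨?_, ?_, ?_, ?_, ?_, ?_, ?_, ?_⟩ <;> intro i hi <;> obtain ⟨j, hj⟩ := hm i hi
  · exact (h j).sub hj
  · exact (h j).cross i hj
  · exact (h j).neg i hj
  · exact (h j).pos i hj
  · exact (h j).nxi i hj
  · exact (h j).ki i hj
  · exact (h j).nxk i hj
  · exact (h j).rob i hj

/-- the signs of the crossings of the word -/
noncomputable def wS (p : Fin n → Pt) (J : Finset (Fin n)) (δ : ℝ)
    (e : Fin N × Bool → Fin n × Fin n) (ε : Fin n → Bool) (c : Fin N) : Bool :=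
  SG p J δ ε (e (c, false)).1 (e (c, false)).2

open Classical in
/-- the passage `(c, false)` is the upper one -/
noncomputable def oS (p : Fin n → Pt) (J : Finset (Fin n)) (δ : ℝ)
    (e : Fin N × Bool → Fin n × Fin n) (ε : Fin n → Bool) (c : Fin N) : Bool :=
  decide (0 < gap (shift p J δ ε) (e (c, false)).1 (e (c, false)).2)

open Classical in
/-- the direction of the sign change -/
noncomputable def dS (p : Fin n → Pt) (k : Fin n → Fin n) (i : Fin n) : Bool :=
  decide (0 < det p i (k i))

/-- the labels of the crossings -/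
structure IsLab (p : Fin n → Pt) (C : Finset (Fin n)) (k : Fin n → Fin n)
    (e : Fin N × Bool → Fin n × Fin n) (z : Fin n → Fin N × Bool) : Prop where
  fst : ∀ i ∈ C, e ((z i).1, (z i).2) = (i, k i)
  snd : ∀ i ∈ C, e ((z i).1, !(z i).2) = (k i, i)
  inj : ∀ i ∈ C, ∀ j ∈ C, (z i).1 = (z j).1 → i = j

theorem exists_lab {p : Fin n → Pt} {J : Finset (Fin n)} {δ : ℝ} {C : Finset (Fin n)}
    {k : Fin n → Fin n} (h : Sharp p J δ C k) {G : GaussWord N} {e : Fin N × Bool → Fin n × Fin n}
    (hW : IsWord (dat p).1 (dat p).2.1 G e) (hne : C.Nonempty) :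
    ∃ z : Fin n → Fin N × Bool, IsLab p C k e z := by
  classical
  have hX : ∀ i j, Cr p i j → (dat p).1 i j = true := fun i j hij => decide_eq_true hij
  have hne : Nonempty (Fin N × Bool) := by
    obtain ⟨i, hi⟩ := hne
    obtain ⟨c, b, _⟩ := exists_label hW i (k i) (hX _ _ (h.cross i hi))
    exact ⟨(c, b)⟩
  have hlab : ∀ i, ∃ z : Fin N × Bool, i ∈ C → e (z.1, z.2) = (i, k i) ∧
      e (z.1, !z.2) = (k i, i) := by
    intro i
    by_cases hi : i ∈ C
    · obtain ⟨c, b, hcb⟩ := exists_label hW i (k i) (hX _ _ (h.cross i hi))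
      exact ⟨(c, b), fun _ => hcb⟩
    · exact ⟨Classical.arbitrary _, fun hh => absurd hh hi⟩
  choose z hz using hlab
  refine ⟨z, fun i hi => (hz i hi).1, fun i hi => (hz i hi).2, ?_⟩
  intro i hi j hj hij
  have e1 := hz i hi
  have e2 := hz j hj
  have e3 : (z i).1 = (z j).1 := hij
  rcases Bool.eq_or_eq_not (z i).2 (z j).2 with h3 | h3
  · rw [← e3, ← h3, e1.1] at e2
    exact (Prod.ext_iff.1 e2.1).1
  · exfalso
    rw [← e3] at e2
    have h4 : e ((z i).1, (z i).2) = (k j, j) := by
      rw [h3]
      exact e2.2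
    rw [e1.1] at h4
    have h5 : i = k j := (Prod.ext_iff.1 h4).1
    exact h.ki j hj (h5 ▸ h.sub hi)

theorem wS_eq {p : Fin n → Pt} {J : Finset (Fin n)} {δ : ℝ} {G : GaussWord N}
    {e : Fin N × Bool → Fin n × Fin n} (hW : IsWord (dat p).1 (dat p).2.1 G e)
    (ε : Fin n → Bool) (c : Fin N) (b : Bool) :
    wS p J δ e ε c = SG p J δ ε (e (c, b)).1 (e (c, b)).2 := by
  cases b
  · rfl
  · rw [hW.2.1 c]
    exact (SG_swap p J δ ε _ _).symm

/-- changing the height of one vertex changes the sign of one crossing -/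
theorem wS_update {p : Fin n → Pt} {J : Finset (Fin n)} {δ : ℝ} (hδ : 0 < δ) {C : Finset (Fin n)}
    {k : Fin n → Fin n} (h : Sharp p J δ C k) {G : GaussWord N} {e : Fin N × Bool → Fin n × Fin n}
    (hW : IsWord (dat p).1 (dat p).2.1 G e) {z : Fin n → Fin N × Bool} (hz : IsLab p C k e z)
    (ε : Fin n → Bool) (i : Fin n) (hi : i ∈ C) (b : Bool) :
    wS p J δ e (update ε i b) = update (wS p J δ e ε) (z i).1 (dS p k i == b) := by
  classical
  have hinj := word_inj hW
  have hX' : ∀ i j, (dat p).1 i j = true → Cr p i j := fun i j hij => of_decide_eq_true hij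
  funext c
  by_cases hc : c = (z i).1
  · subst hc
    rw [update_self, wS_eq hW _ _ (z i).2, hz.fst i hi, SG_sharp h _ i hi, update_self]
    rfl
  · rw [update_of_ne hc]
    by_cases hc' : ∃ j ∈ C, (z j).1 = c
    · obtain ⟨j, hj, rfl⟩ := hc'
      have hij : j ≠ i := fun h' => hc (by rw [h'])
      rw [wS_eq hW _ _ (z j).2, wS_eq hW _ _ (z j).2, hz.fst j hj, SG_sharp h _ j hj,
        SG_sharp h _ j hj, update_of_ne hij]
    · refine SG_other hδ h _ _ ?_ _ _ (hX' _ _ (hW.1 (c, false))) ?_
      · intro j hj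
        rw [update_of_ne (fun h' => hj (by rw [h']; exact hi))]
      · intro j hj
        constructor
        · intro h3
          apply hc'
          refine ⟨j, hj, ?_⟩
          have h4 : e (c, false) = e ((z j).1, (z j).2) := by
            rw [hz.fst j hj, ← h3]
          exact (Prod.ext_iff.1 (hinj h4)).1.symm
        · intro h3
          apply hc'
          refine ⟨j, hj, ?_⟩
          have h4 : e (c, true) = e ((z j).1, (z j).2) := by
            rw [hz.fst j hj, ← h3, hW.2.1 c]
            rfl
          exact (Prod.ext_iff.1 (hinj h4)).1.symm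

/-- the order of the passages -/
theorem lab_lt {p : Fin n → Pt} {G : GaussWord N} {e : Fin N × Bool → Fin n × Fin n}
    (hW : IsWord (dat p).1 (dat p).2.1 G e) {x y : Fin N × Bool} (h : (e x).1 < (e y).1) :
    G x < G y := (hW.2.2.2 x y).2 (Or.inl h)

/-- the polygon itself is one of the shifted polygons -/
theorem shift_false (p : Fin n → Pt) (J : Finset (Fin n)) (δ : ℝ) :
    shift p J δ (fun _ => false) = p := by
  classical
  funext i
  unfold shift
  rw [if_neg]
  rintro ⟨_, h⟩
  exact absurd h (by simp)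

/-- the sign as a number -/
def sg (b : Bool) : ℤ := if b then 1 else -1

/-- The iterated differences of a function of the signs. -/
theorem tr_of {A : Type} [AddCommGroup A] {n N : ℕ} (D : Fin n → Bool) (lab : Fin n → Fin N)
    (w : (Fin n → Bool) → Fin N → Bool) (a : A) :
    ∀ (Cs : List (Finset (Fin n))) (F : (Fin N → Bool) → A) (s : ℤ),
      (∀ C ∈ Cs, ∀ i ∈ C, ∀ ε b, w (update ε i b) = update (w ε) (lab i) (D i == b)) →
      (∀ l : List (Fin n), List.Forall₂ (fun i C => i ∈ C) l Cs →
        ∀ w', difs (l.map lab) F w' = a) →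
      Tr (fun i => sg (D i)) Cs (fun ε => s • F (w ε)) (s • a)
  | [], F, s, _, hF => fun ε => by
    have := hF [] List.Forall₂.nil (w ε)
    simp only [List.map_nil, difs] at this
    show s • F (w ε) = s • a
    rw [this]
  | C :: Cs, F, s, hw, hF => by
    intro i hi
    have h1 : dif i (fun ε => s • F (w ε)) = fun ε => (s * sg (D i)) • dif (lab i) F (w ε) := by
      funext ε
      show s • F (w (update ε i true)) - s • F (w (update ε i false)) = _
      unfold dif
      rw [hw C List.mem_cons_self i hi, hw C List.mem_cons_self i hi]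
      cases D i
      · simp only [sg, Bool.false_eq_true, if_false]
        rw [show (false == true) = false from rfl, show (false == false) = true from rfl,
          mul_neg, mul_one, neg_smul, smul_sub, neg_sub]
      · simp only [sg, if_true]
        rw [show (true == true) = true from rfl, show (true == false) = false from rfl,
          mul_one, smul_sub]
    rw [h1, smul_smul, mul_comm (sg (D i)) s]
    refine tr_of D lab w a Cs (dif (lab i) F) (s * sg (D i))
      (fun C' hC' => hw C' (List.mem_cons_of_mem _ hC')) ?_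
    intro l hl w'
    exact hF (i :: l) (List.Forall₂.cons hi hl) w'

theorem forall₂_ofFn {α β : Type} {R : α → β → Prop} : ∀ {d : ℕ} {f : Fin d → β} {l : List α},
    List.Forall₂ R l (List.ofFn f) → ∃ g : Fin d → α, l = List.ofFn g ∧ ∀ j, R (g j) (f j) := by
  intro d f l h
  have hlen : l.length = d := by
    rw [h.length_eq, List.length_ofFn]
  subst hlen
  refine ⟨fun j => l.get j, (List.ofFn_get l).symm, ?_⟩
  intro j
  have := List.Forall₂.get h j.2 (by rw [List.length_ofFn]; exact j.2)
  simpa using this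

end Pool.Agent.H756.RV
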