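import Pool.Agent.H756.RP.Desc
import Pool.Agent.H756.RP.Reduce

set_option autoImplicit false

/-!
The knot diagram of a closed polygon, with the upper and lower strands.
-/

namespace Pool.Agent.H756.RV

open Pool.Agent.H756.RP
open Pool.Agent.H832R2.JR (GaussWord)

variable {n : ℕ}

/-- The projection of the closed polygon with the vertices `p` is the knot diagram with the Gauss word
`G`, the signs `w` and the upper passages `o`: there are edges `a x` and parameters `t x` for the
passages `x` of the crossings, such that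

* the passages are interior points of edges, and the two passages of a crossing have the same
  projection;
* any two different points of the polygon with the same projection are the two passages of a
  crossing;
* `G` numbers the passages in the order in which they are met;
* at a crossing the projections of the edges are not parallel, the heights are different, the
  crossing is positive (`w c = true`) if and only if (the direction of the upper strand,
  the direction of the lower strand) is a positive frame of the plane, and `o c = true` if and only if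
  the passage `(c, false)` is the upper one. -/
def IsDiagram (p : Fin n → Pt) {N : ℕ} (G : GaussWord N) (o w : Fin N → Bool) : Prop :=
  ∃ (a : Fin N × Bool → Fin n) (t : Fin N × Bool → ℝ),
    (∀ x, 0 < t x ∧ t x < 1) ∧
    (∀ c, (ept p (a (c, false)) (t (c, false))).1 = (ept p (a (c, true)) (t (c, true))).1 ∧
      (ept p (a (c, false)) (t (c, false))).2.1 = (ept p (a (c, true)) (t (c, true))).2.1) ∧
    (∀ (i j : Fin n) (s r : ℝ), 0 ≤ s → s < 1 → 0 ≤ r → r < 1 → (i, s) ≠ (j, r) →
      (ept p i s).1 = (ept p j r).1 → (ept p i s).2.1 = (ept p j r).2.1 →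
      ∃ c b, a (c, b) = i ∧ t (c, b) = s ∧ a (c, !b) = j ∧ t (c, !b) = r) ∧
    (∀ x y, G x < G y ↔ a x < a y ∨ (a x = a y ∧ t x < t y)) ∧
    ∀ c, det p (a (c, false)) (a (c, true)) ≠ 0 ∧
      (ept p (a (c, false)) (t (c, false))).2.2 ≠ (ept p (a (c, true)) (t (c, true))).2.2 ∧
      (w c = true ↔ (0 < det p (a (c, false)) (a (c, true)) ↔
        (ept p (a (c, true)) (t (c, true))).2.2 < (ept p (a (c, false)) (t (c, false))).2.2)) ∧
      (o c = true ↔
        (ept p (a (c, true)) (t (c, true))).2.2 < (ept p (a (c, false)) (t (c, false))).2.2)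

open Classical in
theorem diagram_of_word {n : ℕ} (hn : 3 ≤ n) (p : Fin n → Pt) (hp : Gen p) {N : ℕ}
    {G : GaussWord N} {e : Fin N × Bool → Fin n × Fin n} (h : IsWord (dat p).1 (dat p).2.1 G e) :
    IsDiagram p G (fun c => decide (0 < gap p (e (c, false)).1 (e (c, false)).2))
      (fun c => (dat p).2.2 (e (c, false)).1 (e (c, false)).2) := by
  have hCr : ∀ x, Cr p (e x).1 (e x).2 := fun x => (dat_X p _ _).1 (h.1 x)
  refine ⟨fun x => (e x).1, fun x => par p (e x).1 (e x).2, ?_, ?_, ?_, ?_, ?_⟩
  · intro x
    exact (hCr x).2.1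
  · intro c
    have hs := h.2.1 c
    have h1 : (e (c, true)).1 = (e (c, false)).2 := by rw [hs]; rfl
    have h2 : (e (c, true)).2 = (e (c, false)).1 := by rw [hs]; rfl
    simp only [h1, h2]
    exact (meet (hCr (c, false)).1 _ _).2 ⟨rfl, rfl⟩
  · intro i j s r hs0 hs1 hr0 hr1 hne hx hy
    obtain ⟨hC, hs, hr⟩ := common hn hp hs0 hs1 hr0 hr1 hne hx hy
    obtain ⟨⟨c, b⟩, hx⟩ := h.2.2.1 i j ((dat_X p i j).2 hC)
    refine ⟨c, b, ?_, ?_, ?_, ?_⟩
    · simp only [hx]
    · simp only [hx]; exact hs.symm
    · simp only [desc_word_swap h, hx, Prod.swap]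
    · simp only [desc_word_swap h, hx, Prod.swap]; exact hr.symm
  · intro x y
    rw [h.2.2.2 x y, dat_O]
    constructor
    · rintro (h1 | ⟨h1, h2⟩)
      · exact Or.inl h1
      · right
        refine ⟨h1, ?_⟩
        simp only [← h1]
        exact h2
    · rintro (h1 | ⟨h1, h2⟩)
      · exact Or.inl h1
      · right
        refine ⟨h1, ?_⟩
        simp only [← h1] at h2
        exact h2
  · intro c
    have hs := h.2.1 c
    have h1 : (e (c, true)).1 = (e (c, false)).2 := by rw [hs]; rfl
    have h2 : (e (c, true)).2 = (e (c, false)).1 := by rw [hs]; rfl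
    simp only [h1, h2, ept_z]
    have hc := hCr (c, false)
    have hg := hp.nogap _ _ hc
    refine ⟨hc.1, ?_, ?_, ?_⟩
    · intro h0
      apply hg
      unfold gap
      rw [h0]; ring
    · rw [dat_S, sign_iff hc.1 hg]
      unfold gap
      rw [sub_pos]
    · rw [decide_eq_true_iff]
      unfold gap
      rw [sub_pos]

theorem sim_diagram {n : ℕ} (p : Fin n → Pt) (a : Pt) (s : ℝ) (hs : 0 < s) {N : ℕ}
    (G : GaussWord N) (o w : Fin N → Bool) :
    IsDiagram p G o w ↔ IsDiagram (fun i => sim a s (p i)) G o w := by
  have hs2 : 0 < s ^ 2 := by positivity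
  have h0 : ∀ i j : Fin n, (det p i j / s ^ 2 ≠ 0) ↔ (det p i j ≠ 0) := by
    intro i j
    rw [ne_eq, div_eq_zero_iff]
    simp [hs2.ne']
  have h1 : ∀ i j : Fin n, (0 < det p i j / s ^ 2) ↔ (0 < det p i j) := by
    intro i j
    rw [div_pos_iff_of_pos_right hs2]
  unfold IsDiagram
  simp only [Reduce.ept_1, Reduce.ept_2, Reduce.ept_3, Reduce.det_sim, Reduce.div_eq hs,
    Reduce.div_lt hs, h0, h1, ne_eq]

end Pool.Agent.H756.RV
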