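import Pool.Agent.H756.RV.OU
import Pool.Agent.H756.RV.Lab

set_option autoImplicit false

/-!
Invariants of knots with a value on singular knots which is given by the chord diagram.
-/

namespace Pool.Agent.H756.RV

open Finset Function
open Pool.Agent.H756.RP
open Pool.Agent.H832R2.JR (GaussWord)

variable {n N d : ℕ}

/-- `v` is an invariant of knots: closed polygons whose projections are the same knot diagram have the
same value -/
def IsInvariant {A : Type} (v : ∀ n, (Fin n → Pt) → A) : Prop :=
  ∀ (n n' : ℕ) (p : Fin n → Pt) (p' : Fin n' → Pt) (N : ℕ) (G : GaussWord N) (o w : Fin N → Bool),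
    IsDiagram p G o w → IsDiagram p' G o w → v n p = v n' p'

open Classical in
/-- negate `u` at the crossings `c j` with `τ j = false` -/
noncomputable def change (c : Fin d → Fin N) (τ : Fin d → Bool) (u : Fin N → Bool) : Fin N → Bool :=
  fun e => if ∃ j, c j = e ∧ τ j = false then !u e else u e

/-- the crossings `c j` are passed in the order which is given by the chord diagram `D` -/
def HasChords (G : GaussWord N) (c : Fin d → Fin N) (D : GaussWord d) : Prop :=
  ∃ b : Fin d → Bool, ∀ j j' s s', G (c j, xor (b j) s) < G (c j', xor (b j') s') ↔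
    D (j, s) < D (j', s')

/-- The extension of `v` to knots with `d` double points by the Vassiliev skein relation
`v (K_×) = v (K_+) - v (K_-)` takes the value `a` on every singular knot with the chord diagram `D`.  The
singular knot is given by a diagram `G`, `o`, `w` and the positive crossings `c j`, which are to be replaced by
double points, and its `2 ^ d` resolutions by polygons `p τ`. -/
def Symbol {A : Type} [AddCommGroup A] (v : ∀ n, (Fin n → Pt) → A) (D : GaussWord d) (a : A) : Prop :=
  ∀ (N : ℕ) (G : GaussWord N) (o w : Fin N → Bool) (c : Fin d → Fin N), (∀ j, w (c j) = true) →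
    HasChords G c D → ∀ (n : ℕ) (p : (Fin d → Bool) → Fin n → Pt),
    (∀ τ, IsDiagram (p τ) G (change c τ o) (change c τ w)) →
    ∑ τ : Fin d → Bool, (∏ j, sg (τ j)) • v n (p τ) = a

/-! ## Iterated differences -/

open Classical in
/-- the coordinates `g j` get the values `τ j` -/
noncomputable def setv (ε : Fin n → Bool) (g : Fin d → Fin n) (τ : Fin d → Bool) : Fin n → Bool :=
  fun i => if h : ∃ j, g j = i then τ h.choose else ε i

theorem setv_eq (ε : Fin n → Bool) {g : Fin d → Fin n} (hg : Injective g) (τ : Fin d → Bool)
    (j : Fin d) : setv ε g τ (g j) = τ j := by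
  unfold setv
  have h : ∃ j', g j' = g j := ⟨j, rfl⟩
  rw [dif_pos h, hg h.choose_spec]

theorem setv_of_ne (ε : Fin n → Bool) {g : Fin d → Fin n} (τ : Fin d → Bool)
    {i : Fin n} (hi : ∀ j, g j ≠ i) : setv ε g τ i = ε i := by
  unfold setv
  rw [dif_neg]
  rintro ⟨j, hj⟩
  exact hi j hj

theorem setv_cons (ε : Fin n → Bool) {g : Fin (d + 1) → Fin n} (hg : Injective g) (b : Bool)
    (τ : Fin d → Bool) :
    update (setv ε (fun j => g j.succ) τ) (g 0) b = setv ε g (Fin.cons b τ : Fin (d + 1) → Bool) := by
  have hg' : Injective fun j : Fin d => g j.succ := fun j j' h => Fin.succ_injective _ (hg h)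
  funext i
  by_cases h0 : i = g 0
  · subst h0
    rw [update_self, setv_eq ε hg]
    rfl
  · rw [update_of_ne h0]
    by_cases h1 : ∃ j : Fin d, g j.succ = i
    · obtain ⟨j, rfl⟩ := h1
      rw [setv_eq ε hg, Fin.cons_succ]
      exact setv_eq ε hg' τ j
    · push Not at h1
      rw [setv_of_ne _ _ h1, setv_of_ne]
      intro j
      refine Fin.cases ?_ ?_ j
      · exact fun h => h0 h.symm
      · exact h1

theorem difs_eq_sum {A : Type} [AddCommGroup A] : ∀ (d : ℕ) (g : Fin d → Fin n), Injective g →
    ∀ (F : (Fin n → Bool) → A) (ε : Fin n → Bool),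
      difs (List.ofFn g) F ε = ∑ τ : Fin d → Bool, (∏ j, sg (τ j)) • F (setv ε g τ)
  | 0, g, _, F, ε => by
    rw [List.ofFn_zero]
    have h : ∀ τ : Fin 0 → Bool, setv ε g τ = ε := by
      intro τ
      funext i
      exact setv_of_ne _ _ (fun j => j.elim0)
    simp only [difs, h]
    simp
  | d + 1, g, hg, F, ε => by
    have hg' : Injective fun j : Fin d => g j.succ := fun j j' h => Fin.succ_injective _ (hg h)
    rw [List.ofFn_succ]
    show difs (List.ofFn fun j : Fin d => g j.succ) (dif (g 0) F) ε = _
    rw [difs_eq_sum d _ hg']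
    rw [← Equiv.sum_comp (Fin.consEquiv fun _ : Fin (d + 1) => Bool), Fintype.sum_prod_type]
    rw [Fintype.sum_bool, ← sum_add_distrib]
    refine sum_congr rfl fun τ _ => ?_
    have e1 : ∀ b : Bool, (∏ j, sg ((Fin.consEquiv fun _ : Fin (d + 1) => Bool) (b, τ) j)) =
        sg b * ∏ j, sg (τ j) := by
      intro b
      rw [Fin.prod_univ_succ]
      rfl
    have e2 : ∀ b : Bool, setv ε g ((Fin.consEquiv fun _ : Fin (d + 1) => Bool) (b, τ)) =
        update (setv ε (fun j => g j.succ) τ) (g 0) b := fun b => (setv_cons ε hg b τ).symm
    rw [e1, e1, e2, e2]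
    unfold dif
    simp only [sg, if_true, Bool.false_eq_true, if_false, one_mul, neg_mul, neg_smul, smul_sub]
    rw [sub_eq_add_neg]

theorem tr_of_difs {A : Type} [AddCommGroup A] (σ : Fin n → ℤ) :
    ∀ (Cs : List (Finset (Fin n))) (F : (Fin n → Bool) → A) (a : A),
      (∀ l : List (Fin n), List.Forall₂ (fun i C => i ∈ C) l Cs → ∀ ε,
        difs l F ε = (l.map σ).prod • a) → Tr σ Cs F a
  | [], F, a, h => fun ε => by
    have := h [] List.Forall₂.nil ε
    simpa [difs] using this
  | C :: Cs, F, a, h => fun i hi => by
    refine tr_of_difs σ Cs (dif i F) (σ i • a) ?_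
    intro l hl ε
    have := h (i :: l) (List.Forall₂.cons hi hl) ε
    rw [List.map_cons, List.prod_cons] at this
    rw [smul_smul, mul_comm]
    exact this

/-! ## The blocks of a chord diagram -/

/-- the first passage of the chord `j` is `(j, fst D j)` -/
def first (D : GaussWord d) (j : Fin d) : Bool := decide (D (j, true) < D (j, false))

theorem first_lt (D : GaussWord d) (j : Fin d) : D (j, first D j) < D (j, !first D j) := by
  unfold first
  have hne : D (j, true) ≠ D (j, false) := by
    intro h
    have := D.injective h
    simp at this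
  rcases lt_or_gt_of_ne hne with h | h
  · simp [h]
  · simp [not_lt.2 h.le, h]

/-- the blocks of the vertices -/
def xD (D : GaussWord d) (j : Fin d) : ℕ := 2 * (D (j, first D j) : ℕ)

/-- the blocks of the edges -/
def yD (D : GaussWord d) (j : Fin d) : ℕ := 2 * (D (j, !first D j) : ℕ)

theorem arrD (D : GaussWord d) : Arr (xD D) (yD D) (4 * d) := by
  refine ⟨?_, ?_, ?_, ?_, ?_⟩
  · intro j j' h
    unfold xD at h
    have h1 : D (j, first D j) = D (j', first D j') := Fin.ext (by omega)
    exact (Prod.ext_iff.1 (D.injective h1)).1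
  · intro j j' h
    unfold yD at h
    have h1 : D (j, !first D j) = D (j', !first D j') := Fin.ext (by omega)
    exact (Prod.ext_iff.1 (D.injective h1)).1
  · intro j j' h
    unfold xD yD at h
    have h1 : D (j, first D j) = D (j', !first D j') := Fin.ext (by omega)
    have h2 := Prod.ext_iff.1 (D.injective h1)
    have h3 : j = j' := h2.1
    subst h3
    have h4 : first D j = !first D j := h2.2
    revert h4
    cases first D j <;> simp
  · intro j
    have := first_lt D j
    rw [Fin.lt_def] at this
    unfold xD yD
    omega
  · intro j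
    unfold yD
    have := (D (j, !first D j)).2
    omega

/-! ## The differences of an invariant of polygons -/

open Classical in
/-- the value of the invariant `v`, computed from the finite data -/
noncomputable def val {A : Type} [AddCommGroup A] (v : ∀ n, (Fin n → Pt) → A)
    (e : Dat n × (Fin n → Fin n → Bool)) : A :=
  if h : ∃ q : Fin n → Pt, Gen q ∧ dat2 q = e then v n h.choose else 0

theorem diagram_dat (hn : 3 ≤ n) {q : Fin n → Pt} (hq : Gen q) {G : GaussWord N}
    {e : Fin N × Bool → Fin n × Fin n} (h : IsWord (dat q).1 (dat q).2.1 G e) :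
    IsDiagram q G (fun c => (dat2 q).2 (e (c, false)).1 (e (c, false)).2)
      (fun c => (dat2 q).1.2.2 (e (c, false)).1 (e (c, false)).2) := by
  classical
  have := diagram_of_word hn q hq h
  convert this using 1
  · funext c
    simp only [dat2]
  · funext c
    simp only [dat2]

theorem val_eq {A : Type} [AddCommGroup A] {v : ∀ n, (Fin n → Pt) → A} (hv : IsInvariant v)
    (hn : 3 ≤ n) {q : Fin n → Pt} (hq : Gen q) : val v (dat2 q) = v n q := by
  classical
  have h : ∃ q' : Fin n → Pt, Gen q' ∧ dat2 q' = dat2 q := ⟨q, hq, rfl⟩
  unfold val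
  rw [dif_pos h]
  obtain ⟨h1, h2⟩ := h.choose_spec
  obtain ⟨N, G, e, hW⟩ := word_of_gen hq
  have e1 : dat h.choose = dat q := congrArg Prod.fst h2
  have d1 := diagram_dat hn hq hW
  have hW' : IsWord (dat h.choose).1 (dat h.choose).2.1 G e := by rw [e1]; exact hW
  have d2 := diagram_dat hn h1 hW'
  rw [h2] at d2
  exact hv _ _ _ _ _ _ _ _ d2 d1

theorem sg_beq (a b : Bool) : sg (a == b) = sg a * sg b := by
  cases a <;> cases b <;> rfl

/-- translated polygons: the word -/
theorem word_shift {p : Fin n → Pt} (J : Finset (Fin n)) (δ : ℝ) (ε : Fin n → Bool)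
    {G : GaussWord N} {e : Fin N × Bool → Fin n × Fin n}
    (h : IsWord (dat p).1 (dat p).2.1 G e) :
    IsWord (dat (shift p J δ ε)).1 (dat (shift p J δ ε)).2.1 G e := by
  rw [dat_shift]
  exact h

open Classical in
/-- the upper passage in terms of the sign -/
theorem over_eq {p : Fin n → Pt} {J : Finset (Fin n)} {δ : ℝ} {ε : Fin n → Bool}
    (hq : Gen (shift p J δ ε)) {G : GaussWord N} {e : Fin N × Bool → Fin n × Fin n}
    (h : IsWord (dat p).1 (dat p).2.1 G e) (c : Fin N) :
    (dat2 (shift p J δ ε)).2 (e (c, false)).1 (e (c, false)).2 =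
      (wS p J δ e ε c == decide (0 < det p (e (c, false)).1 (e (c, false)).2)) := by
  have hcr : Cr p (e (c, false)).1 (e (c, false)).2 := (dat_X p _ _).1 (h.1 (c, false))
  have hcr' : Cr (shift p J δ ε) (e (c, false)).1 (e (c, false)).2 := (Cr_shift p J δ ε _ _).2 hcr
  have hg := hq.nogap _ _ hcr'
  have hs := sign_iff hcr.1 hg
  unfold dat2 wS SG
  simp only
  by_cases h1 : 0 < det p (e (c, false)).1 (e (c, false)).2 <;>
    by_cases h2 : 0 < gap (shift p J δ ε) (e (c, false)).1 (e (c, false)).2 <;>
    simp [h1, h2, hs]

theorem diffD (hn : 3 ≤ n) {A : Type} [AddCommGroup A] {v : ∀ n, (Fin n → Pt) → A}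
    (hv : IsInvariant v) (hd : 1 ≤ d) {D : GaussWord d} {a : A} (hs : Symbol v D a) :
    Diff (n := n) (xD D) (yD D) (fun p => val v (dat2 p)) a := by
  classical
  intro p J δ C k hδ hgen hsh hpl
  have hp : Gen p := by
    have := hgen (fun _ => false)
    rwa [shift_false] at this
  have h := Sharp.iUnion hsh
  by_cases hne : (univ.biUnion C).Nonempty
  · obtain ⟨N, G, e, hW⟩ := word_of_gen hp
    obtain ⟨z, hz⟩ := exists_lab h hW hne
    refine ⟨fun i => sg (dS p k i), fun i => ?_, ?_⟩
    · cases h0 : dS p k i
      · right
        simp only [h0]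
        rfl
      · left
        simp only [h0]
        rfl
    refine tr_of_difs _ _ _ _ ?_
    intro l hl ε
    obtain ⟨g, rfl, hg⟩ := forall₂_ofFn hl
    have hgC : ∀ j, g j ∈ univ.biUnion C := fun j => mem_biUnion.2 ⟨j, mem_univ _, hg j⟩
    -- the vertices are different
    have hginj : Injective g := by
      intro j j' hjj
      by_contra hne'
      have h1 : xD D j ≠ xD D j' := fun hh => hne' ((arrD D).injx _ _ hh)
      rcases lt_or_gt_of_ne h1 with h2 | h2
      · have := (hpl j j' (g j) (hg j) (g j') (hg j')).1 h2
        rw [hjj] at this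
        exact lt_irrefl _ this
      · have := (hpl j' j (g j') (hg j') (g j) (hg j)).1 h2
        rw [hjj] at this
        exact lt_irrefl _ this
    set c : Fin d → Fin N := fun j => (z (g j)).1 with hc
    set T : (Fin d → Bool) → Fin n → Bool := fun τ =>
      setv ε g (fun j => dS p k (g j) == τ j) with hT
    -- the signs of the resolutions
    have hsign : ∀ τ, wS p J δ e (T τ) = change c τ (wS p J δ e (T fun _ => true)) := by
      intro τ
      have hsub : Sharp p J δ (univ.image g) k := by
        have hm : ∀ i ∈ univ.image g, i ∈ univ.biUnion C := by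
          intro i hi
          rw [mem_image] at hi
          obtain ⟨j, _, rfl⟩ := hi
          exact hgC j
        exact ⟨fun i hi => h.sub (hm i hi), fun i hi => h.cross i (hm i hi),
          fun i hi => h.neg i (hm i hi), fun i hi => h.pos i (hm i hi),
          fun i hi => h.nxi i (hm i hi), fun i hi => h.ki i (hm i hi),
          fun i hi => h.nxk i (hm i hi), fun i hi => h.rob i (hm i hi)⟩
      have hbb : ∀ a b : Bool, (a == (a == b)) = b := by decide
      have hat : ∀ (τ : Fin d → Bool) (j : Fin d), wS p J δ e (T τ) (c j) = τ j := by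
        intro τ j
        rw [wS_eq hW _ _ (z (g j)).2, hz.fst _ (hgC j), SG_sharp h _ (g j) (hgC j)]
        have : T τ (g j) = (dS p k (g j) == τ j) := setv_eq ε hginj _ j
        rw [this]
        exact hbb _ _
      funext c0
      unfold change
      by_cases hc0 : ∃ j, c j = c0
      · obtain ⟨j, rfl⟩ := hc0
        rw [hat, hat]
        have hcinj : ∀ j', c j' = c j → j' = j := fun j' hj' =>
          hginj (hz.inj _ (hgC j') _ (hgC j) hj')
        by_cases hτ : τ j = false
        · rw [if_pos ⟨j, rfl, hτ⟩, hτ]
          rfl
        · rw [if_neg]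
          · simpa using hτ
          · rintro ⟨j', h1, h2⟩
            rw [hcinj j' h1] at h2
            exact hτ h2
      · rw [if_neg (fun ⟨j, hj, _⟩ => hc0 ⟨j, hj⟩)]
        refine SG_other hδ hsub _ _ ?_ _ _ ((dat_X p _ _).1 (hW.1 (c0, false))) ?_
        · intro i hi
          have hi' : ∀ j, g j ≠ i := fun j hj => hi (mem_image.2 ⟨j, mem_univ _, hj⟩)
          rw [hT]
          simp only
          rw [setv_of_ne _ _ hi', setv_of_ne _ _ hi']
        · intro i hi
          rw [mem_image] at hi
          obtain ⟨j, _, rfl⟩ := hi
          have hinj := word_inj hW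
          constructor
          · intro h3
            apply hc0
            refine ⟨j, ?_⟩
            have h4 : e (c0, false) = e ((z (g j)).1, (z (g j)).2) := by
              rw [hz.fst _ (hgC j), ← h3]
            exact (Prod.ext_iff.1 (hinj h4)).1.symm
          · intro h3
            apply hc0
            refine ⟨j, ?_⟩
            have h4 : e (c0, true) = e ((z (g j)).1, (z (g j)).2) := by
              rw [hz.fst _ (hgC j), ← h3, hW.2.1 c0]
              rfl
            exact (Prod.ext_iff.1 (hinj h4)).1.symm
    have hbb' : ∀ a b : Bool, (a == (a == b)) = b := by decide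
    have hat : ∀ (τ : Fin d → Bool) (j : Fin d), wS p J δ e (T τ) (c j) = τ j := by
      intro τ j
      rw [wS_eq hW _ _ (z (g j)).2, hz.fst _ (hgC j), SG_sharp h _ (g j) (hgC j)]
      have : T τ (g j) = (dS p k (g j) == τ j) := setv_eq ε hginj _ j
      rw [this]
      exact hbb' _ _
    -- the chord diagram
    have hchord : HasChords G c D := by
      refine ⟨fun j => xor (z (g j)).2 (first D j), ?_⟩
      have key : ∀ j j' s s', D (j, s) < D (j', s') →
          G (c j, xor (xor (z (g j)).2 (first D j)) s) <
            G (c j', xor (xor (z (g j')).2 (first D j')) s') := by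
        intro j j' s s' hlt
        rw [Fin.lt_def] at hlt
        obtain ⟨q1, q2, q3, q4⟩ := hpl j j' (g j) (hg j) (g j') (hg j')
        have a1 := hz.fst _ (hgC j)
        have a2 := hz.snd _ (hgC j)
        have b1 := hz.fst _ (hgC j')
        have b2 := hz.snd _ (hgC j')
        apply lab_lt hW
        have xs : ∀ (b f : Bool), xor (xor b f) f = b := by decide
        have xn : ∀ (b f : Bool), xor (xor b f) (!f) = !b := by decide
        by_cases hs1 : s = first D j
        · rw [hs1] at hlt
          rw [hs1, xs]
          by_cases hs2 : s' = first D j'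
          · rw [hs2] at hlt
            rw [hs2, xs]
            show (e ((z (g j)).1, (z (g j)).2)).1 < (e ((z (g j')).1, (z (g j')).2)).1
            rw [a1, b1]
            exact q1 (by unfold xD; omega)
          · have hs2' : s' = !first D j' := by
              revert hs2
              cases s' <;> cases first D j' <;> simp
            rw [hs2'] at hlt
            rw [hs2', xn]
            show (e ((z (g j)).1, (z (g j)).2)).1 < (e ((z (g j')).1, !(z (g j')).2)).1
            rw [a1, b2]
            exact q2 (by unfold xD yD; omega)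
        · have hs1' : s = !first D j := by
            revert hs1
            cases s <;> cases first D j <;> simp
          rw [hs1'] at hlt
          rw [hs1', xn]
          by_cases hs2 : s' = first D j'
          · rw [hs2] at hlt
            rw [hs2, xs]
            show (e ((z (g j)).1, !(z (g j)).2)).1 < (e ((z (g j')).1, (z (g j')).2)).1
            rw [a2, b1]
            exact q3 (by unfold xD yD; omega)
          · have hs2' : s' = !first D j' := by
              revert hs2
              cases s' <;> cases first D j' <;> simp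
            rw [hs2'] at hlt
            rw [hs2', xn]
            show (e ((z (g j)).1, !(z (g j)).2)).1 < (e ((z (g j')).1, !(z (g j')).2)).1
            rw [a2, b2]
            exact q4 (by unfold yD; omega)
      intro j j' s s'
      refine ⟨fun hlt => ?_, key j j' s s'⟩
      by_contra hcon
      rcases lt_or_eq_of_le (not_lt.1 hcon) with h1 | h1
      · exact lt_asymm hlt (key j' j s' s h1)
      · have h2 := Prod.ext_iff.1 (D.injective h1)
        have h3 : j' = j := h2.1
        have h4 : s' = s := h2.2
        subst h3 h4
        exact lt_irrefl _ hlt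
    -- the sum
    have hsum := hs N G
      (fun c0 => (wS p J δ e (T fun _ => true) c0 ==
        decide (0 < det p (e (c0, false)).1 (e (c0, false)).2)))
      (wS p J δ e (T fun _ => true)) c (fun j => hat _ j) hchord n
      (fun τ => shift p J δ (T τ)) (by
        intro τ
        have h1 := diagram_dat hn (hgen (T τ)) (word_shift J δ (T τ) hW)
        convert h1 using 1
        · funext c0
          rw [over_eq (hgen (T τ)) hW, hsign τ]
          unfold change
          split_ifs
          · have : ∀ x y : Bool, (!(x == y)) = ((!x) == y) := by decide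
            exact this _ _
          · rfl
        · rw [← hsign τ]
          funext c0
          unfold wS SG dat2
          rw [dat_shift])
    rw [difs_eq_sum d g hginj]
    rw [List.map_ofFn, List.prod_ofFn]
    -- substitution
    have hbij : Function.Bijective fun (τ : Fin d → Bool) (j : Fin d) => (dS p k (g j) == τ j) := by
      have hinv : Function.Involutive fun (τ : Fin d → Bool) (j : Fin d) =>
          (dS p k (g j) == τ j) := by
        intro τ
        funext j
        exact hbb' _ _
      exact hinv.bijective
    rw [← (Equiv.ofBijective _ hbij).sum_comp]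
    have hterm : ∀ τ : Fin d → Bool,
        (∏ j, sg ((Equiv.ofBijective _ hbij) τ j)) •
          (fun ε => val v (dat2 (shift p J δ ε))) (setv ε g ((Equiv.ofBijective _ hbij) τ)) =
        (∏ j, sg (dS p k (g j))) • ((∏ j, sg (τ j)) • v n (shift p J δ (T τ))) := by
      intro τ
      have e1 : ∀ j, (Equiv.ofBijective _ hbij) τ j = (dS p k (g j) == τ j) := fun j => rfl
      have e2 : (∏ j, sg ((Equiv.ofBijective _ hbij) τ j)) =
          (∏ j, sg (dS p k (g j))) * ∏ j, sg (τ j) := by
        rw [← prod_mul_distrib]
        exact prod_congr rfl fun j _ => by rw [e1, sg_beq]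
      rw [e2, mul_smul]
      congr 2
      exact val_eq hv hn (hgen (T τ))
    rw [sum_congr rfl fun τ _ => hterm τ, ← smul_sum, hsum]
    rfl
  · refine ⟨fun _ => 1, fun _ => Or.inl rfl, ?_⟩
    have h0 : C ⟨0, by omega⟩ = ∅ := by
      by_contra h1
      apply hne
      obtain ⟨i, hi⟩ := Finset.nonempty_iff_ne_empty.2 h1
      exact ⟨i, mem_biUnion.2 ⟨_, mem_univ _, hi⟩⟩
    obtain ⟨d', rfl⟩ : ∃ d', d = d' + 1 := ⟨d - 1, by omega⟩
    rw [List.ofFn_succ]
    intro i hi
    have h2 : C 0 = ∅ := h0
    rw [h2] at hi
    exact absurd hi (notMem_empty i)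

end Pool.Agent.H756.RV
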